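import Pool.Agent.Helper19.Stab.LevC
import Pool.Agent.Helper68.Stab.LocRep

/-! Iterated structure maps of the compact model of a telescope are chains. A map to a level whose
class in the localised theory vanishes is null-homotopic after suspensions. -/

open CategoryTheory Topology Filter Set Opposite

set_option linter.unusedVariables false

noncomputable section

namespace Pool.Agent.Helper1.Stab

/-! ### The iterated structure map -/

/-- `N + 1 ⊔ α = 1 ⊔ (N ⊔ α)` -/
def eN (N : ℕ) (α : Type) : Fin (N + 1) ⊕ α ≃ Option (Fin N ⊕ α) where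
  toFun
    | .inl i => Fin.cases none (fun j => some (.inl j)) i
    | .inr a => some (.inr a)
  invFun
    | none => .inl 0
    | some (.inl j) => .inl j.succ
    | some (.inr a) => .inr a
  left_inv x := by
    rcases x with i | a
    · refine Fin.cases rfl (fun j => rfl) i
    · rfl
  right_inv x := by rcases x with _ | j | a <;> rfl

/-- `ℂ^N × K`, iterated -/
def itC (K : LC) : ℕ → LC
  | 0 => K
  | N + 1 => LC.C.prod (itC K N)

/-- `ℂ × (ℂ^N × K) = ℂ^(N+1) × K` -/
def shN (N : ℕ) (K : LC) :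
    LC.C.prod ((LC.cpow (Fin N)).prod K) ≃ₜ (LC.cpow (Fin (N + 1))).prod K where
  toFun x := (Fin.cons x.1 x.2.1, x.2.2)
  invFun x := (x.1 0, (fun i => x.1 i.succ, x.2))
  left_inv _ := rfl
  right_inv x := Prod.ext (by
    funext i
    refine Fin.cases rfl (fun j => rfl) i) rfl
  continuous_toFun := by
    refine Continuous.prodMk (continuous_pi fun i => ?_) (continuous_snd.comp continuous_snd)
    refine Fin.cases ?_ (fun j => ?_) i
    · exact continuous_fst
    · exact (continuous_apply j).comp (continuous_fst.comp continuous_snd)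
  continuous_invFun := ((continuous_apply 0).comp continuous_fst).prodMk
    ((continuous_pi fun i => (continuous_apply _).comp continuous_fst).prodMk continuous_snd)

/-- `ℂ^N × K`, iterated -/
def hN (K : LC) : ∀ N, itC K N ≃ₜ (LC.cpow (Fin N)).prod K
  | 0 => Levels.z0 K
  | N + 1 => ((Homeomorph.refl ℂ).prodCongr (hN K N)).trans (shN N K)

/-- the iterated suspension of a map to a level -/
def itNext {G : Prespectrum} (L : Levels G) (m : ℕ) {K : LC} (ψ : PMap K (L.K m).plus) :
    ∀ N, PMap (itC K N) (L.K (m + N)).plus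
  | 0 => ψ
  | N + 1 => (L.step (m + N)).comp (PMap.ltens LC.C (itNext L m ψ N))

theorem isTest_itC {K : LC} (h : IsTest K) : ∀ N, IsTest (itC K N)
  | 0 => h
  | N + 1 => (isTest_itC h N).prodC

/-- `ℂ^N × K` as a test space -/
def itT (K : Test) (N : ℕ) : Test := ⟨itC K.obj N, isTest_itC K.property N⟩

theorem Levels.pbT_next {G : Prespectrum} (L : Levels G) (m : ℕ) {K : Test}
    (ψ : PMap K.obj (L.K m).plus) :
    pbT ((hT G).H.h (m + 1)) (K := Test.cx.obj K) (L := L.T (m + 1))
      ((L.step m).comp (PMap.ltens LC.C ψ)) (L.u (m + 1)) =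
      ((hT G).H.σ m).hom.app (op K) (pbT ((hT G).H.h m) (K := K) (L := L.T m) ψ (L.u m)) := by
  have h1 := pbT_comp ((hT G).H.h (m + 1)) (K := Test.cx.obj K) (L := Test.cx.obj (L.T m))
    (M := L.T (m + 1)) (L.step m) (PMap.ltens LC.C ψ) (L.u (m + 1))
  have h2 : pbT ((hT G).H.h (m + 1)) (K := Test.cx.obj (L.T m)) (L := L.T (m + 1)) (L.step m)
      (L.u (m + 1)) = ((hT G).H.σ m).hom.app (op (L.T m)) (L.u m) := L.compatible_u m
  rw [h2] at h1
  exact h1.trans (sig_pbT (hT G).H m (K := K) (L := L.T m) ψ (L.u m)).symm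

theorem Levels.pbT_itNext {G : Prespectrum} (L : Levels G) (m : ℕ) {K : Test}
    (ψ : PMap K.obj (L.K m).plus) : ∀ N, pbT ((hT G).H.h (m + N)) (K := itT K N)
      (L := L.T (m + N)) (itNext L m ψ N) (L.u (m + N)) = 0 →
    pbT ((hT G).H.h m) (K := K) (L := L.T m) ψ (L.u m) = 0
  | 0, h => h
  | N + 1, h => by
    refine Levels.pbT_itNext L m ψ N ?_
    apply sig_inj (hT G).H (m + N) (itT K N)
    rw [← L.pbT_next (m + N) (K := itT K N) (itNext L m ψ N)]
    refine Eq.trans h ?_
    exact (map_zero (((hT G).H.σ (m + N)).hom.app (op (itT K N))).hom).symm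

/-- a morphism on the functor of a prespectrum with compact levels is injective if it is
injective on the maps to the levels -/
theorem Levels.injective_of_null {G : Prespectrum} (L : Levels G) (H : GF) (Φ : hP.obj G ⟶ H)
    (h : ∀ (m : ℕ) (K : Test) (ψ : PMap K.obj (L.K m).plus),
      pbT (H.h m) (K := K) (L := L.T m) ψ ((Φ.app m).app (op (L.T m)) (L.u m)) = 0 →
      ∃ N, (itNext L m ψ N).Homotopic (PMap.zero _ _)) (c : ℕ) (K : Testᵒᵖ) :
    Function.Injective ((Φ.app c).app K) := by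
  have key : ∀ (j b : ℕ) (K : Test) (f : (G.upp b).Rep j K.obj),
      (Φ.app b).app (op K) ((hT G).cls f) = 0 → (hT G).cls f = 0 := by
    intro j
    induction j with
    | zero =>
      intro b K f hf
      rw [L.cls_rep0 b f] at hf ⊢
      have h1 := app_pbT Φ b (K := K) (L := L.T b) (L.base b f) (L.u b)
      obtain ⟨N, hN⟩ := h b K (L.base b f) (h1.symm.trans hf)
      refine L.pbT_itNext b (L.base b f) N ?_
      have h2 := congrFun (pbT_homotopic ((hT G).H.h (b + N)) (K := itT K N)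
        (L := L.T (b + N)) hN) (L.u (b + N))
      rw [h2]
      exact (hP_red G).pbT_zeroMap (b + N) (K := itT K N) (L := L.T (b + N)) (L.u (b + N))
    | succ j ih =>
      intro b K f hf
      apply sig_inj (hT G).H b K
      have h1 := app_sig Φ b K ((hT G).cls f)
      have h3 := Levels.sig_cls f
      have h4 := ih (b + 1) (Test.cx.obj K) (Levels.sh f) (by
        rw [← h3]
        refine h1.trans ?_
        rw [hf]
        exact map_zero ((H.σ b).hom.app (op K)).hom)
      refine (h3.trans h4).trans ?_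
      exact (map_zero (((hT G).H.σ b).hom.app (op K)).hom).symm
  refine (injective_iff_map_eq_zero ((Φ.app c).app K).hom).2 fun y hy => ?_
  obtain ⟨j, -, f, rfl⟩ := (hT G).cls_surj (b := c) (K := K.unop) y 0
  exact key j c K.unop f hy

section cons

variable {α κ : Type} [Fintype α] [Fintype κ] {K : LC}

/-- the product with the identity of `ℂ^N` -/
def consN (N : ℕ) (ω : PMap K (LC.XX α κ).plus) :
    PMap ((LC.cpow (Fin N)).prod K) (LC.XX (Fin N ⊕ α) κ).plus :=
  (PMap.ofHomeo (splitX (Fin N) α κ).symm).comp (PMap.ltens (LC.cpow (Fin N)) ω)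

theorem consN_val (N : ℕ) (ω : PMap K (LC.XX α κ).plus) (v : Fin N → ℂ) (x : K) :
    consN N ω (v, x) = bnd (ω x) (fun y => OnePoint.some (X := LC.XX (Fin N ⊕ α) κ)
      (Sum.elim v y.1, y.2)) := by
  change (PMap.ofHomeo (splitX (Fin N) α κ).symm).plus (smashPt (LC.cpow (Fin N)) (LC.XX α κ)
    (((v : LC.cpow (Fin N)) : OnePoint (LC.cpow (Fin N))), ω x)) = _
  rcases ω x with _ | y <;> rfl

/-- one more suspension -/
def consC1 {L : LC} (F : PMap L (LC.XX α κ).plus) : PMap (LC.C.prod L) (LC.XX (Option α) κ).plus :=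
  (PMap.ofHomeo (consX α κ)).comp (PMap.ltens LC.C F)

theorem consC1_val {L : LC} (F : PMap L (LC.XX α κ).plus) (z : ℂ) (x : L) :
    consC1 F (z, x) = bnd (F x) (fun y => OnePoint.some (X := LC.XX (Option α) κ)
      (fun o => Option.elim o z y.1, y.2)) := by
  change (PMap.ofHomeo (consX α κ)).plus (smashPt LC.C (LC.XX α κ)
    (((z : LC.C) : OnePoint LC.C), F x)) = _
  rcases F x with _ | y <;> rfl

theorem consC1_comp {β l : Type} [Fintype β] [Fintype l] {L : LC}
    (G : PMap (LC.XX α κ) (LC.XX β l).plus) (F : PMap L (LC.XX α κ).plus) :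
    consC1 (G.comp F) = (extC G).comp (consC1 F) := by
  ext ⟨z, x⟩
  rw [consC1_val, comp_bnd, comp_bnd, consC1_val]
  rcases F x with _ | y
  · rfl
  · exact (extC_val G (fun o => Option.elim o z y.1) y.2).symm

theorem consC1_homeo {L M : LC} (F : PMap M (LC.XX α κ).plus) (h : L ≃ₜ M) :
    consC1 (F.comp (PMap.ofHomeo h)) = (consC1 F).comp
      (PMap.ofHomeo ((Homeomorph.refl ℂ).prodCongr h : LC.C.prod L ≃ₜ LC.C.prod M)) := by
  ext ⟨z, x⟩
  rw [consC1_val]
  exact (consC1_val F z (h x)).symm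

theorem consC1_consN (N : ℕ) (ω : PMap K (LC.XX α κ).plus) :
    consC1 (consN N ω) = (xr (eN N α) (Equiv.refl κ)).comp ((consN (N + 1) ω).comp
      (PMap.ofHomeo (shN N K))) := by
  ext ⟨z, v, x⟩
  rw [consC1_val, consN_val, comp_bnd, comp_bnd]
  change _ = bnd (consN (N + 1) ω (Fin.cons z v, x)) _
  rw [consN_val]
  rcases ω x with _ | y
  · rfl
  · change OnePoint.some (X := LC.XX (Option (Fin N ⊕ α)) κ) _ =
      OnePoint.some (X := LC.XX (Option (Fin N ⊕ α)) κ) _
    congr 1
    refine Prod.ext ?_ rfl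
    funext o
    rcases o with _ | i | a <;> rfl

end cons

/-! ### Null-homotopies -/

theorem comp_zeroMap {K L : LC} {Y : PT} (g : PMap L Y) :
    g.comp (PMap.zero K L.plus) = PMap.zero K Y := by
  ext x
  rfl

theorem zeroMap_comp {K L : LC} {Y : PT} (g : PMap K L.plus) :
    (PMap.zero L Y).comp g = PMap.zero K Y := by
  ext x
  rw [PMap.comp_apply]
  rcases g x with _ | y <;> rfl

theorem ltens_zeroMap' (Z K L : LC) :
    PMap.ltens Z (PMap.zero K L.plus) = PMap.zero (Z.prod K) (Z.prod L).plus := by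
  ext ⟨z, x⟩
  rfl

section null

variable {D : Datum} {α κ : Type} [Fintype α] [Fintype κ] {K : LC}

/-- the representative of the product of a map with the tautological class -/
def thetaR (D : Datum) (ω : PMap K (LC.XX α κ).plus) (δ : Type) [Fintype δ] :
    D.Rep (κ ⊕ δ) K ((LC.cpow α).prod LC.point) :=
  (Datum.Rep.pre ω (Datum.Rep.ltens (LC.cpow α) (Datum.Rep.taut D κ))).stab δ

theorem thetaR_val (ω : PMap K (LC.XX α κ).plus) (δ : Type) [Fintype δ] (v : D.A (κ ⊕ δ)) (x : K) :
    thetaR D ω δ (v, x) = bnd (ω x) (fun y =>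
      bnd (D.shatG (κ ⊕ δ) (v, GK.sum (y.2, GK.base δ))) (fun b =>
        OnePoint.some (X := (D.B (κ ⊕ δ)).prod ((LC.cpow α).prod LC.point))
          (b, (y.1, PUnit.unit)))) := by
  unfold thetaR
  rw [Datum.stab_val, Datum.pre_val]
  rcases ω x with _ | ⟨y, P⟩
  · rfl
  · change bnd (Datum.Rep.ltens (LC.cpow α) (Datum.Rep.taut D κ) ((D.splitA κ δ v).1, (y, P))) _ = _
    rw [Datum.ltens_val, Datum.taut_val]
    change _ = bnd (D.shatG (κ ⊕ δ) (v, GK.sum (P, GK.base δ))) _
    rw [Datum.shatG_sum]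
    rcases D.shatG κ ((D.splitA κ δ v).1, P) with _ | b
    · rfl
    · change bnd (D.shatG δ ((D.splitA κ δ v).2, GK.base δ)) _ = _
      rcases D.shatG δ ((D.splitA κ δ v).2, GK.base δ) with _ | c <;> rfl

/-- the coordinates after the suspension -/
def mM (D : Datum) (α ι : Type) [Fintype α] [Fintype ι] :
    LC.C.prod ((D.B ι).prod ((LC.cpow α).prod LC.point)) ≃ₜ
      LC.XX (ι × Option D.u ⊕ Option α) (ι × Option D.a) where
  toFun x := (Sum.elim x.2.1.1 (fun o => Option.elim o x.1 x.2.2.1), x.2.1.2)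
  invFun y := (y.1 (.inr none), ((fun i => y.1 (.inl i), y.2),
    (fun a => y.1 (.inr (some a)), PUnit.unit)))
  left_inv _ := rfl
  right_inv y := by
    refine Prod.ext ?_ rfl
    funext x
    rcases x with x | _ | a <;> rfl
  continuous_toFun := by
    refine Continuous.prodMk (continuous_pi ?_)
      (continuous_snd.comp (continuous_fst.comp continuous_snd))
    rintro (i | _ | a)
    · exact (continuous_apply i).comp (continuous_fst.comp (continuous_fst.comp continuous_snd))
    · exact continuous_fst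
    · exact (continuous_apply a).comp (continuous_fst.comp (continuous_snd.comp continuous_snd))
  continuous_invFun := by
    refine Continuous.prodMk ((continuous_apply _).comp continuous_fst) (Continuous.prodMk
      (Continuous.prodMk (continuous_pi fun i => (continuous_apply _).comp continuous_fst)
        continuous_snd) (Continuous.prodMk (continuous_pi fun i =>
          (continuous_apply _).comp continuous_fst) continuous_const))

/-- the coordinates before the suspension -/
def pX {N : ℕ} {A α : Type} (p : Fin N ≃ A) : Option (Fin N ⊕ α) ≃ A ⊕ Option α where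
  toFun
    | none => .inr none
    | some (.inl i) => .inl (p i)
    | some (.inr a) => .inr (some a)
  invFun
    | .inl y => some (.inl (p.symm y))
    | .inr none => none
    | .inr (some a) => some (.inr a)
  left_inv x := by rcases x with _ | i | a <;> simp
  right_inv x := by rcases x with y | _ | a <;> simp

theorem xi_factor (δ : Type) [Fintype δ] (ω : PMap K (LC.XX α κ).plus) {N : ℕ}
    (p : Fin N ≃ (κ ⊕ δ) × Option D.w)
    (Ξ : PMap (LC.XX ((κ ⊕ δ) × Option D.w ⊕ Option α) κ)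
      (LC.XX ((κ ⊕ δ) × Option D.u ⊕ Option α) ((κ ⊕ δ) × Option D.a)).plus)
    (hΞ : ∀ (v : (κ ⊕ δ) × Option D.w ⊕ Option α → ℂ) (P : GK κ), Ξ (v, P) =
        bnd (D.shatG (κ ⊕ δ) (fun x => v (.inl x), GK.reindex (Equiv.refl _)
          (GK.sum (P, GK.base δ)))) (fun b =>
          OnePoint.some (X := LC.XX ((κ ⊕ δ) × Option D.u ⊕ Option α) ((κ ⊕ δ) × Option D.a))
            (Sum.elim b.1 (fun c => v (.inr c)), b.2))) :
    (Ξ.comp (xr (pX p) (Equiv.refl κ))).comp (consC1 (consN N ω)) =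
      (PMap.ofHomeo (mM D α (κ ⊕ δ))).comp ((PMap.ltens LC.C (thetaR D ω δ)).comp
        (PMap.ofHomeo (K := LC.C.prod ((LC.cpow (Fin N)).prod K))
          (L := LC.C.prod ((D.A (κ ⊕ δ)).prod K))
          ((Homeomorph.refl ℂ).prodCongr ((cperm p).prodCongr (Homeomorph.refl K))))) := by
  ext ⟨z, v, x⟩
  rw [comp_bnd, comp_bnd, consC1_val, consN_val]
  change _ = bnd (smashPt LC.C ((D.B (κ ⊕ δ)).prod ((LC.cpow α).prod LC.point))
    (((z : LC.C) : OnePoint LC.C), thetaR D ω δ (cperm p v, x))) _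
  rw [thetaR_val]
  rcases ω x with _ | ⟨y, P⟩
  · rfl
  · change Ξ (_, P) = bnd (smashPt LC.C _ (_, bnd (D.shatG (κ ⊕ δ) (cperm p v,
      GK.sum (P, GK.base δ))) _)) _
    rw [hΞ]
    change bnd (D.shatG (κ ⊕ δ) (cperm p v, GK.sum (P, GK.base δ))) _ = _
    rcases D.shatG (κ ⊕ δ) (cperm p v, GK.sum (P, GK.base δ)) with _ | b
    · rfl
    · change OnePoint.some (X := LC.XX ((κ ⊕ δ) × Option D.u ⊕ Option α) ((κ ⊕ δ) × Option D.a)) _
        = OnePoint.some (X := LC.XX ((κ ⊕ δ) × Option D.u ⊕ Option α) ((κ ⊕ δ) × Option D.a)) _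
      congr 1
      refine Prod.ext ?_ rfl
      funext c
      rcases c with c | _ | a <;> rfl

theorem xi_null (δ : Type) [Fintype δ] (ω : PMap K (LC.XX α κ).plus) {N : ℕ}
    (p : Fin N ≃ (κ ⊕ δ) × Option D.w)
    (Ξ : PMap (LC.XX ((κ ⊕ δ) × Option D.w ⊕ Option α) κ)
      (LC.XX ((κ ⊕ δ) × Option D.u ⊕ Option α) ((κ ⊕ δ) × Option D.a)).plus)
    (hΞ : ∀ (v : (κ ⊕ δ) × Option D.w ⊕ Option α → ℂ) (P : GK κ), Ξ (v, P) =
        bnd (D.shatG (κ ⊕ δ) (fun x => v (.inl x), GK.reindex (Equiv.refl _)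
          (GK.sum (P, GK.base δ)))) (fun b =>
          OnePoint.some (X := LC.XX ((κ ⊕ δ) × Option D.u ⊕ Option α) ((κ ⊕ δ) × Option D.a))
            (Sum.elim b.1 (fun c => v (.inr c)), b.2)))
    (h : PMap.Homotopic (thetaR D ω δ) (PMap.zero _ _)) :
    ((Ξ.comp (xr (pX p) (Equiv.refl κ))).comp (consC1 (consN N ω))).Homotopic
      (PMap.zero _ _) := by
  rw [xi_factor δ ω p Ξ hΞ]
  have h1 := PMap.Homotopic.comp_right (PMap.ofHomeo (mM D α (κ ⊕ δ)))
    ((PMap.Homotopic.box_right (PMap.id LC.C) h).comp_left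
      (PMap.ofHomeo (K := LC.C.prod ((LC.cpow (Fin N)).prod K))
          (L := LC.C.prod ((D.A (κ ⊕ δ)).prod K))
          ((Homeomorph.refl ℂ).prodCongr ((cperm p).prodCongr (Homeomorph.refl K)))))
  have h2 : (PMap.ofHomeo (mM D α (κ ⊕ δ))).comp ((PMap.ltens LC.C (PMap.zero
      ((D.A (κ ⊕ δ)).prod K) ((D.B (κ ⊕ δ)).prod ((LC.cpow α).prod LC.point)).plus)).comp
      (PMap.ofHomeo (K := LC.C.prod ((LC.cpow (Fin N)).prod K))
          (L := LC.C.prod ((D.A (κ ⊕ δ)).prod K))
          ((Homeomorph.refl ℂ).prodCongr ((cperm p).prodCongr (Homeomorph.refl K))))) =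
      PMap.zero _ _ := by
    rw [ltens_zeroMap', zeroMap_comp, comp_zeroMap]
  rw [← h2]
  exact h1

end null

theorem Biv.vanish_aux (T : Biv) {K V W S G Z : LC} (ψ : PMap K (V.prod S).plus) (s : S ≃ₜ G)
    (t : V ≃ₜ W) (g : T.Hom G LC.point) (b : T.Hom V Z) (c : T.Hom Z V)
    (hbc : T.comp b c = T.J (PMap.id _))
    (h : T.comp (T.J ψ) (T.comp (T.ltens V (T.comp (T.J (PMap.ofHomeo s)) g))
      (T.comp (T.J (PMap.ofHomeo (Homeomorph.prodPUnit V : V.prod LC.point ≃ₜ V))) b)) = 0) :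
    T.comp (T.J ((PMap.ofHomeo (K := V.prod S) (L := W.prod G) (t.prodCongr s)).comp ψ))
      (T.ltens W g) = 0 := by
  obtain ⟨P', hP'⟩ : ∃ P' : T.Hom V (V.prod LC.point), T.comp (T.J (PMap.ofHomeo
      (Homeomorph.prodPUnit V : V.prod LC.point ≃ₜ V))) P' = T.J (PMap.id _) :=
    ⟨T.J (PMap.ofHomeo (K := V) (L := V.prod LC.point) (Homeomorph.prodPUnit V).symm),
      (T.invP_homeo (K := V.prod LC.point) (L := V) (Homeomorph.prodPUnit V)).1⟩
  have h3 : T.comp (T.J ψ) (T.ltens V (T.comp (T.J (PMap.ofHomeo s)) g)) = 0 := by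
    have h1 := congrArg (fun z => T.comp z (T.comp c P')) h
    simp only [T.zero_comp] at h1
    rw [T.assoc, T.assoc, T.assoc, ← T.assoc b, hbc, T.id_comp, hP', T.comp_id] at h1
    exact h1
  have e1 : PMap.ofHomeo (K := V.prod S) (L := W.prod G) (t.prodCongr s) =
      (PMap.tens (PMap.ofHomeo t) G).comp (PMap.ltens V (PMap.ofHomeo s)) := by
    ext x
    rfl
  rw [T.ltens_J_comp] at h3
  rw [e1, T.J_comp, T.J_comp, T.assoc, T.assoc, ← T.tens_J, T.exch, ← T.assoc (T.J (PMap.ltens V _)),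
    ← T.assoc, h3, T.zero_comp]

/-! ### Classes of representatives -/

section T

variable {D : Datum} (T : LocTheory D)

theorem LocTheory.J_comp_cls {ι : Type} [Fintype ι] {K L Z : LC} (φ : PMap K L.plus)
    (f : D.Rep ι L Z) : T.comp (T.J φ) (T.cls f) = T.cls (Datum.Rep.pre φ f) := by
  rw [T.J_eq ι φ, T.comp_cls, Datum.ofMap_cmp, T.cls_re, T.cls_stab]

theorem LocTheory.cls_comp_J {ι : Type} [Fintype ι] {K L Z : LC} (f : D.Rep ι K L)
    (ψ : PMap L Z.plus) : T.comp (T.cls f) (T.J ψ) = T.cls (f.post ψ) := by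
  rw [T.J_eq ι ψ, T.comp_cls, Datum.cmp_ofMap, T.cls_stab]

theorem LocTheory.ltens_cls {ι : Type} [Fintype ι] {K L : LC} (W : LC) (f : D.Rep ι K L) :
    T.ltens W (T.cls f) = T.cls (Datum.Rep.ltens W f) := by
  unfold BivData.ltens
  rw [T.tens_cls, T.cls_comp_J, T.J_comp_cls]
  rfl

theorem LocTheory.exists_null {α κ : Type} [Fintype α] [Fintype κ] {K : LC}
    (ω : PMap K (LC.XX α κ).plus) (h : T.comp (T.J ω) (T.ltens (LC.cpow α) (T.g κ)) = 0) :
    ∃ n : ℕ, PMap.Homotopic (thetaR D ω (Fin n)) (PMap.zero _ _) := by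
  rw [T.g_eq, T.ltens_cls, T.J_comp_cls, ← T.cls_zero κ] at h
  obtain ⟨n, hn⟩ := T.cls_eq h
  refine ⟨n, hn.trans ?_⟩
  have h1 : Datum.Rep.stab (PMap.zero _ _ : D.Rep κ K ((LC.cpow α).prod LC.point)) (Fin n) =
      PMap.zero _ _ := by
    ext ⟨v, x⟩
    rw [Datum.stab_val]
    rfl
  rw [h1]
  exact PMap.Homotopic.refl _

end T

theorem Datum.Chain.four {D : Datum} {n : ℕ} {α κ β l γ μ : Type} [Fintype α] [Fintype κ]
    [Fintype β] [Fintype l] [Fintype γ] [Fintype μ] (p : β ≃ D.w ⊕ PUnit.{1})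
    (p' : D.u ⊕ PUnit.{1} ≃ γ) (q' : (D.a ⊕ l) ⊕ Fin 1 ≃ μ)
    {F : PMap (LC.XX α κ) (LC.XX β l).plus} (h : D.Chain n F) :
    D.Chain (n + 1) (((xr p' q').comp ((addB (D.u ⊕ PUnit.{1}) (D.a ⊕ l) (Fin 1)).comp
      ((D.SX PUnit.{1} l).comp (xr p (Equiv.refl _))))).comp F) := by
  rw [PMap.comp_assoc, PMap.comp_assoc, PMap.comp_assoc]
  refine Datum.Chain.post_xr ?_ _ _
  refine Datum.Chain.post_addB _ ?_
  refine Datum.Chain.post_S ?_
  exact Datum.Chain.post_xr h _ _

section levels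

variable {e k : ℕ} (he : 0 < e) (f : GenLoop (Fin (2 * e)) (Gr Set.univ k) (Gr.pt Set.univ k))
  (hD : GoodD Set.univ) (st : ∀ l, stageLC hD l ≃ₜ LC.G (Fin l))

/-- the iterated structure map in complex coordinates -/
def GX (m : ℕ) : ∀ N : ℕ, PMap
    (LC.XX (Fin N ⊕ Fin (lev (2 * e) (2 * m) / 2)) (Fin (blk (2 * e) (2 * m) * (k + 1))))
    (LC.XX (Fin (lev (2 * e) (2 * (m + N)) / 2))
      (Fin (blk (2 * e) (2 * (m + N)) * (k + 1)))).plus
  | 0 => xr (Equiv.emptySum (Fin 0) _) (Equiv.refl _)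
  | N + 1 => (stepC he f hD st (m + N)).comp ((extC (GX m N)).comp (xr (eN N _) (Equiv.refl _)))

variable (hst : ∀ l (A : Frame l), st l (⟨toBG univ l (Quot.mk _ A), ⟨_, rfl⟩⟩ :
  stage Set.univ l) = A.proj)

include hst in
theorem GX_chain (m N : ℕ) : ∃ q : ℕ, (loopDatum (loopGK f)).Chain q (extC (GX he f hD st m N)) ∧
    blk (2 * e) (2 * (m + N)) = blk (2 * e) (2 * m) + q := by
  induction N with
  | zero =>
    refine ⟨0, ?_, rfl⟩
    have h1 := (Datum.Chain.id (loopDatum (loopGK f))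
      (Option (Fin 0 ⊕ Fin (lev (2 * e) (2 * m) / 2))) (Fin (blk (2 * e) (2 * m) * (k + 1)))).post_xr
      (Equiv.optionCongr (Equiv.emptySum (Fin 0) _)) (Equiv.refl _)
    rw [PMap.comp_id] at h1
    have h2 : extC (GX he f hD st m 0) = xr (Equiv.optionCongr (Equiv.emptySum (Fin 0) _))
      (Equiv.refl _) := extC_xr _ _
    rw [h2]
    exact h1
  | succ N ih =>
    obtain ⟨q, hq, hb⟩ := ih
    have h1 : extC (GX he f hD st m (N + 1)) = (extC (stepC he f hD st (m + N))).comp
        ((extC (extC (GX he f hD st m N))).comp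
          (xr (Equiv.optionCongr (eN N _)) (Equiv.refl _))) := by
      rw [← extC_xr, ← extC_comp, ← extC_comp]
      rfl
    rw [h1]
    by_cases h : lev (2 * e) (2 * (m + N)) = 2 * e
    · obtain ⟨p, p', q', hp⟩ := stepC_boundary he f hD st hst (m + N) h
      refine ⟨q + 1, ?_, ?_⟩
      · refine Datum.Chain.congr ?_ (hp.symm.comp_left _)
        exact Datum.Chain.four (D := loopDatum (loopGK f)) p p' q'
          (Datum.Chain.pre_xr _ _ hq.extC)
      · have h3 := (lev_boundary he (m + N) h).2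
        change blk (2 * e) (2 * (m + N + 1)) = _
        omega
    · obtain ⟨p, q', hp⟩ := stepC_inside he f hD st (m + N) h
      refine ⟨q, ?_, ?_⟩
      · rw [hp, extC_xr]
        exact Datum.Chain.post_xr (Datum.Chain.pre_xr _ _ hq.extC) _ _
      · have h3 := (lev_inside he (m + N) h).2.2
        change blk (2 * e) (2 * (m + N + 1)) = _
        omega

/-- the suspension of a map to a level, in complex coordinates -/
theorem step_conj (m : ℕ) {L : LC} (F : PMap L (modelK hD k (2 * e) m).plus) :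
    (PMap.ofHomeo (kapX he hD st (m + 1))).comp
        (((levelsModel hD (h2e he) f).step m).comp (PMap.ltens LC.C F)) =
        (stepC he f hD st m).comp (consC1 ((PMap.ofHomeo (kapX he hD st m)).comp F)) := by
  ext ⟨z, x⟩
  rw [comp_bnd, comp_bnd, comp_bnd, consC1_val, comp_bnd]
  change bnd (bnd (smashPt LC.C (modelK hD k (2 * e) m) (((z : LC.C) : OnePoint LC.C), F x))
    _) _ = _
  rcases F x with _ | y
  · rfl
  · change bnd ((levelsModel hD (h2e he) f).step m (z, y)) _ = stepC he f hD st m (_, st _ y.2)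
    rw [stepC_val]
    have h1 : ofCf (lev_two he m).1 (fun i => toCf y.1 i) = y.1 := ofCf_toCf _ _
    have h2 : (st (blk (2 * e) (2 * m) * (k + 1))).symm (st _ y.2) = y.2 :=
      Homeomorph.symm_apply_apply _ _
    change _ = bnd ((levelsModel hD (h2e he) f).step m (z,
      ((ofCf (lev_two he m).1 (fun i => toCf y.1 i), (st _).symm (st _ y.2)) :
        modelK hD k (2 * e) m))) _
    rw [h1, h2]
    rfl

/-- the iterated suspension in complex coordinates -/
theorem itNext_GX (m : ℕ) {K : LC} (ψ : PMap K (modelK hD k (2 * e) m).plus) (N : ℕ) :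
    (PMap.ofHomeo (kapX he hD st (m + N))).comp (itNext (levelsModel hD (h2e he) f) m ψ N) =
      (GX he f hD st m N).comp ((consN N ((PMap.ofHomeo (kapX he hD st m)).comp ψ)).comp
        (PMap.ofHomeo (hN K N))) := by
  induction N with
  | zero =>
    ext x
    rw [comp_bnd, comp_bnd, comp_bnd]
    change bnd (ψ x) _ = bnd (consN 0 ((PMap.ofHomeo (kapX he hD st m)).comp ψ) (0, x)) _
    rw [consN_val, comp_bnd]
    rcases ψ x with _ | y
    · rfl
    · rfl
  | succ N ih =>
    have h1 : (PMap.ofHomeo (kapX he hD st (m + (N + 1)))).comp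
        (itNext (levelsModel hD (h2e he) f) m ψ (N + 1)) =
        (stepC he f hD st (m + N)).comp (consC1 ((PMap.ofHomeo (kapX he hD st (m + N))).comp
          (itNext (levelsModel hD (h2e he) f) m ψ N))) :=
      step_conj he f hD st (m + N) (itNext (levelsModel hD (h2e he) f) m ψ N)
    have h2 : PMap.ofHomeo (hN K (N + 1)) = (PMap.ofHomeo (shN N K)).comp (PMap.ofHomeo
        ((Homeomorph.refl ℂ).prodCongr (hN K N) : LC.C.prod (itC K N) ≃ₜ
          LC.C.prod ((LC.cpow (Fin N)).prod K))) := by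
      ext x
      rfl
    have h3 : GX he f hD st m (N + 1) = (stepC he f hD st (m + N)).comp
      ((extC (GX he f hD st m N)).comp (xr (eN N _) (Equiv.refl _))) := rfl
    rw [h1, ih, consC1_comp, consC1_homeo, consC1_consN, h2, h3]
    simp only [PMap.comp_assoc]
    rfl

include hst in
/-- a map to a level whose class in the localised theory vanishes is null-homotopic after
suspensions -/
theorem itNext_null (T : LocTheory (loopDatum (loopGK f))) (m : ℕ) {K : LC}
    (ψ : PMap K (modelK hD k (2 * e) m).plus)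
    (h : T.comp (T.J ((PMap.ofHomeo (kapX he hD st m)).comp ψ)) (T.ltens
      (LC.cpow (Fin (lev (2 * e) (2 * m) / 2))) (T.g (Fin (blk (2 * e) (2 * m) * (k + 1))))) = 0) :
    ∃ N : ℕ, (itNext (levelsModel hD (h2e he) f) m ψ N).Homotopic (PMap.zero _ _) := by
  have hw : Fintype.card (loopDatum (loopGK f)).w = e + 1 := Fintype.card_fin _
  have hu : Fintype.card (loopDatum (loopGK f)).u = 1 := Fintype.card_fin _
  have ha : Fintype.card (loopDatum (loopGK f)).a = k := Fintype.card_fin _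
  obtain ⟨n, hn⟩ := T.exists_null _ h
  obtain ⟨Ξ, hΞ, hΞ'⟩ := (loopDatum (loopGK f)).exists_xi
    (Fin (blk (2 * e) (2 * m) * (k + 1)) ⊕ Fin n) (Option (Fin (lev (2 * e) (2 * m) / 2)))
    (Fin (blk (2 * e) (2 * m) * (k + 1))) (Fin n) (Equiv.refl _)
  obtain ⟨c, hc⟩ : ∃ c, c = Fintype.card (Fin (blk (2 * e) (2 * m) * (k + 1)) ⊕ Fin n) := ⟨_, rfl⟩
  rw [← hc] at hΞ'
  obtain ⟨N, hN'⟩ : ∃ N, N = c * (e + 2) := ⟨_, rfl⟩
  have hcard : Fintype.card ((Fin (blk (2 * e) (2 * m) * (k + 1)) ⊕ Fin n) ×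
      Option (loopDatum (loopGK f)).w) = N := by
    rw [Fintype.card_prod, Fintype.card_option, hw, ← hc, hN']
  obtain ⟨q, hq, hb⟩ := GX_chain he f hD st hst m N
  have c1 := hq.card.1
  rw [Fintype.card_option, Fintype.card_option, Fintype.card_sum, hw, hu, Fintype.card_fin,
    Fintype.card_fin, Fintype.card_fin] at c1
  have hle := (lev_two he (m + N)).2
  have hcq : c ≤ q := by
    by_contra hcon
    rw [not_le] at hcon
    have h2 : lev (2 * e) (2 * (m + N)) / 2 ≤ e := by omega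
    have h3 : q * (e + 1) + e ≤ c * e + q := by
      have h4 : (q + 1) * e ≤ c * e := Nat.mul_le_mul_right e hcon
      nlinarith
    have h5 : c * (e + 2) = c * e + 2 * c := by ring
    omega
  obtain ⟨R, hR⟩ := hq.factor hΞ' (pX ((Fintype.equivFinOfCardEq hcard).symm)) hcq (by
    rw [Fintype.card_prod, Fintype.card_option, ha, Fintype.card_fin, hb, ← hc]
    obtain ⟨r, rfl⟩ := Nat.exists_eq_add_of_le hcq
    rw [Nat.add_sub_cancel_left]
    nlinarith)
  refine ⟨N + 1, ?_⟩
  have h1 : (consC1 ((PMap.ofHomeo (kapX he hD st (m + N))).comp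
      (itNext (levelsModel hD (h2e he) f) m ψ N))).Homotopic (PMap.zero _ _) := by
    rw [itNext_GX, consC1_comp, consC1_homeo, ← PMap.comp_assoc]
    refine (((hR.comp_left _).comp_left _)).trans ?_
    rw [PMap.comp_assoc R]
    refine ((PMap.Homotopic.comp_right R (xi_null (Fin n) _ _ Ξ hΞ hn)).comp_left _).trans ?_
    rw [comp_zeroMap, zeroMap_comp]
    exact PMap.Homotopic.refl _
  have h2 := PMap.Homotopic.comp_right (PMap.ofHomeo (kapX he hD st (m + N + 1)).symm)
    (PMap.Homotopic.comp_right (stepC he f hD st (m + N)) h1)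
  rw [← step_conj, comp_zeroMap, comp_zeroMap, ← PMap.comp_assoc] at h2
  have h3 : (PMap.ofHomeo (kapX he hD st (m + N + 1)).symm).comp
      (PMap.ofHomeo (kapX he hD st (m + N + 1))) = PMap.id (modelK hD k (2 * e) (m + N + 1)) := by
    ext x
    exact congrArg (fun y : modelK hD k (2 * e) (m + N + 1) => (y : OnePoint
      (modelK hD k (2 * e) (m + N + 1)))) ((kapX he hD st (m + N + 1)).symm_apply_apply x)
  rw [h3, PMap.id_comp] at h2
  exact h2

end levels

end Pool.Agent.Helper1.Stab
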