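import Pool.Agent.Helper19.Stab.BP3
import Pool.Agent.Helper1.Stab.BSU

/-! Bott products exist in `BSU`. -/

open Topology Filter Set Matrix

noncomputable section

namespace Pool.Agent.Helper19.Stab

open Pool.Agent.Helper1.Stab

/-- the first two coordinates -/
def bpFst (u : Fin 4 → unitInterval) : Fin 2 → unitInterval := ![u 0, u 1]

/-- the last two coordinates -/
def bpSnd (u : Fin 4 → unitInterval) : Fin 2 → unitInterval := ![u 2, u 3]

theorem continuous_bpFst : Continuous bpFst := by
  refine continuous_pi fun i => ?_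
  fin_cases i
  · exact continuous_apply 0
  · exact continuous_apply 1

theorem continuous_bpSnd : Continuous bpSnd := by
  refine continuous_pi fun i => ?_
  fin_cases i
  · exact continuous_apply 2
  · exact continuous_apply 3

/-- The Bott product. -/
def bpLoop : GenLoop (Fin 4) (Gr {1} 5) (Gr.pt {1} 5) :=
  ⟨⟨fun u => Quot.mk _ (bpF (bpD (disc (bpFst u))) (bpD (disc (bpSnd u)))),
    continuous_quot_mk.comp (continuous_bpF (bpD_cont (continuous_disc.comp continuous_bpFst))
      (bpD_cont (continuous_disc.comp continuous_bpSnd)))⟩, fun u hu => by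
    have key : bpFst u ∈ Cube.boundary (Fin 2) ∨ bpSnd u ∈ Cube.boundary (Fin 2) := by
      obtain ⟨i, hi⟩ := hu
      fin_cases i
      · exact Or.inl ⟨0, hi⟩
      · exact Or.inl ⟨1, hi⟩
      · exact Or.inr ⟨0, hi⟩
      · exact Or.inr ⟨1, hi⟩
    refine (Quot.sound (bpF_bd _ _ ?_)).symm
    rcases key with h | h
    · exact Or.inl (bpD_bd (disc_bd _ h))
    · exact Or.inr (bpD_bd (disc_bd _ h))⟩

theorem bp_base_eq (D D' : BDat) (h : D.bd ∨ D'.bd) : GK.base (Fin 5) = Frame.proj (bpF D D') := by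
  rw [← Gr.toGK_pt, ← Frame.proj_rel ((bpF_bd D D' h).mono (Set.subset_univ _))]
  rfl

/-- the value of the Bott product over `ℂP¹ × ℂP¹` -/
theorem bp_val (x : OnePoint ℂ × OnePoint ℂ) : loopBar (e := 2) (loopGK (loopToU bpLoop))
    (OnePoint.elim (smashPt LC.C LC.C x) OnePoint.infty
      (fun z : ℂ × ℂ => (((Fin.cons z.1 (fun _ => z.2) : Fin 2 → ℂ)) :
        OnePoint (Fin 2 → ℂ)))) = Frame.proj (bpF (bpO x.1) (bpO x.2)) := by
  obtain ⟨x, y⟩ := x
  rcases x with _ | z
  · exact bp_base_eq _ _ (Or.inl BDat.pt_bd)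
  · rcases y with _ | z'
    · exact bp_base_eq _ _ (Or.inr BDat.pt_bd)
    · show Frame.proj (bpF (bpD (disc (bpFst fun i => squash (realify 2
        (Fin.cons z (fun _ => z') : Fin 2 → ℂ) i)))) (bpD (disc (bpSnd fun i => squash (realify 2
        (Fin.cons z (fun _ => z') : Fin 2 → ℂ) i))))) = _
      rfl

/-- block sum with a unit matrix and zero -/
def bpX {S T : Type} (M : Matrix S T ℂ) :
    Matrix ((S ⊕ (Fin 2 ⊕ Fin 3)) ⊕ Fin 3) ((T ⊕ (Fin 2 ⊕ Fin 3)) ⊕ Fin 3) ℂ :=
  fromBlocks (fromBlocks M 0 0 1) 0 0 0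

theorem bpX_mul {S T R : Type} [Fintype T] (M : Matrix S T ℂ) (N : Matrix T R ℂ) :
    bpX M * bpX N = bpX (M * N) := by
  unfold bpX
  rw [fromBlocks_multiply, fromBlocks_multiply]
  simp

theorem bpX_star {S T : Type} (M : Matrix S T ℂ) : (bpX M)ᴴ = bpX Mᴴ := by
  unfold bpX
  rw [fromBlocks_conjTranspose, fromBlocks_conjTranspose]
  simp

/-- the inclusion of the coordinates of the frame -/
def bpQ : BL ⊕ Fin 2 → (BL ⊕ (Fin 2 ⊕ Fin 3)) ⊕ Fin 3 :=
  Sum.elim (fun s => .inl (.inl s)) (fun a => .inl (.inr (.inl a)))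

/-- the coordinates of the frame -/
def bpEf : (Fin 5 ⊕ Fin 3) × Bool ≃ (BL ⊕ (Fin 2 ⊕ Fin 3)) ⊕ Fin 3 where
  toFun x := match x with
    | (.inl i, b) => bpQ (bpRow (i, b))
    | (.inr j, true) => .inl (.inr (.inr j))
    | (.inr j, false) => .inr j
  invFun x := match x with
    | .inl (.inl s) => (.inl (bpRow.symm (.inl s)).1, (bpRow.symm (.inl s)).2)
    | .inl (.inr (.inl a)) => (.inl (bpRow.symm (.inr a)).1, (bpRow.symm (.inr a)).2)
    | .inl (.inr (.inr j)) => (.inr j, true)
    | .inr j => (.inr j, false)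
  left_inv := by decide
  right_inv := by decide

/-- the coordinates of the bundle -/
def bpEg : BL × Bool ≃ (BL ⊕ (Fin 2 ⊕ Fin 3)) ⊕ Fin 3 where
  toFun x := match x with
    | (s, true) => .inl (.inl s)
    | (.inl (.inl (true, true)), false) => .inr 0
    | (.inl (.inl (true, false)), false) => .inl (.inr (.inl 0))
    | (.inl (.inl (false, true)), false) => .inl (.inr (.inl 1))
    | (.inl (.inl (false, false)), false) => .inl (.inr (.inr 0))
    | (.inl (.inr true), false) => .inr 1
    | (.inl (.inr false), false) => .inl (.inr (.inr 1))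
    | (.inr true, false) => .inr 2
    | (.inr false, false) => .inl (.inr (.inr 2))
  invFun x := match x with
    | .inl (.inl s) => (s, true)
    | .inl (.inr (.inl 0)) => (.inl (.inl (true, false)), false)
    | .inl (.inr (.inl 1)) => (.inl (.inl (false, true)), false)
    | .inl (.inr (.inr 0)) => (.inl (.inl (false, false)), false)
    | .inl (.inr (.inr 1)) => (.inl (.inr false), false)
    | .inl (.inr (.inr 2)) => (.inr false, false)
    | .inr 0 => (.inl (.inl (true, true)), false)
    | .inr 1 => (.inl (.inr true), false)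
    | .inr 2 => (.inr true, false)
  left_inv := by decide
  right_inv := by decide

theorem bp_left (F : Matrix BL BL ℂ) (P : GK (Fin 5))
    (h : P.1 = (Matrix.fromBlocks F 0 0 1).submatrix bpRow bpRow) :
    (GK.sum (P, GK.base (Fin 3))).1 = (bpX F).submatrix bpEf bpEf := by
  ext ⟨i | i, b⟩ ⟨j | j, c⟩
  · show P.1 (i, b) (j, c) = bpX F (bpQ (bpRow (i, b))) (bpQ (bpRow (j, c)))
    rw [h, submatrix_apply]
    generalize bpRow (i, b) = r
    generalize bpRow (j, c) = r'
    rcases r with r | r <;> rcases r' with r' | r'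
    · rfl
    · rfl
    · rfl
    · simp [bpX, bpQ, Matrix.one_apply]
  · show (0 : ℂ) = bpX F (bpQ (bpRow (i, b))) (bpEf (Sum.inr j, c))
    generalize bpRow (i, b) = r
    cases c <;> rcases r with r | r <;> simp [bpX, bpQ, bpEf]
  · show (0 : ℂ) = bpX F (bpEf (Sum.inr i, b)) (bpQ (bpRow (j, c)))
    generalize bpRow (j, c) = r
    cases b <;> rcases r with r | r <;> simp [bpX, bpQ, bpEf]
  · show (GK.base (Fin 3)).1 (i, b) (j, c) = _
    rw [bp_base]
    cases b <;> cases c <;> simp [bpX, bpQ, bpEf, Matrix.one_apply]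

theorem bp_right (F : Matrix BL BL ℂ) (P : Pr BL (1 + 1 + 1)) (h : P.1 = F) :
    (Pr.toG prodCompl prodCompl_card P).1 = (bpX F).submatrix bpEg bpEg := by
  subst h
  have h1 : ∀ x y b c, (Pr.toG prodCompl prodCompl_card P).1 (x, b) (y, c) =
      if b = true ∧ c = true then P.1 x y
      else if b = false ∧ c = false ∧ x = y ∧ x ∈ prodCompl then 1 else 0 := by
    intro x y b c
    cases b <;> cases c
    · have h0 : ¬ (((x, false) : BL × Bool).2 = true ∧ ((y, false) : BL × Bool).2 = true) := by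
        simp
      by_cases hx : x = y ∧ x ∈ prodCompl
      · have e1 : (Pr.toG prodCompl prodCompl_card P).1 (x, false) (y, false) = 1 :=
          (if_neg (t := P.1 x y) h0).trans (if_pos ⟨rfl, rfl, hx⟩)
        rw [e1, if_neg (by simp), if_pos ⟨rfl, rfl, hx⟩]
      · have e1 : (Pr.toG prodCompl prodCompl_card P).1 (x, false) (y, false) = 0 :=
          (if_neg (t := P.1 x y) h0).trans (if_neg (fun h => hx h.2.2))
        rw [e1, if_neg (by simp), if_neg (fun h => hx h.2.2)]
    · rfl
    · rfl
    · rfl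
  ext ⟨x, b⟩ ⟨y, c⟩
  rw [h1]
  cases b <;> cases c
  · revert x y
    have h2 : ∀ x y : BL, (if x = y ∧ x ∈ prodCompl then (1 : ℂ) else 0) =
        (bpX P.1).submatrix bpEg bpEg (x, false) (y, false) := by
      intro x y
      rcases x with ((⟨i, j⟩ | i) | i) <;> rcases y with ((⟨k, l⟩ | k) | k)
      · cases i <;> cases j <;> cases k <;> cases l <;> simp [bpX, bpEg, prodCompl]
      · cases i <;> cases j <;> cases k <;> simp [bpX, bpEg, prodCompl]
      · cases i <;> cases j <;> cases k <;> simp [bpX, bpEg, prodCompl]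
      · cases i <;> cases k <;> cases l <;> simp [bpX, bpEg, prodCompl]
      · cases i <;> cases k <;> simp [bpX, bpEg, prodCompl]
      · cases i <;> cases k <;> simp [bpX, bpEg, prodCompl]
      · cases i <;> cases k <;> cases l <;> simp [bpX, bpEg, prodCompl]
      · cases i <;> cases k <;> simp [bpX, bpEg, prodCompl]
      · cases i <;> cases k <;> simp [bpX, bpEg, prodCompl]
    intro x y
    rw [← h2]
    simp
  · rcases x with ((⟨i, j⟩ | i) | i)
    · cases i <;> cases j <;> simp [bpX, bpEg]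
    · cases i <;> simp [bpX, bpEg]
    · cases i <;> simp [bpX, bpEg]
  · rcases y with ((⟨i, j⟩ | i) | i)
    · cases i <;> cases j <;> simp [bpX, bpEg]
    · cases i <;> simp [bpX, bpEg]
    · cases i <;> simp [bpX, bpEg]
  · rfl

theorem prodBundle_eq (x : Pr Bool 1 × Pr Bool 1) :
    (prodBundle x).1 = bpB x.1.1 x.2.1 (1 - x.1.1) (1 - x.2.1) := by
  have h1 : ∀ P : Pr Bool 1, (Pr.perp (m := 1) (by simp) P : Pr Bool 1).1 = 1 - P.1 := by
    intro P
    ext i j
    by_cases h : i = j
    · subst h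
      rw [Matrix.sub_apply, Matrix.one_apply_eq]
      exact congrArg (fun z => z - P.1 i i) (if_pos rfl)
    · rw [Matrix.sub_apply, Matrix.one_apply_ne h]
      exact congrArg (fun z => z - P.1 i j) (if_neg h)
  show fromBlocks (fromBlocks (Pr.tensor x).1 0 0 (Pr.perp (m := 1) (by simp) x.1 : Pr Bool 1).1)
    0 0 (Pr.perp (m := 1) (by simp) x.2 : Pr Bool 1).1 = _
  rw [h1, h1]
  rfl

/-- Bott products exist in `BSU` -/
theorem isBottProduct_bpLoop : IsBottProduct (loopGK (loopToU bpLoop)) := by
  refine bp_stably 3 (by decide) _ _ (fun x => (bpX (bpW (bpO (collP1 x.1)) (bpO (collP1 x.2))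
    (bpU x.1) (bpU x.2) x.1.1 x.2.1)ᴴ).submatrix bpEg bpEf) ?_ ?_ ?_
  · refine Continuous.matrix_submatrix ?_ _ _
    refine Continuous.matrix_fromBlocks (Continuous.matrix_fromBlocks ?_ continuous_const
      continuous_const continuous_const) continuous_const continuous_const continuous_const
    refine Continuous.matrix_conjTranspose ?_
    have h1 : Continuous fun x : Pr Bool 1 × Pr Bool 1 => x.1.1 :=
      Pr.continuous_val69.comp continuous_fst
    have h2 : Continuous fun x : Pr Bool 1 × Pr Bool 1 => x.2.1 :=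
      Pr.continuous_val69.comp continuous_snd
    refine Continuous.matrix_mul ?_ (Continuous.matrix_mul ?_ ?_)
    · exact continuous_bpY (bpO_C_cont.comp (collP1.cont.comp continuous_fst))
        (bpO_S_cont.comp (collP1.cont.comp continuous_fst))
        (bpO_C_cont.comp (collP1.cont.comp continuous_snd))
        (bpO_S_cont.comp (collP1.cont.comp continuous_snd))
    · exact continuous_bpB (continuous_bpU.comp continuous_fst)
        (continuous_bpU.comp continuous_snd) (continuous_bpU.comp continuous_fst)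
        (continuous_bpU.comp continuous_snd)
    · exact continuous_bpB h1 h2 (continuous_const.sub h1) (continuous_const.sub h2)
  · intro x
    obtain ⟨h1, h2⟩ := bpW_spec (bpO (collP1 x.1)) (bpO (collP1 x.2)) (bpU_star x.1)
      (bpU_star x.2) (bpU_mul x.1) (bpU_mul x.2)
    rw [conjTranspose_submatrix, submatrix_mul_equiv, bpX_star, bpX_mul,
      Matrix.conjTranspose_conjTranspose, h2]
    refine (bp_left _ _ ?_).symm
    show (loopBar (e := 2) (loopGK (loopToU bpLoop)) (OnePoint.elim (smashPt LC.C LC.C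
      (collP1 x.1, collP1 x.2)) OnePoint.infty (fun z : ℂ × ℂ =>
      (((Fin.cons z.1 (fun _ => z.2) : Fin 2 → ℂ)) : OnePoint (Fin 2 → ℂ))))).1 = _
    rw [bp_val, Frame.proj_val]
    show Pool.Agent.Helper4.Stab.mat (bpFr _ _) * (Pool.Agent.Helper4.Stab.mat (bpFr _ _))ᴴ = _
    rw [mat_bpFr, bpM_proj]
  · intro x
    obtain ⟨h1, h2⟩ := bpW_spec (bpO (collP1 x.1)) (bpO (collP1 x.2)) (bpU_star x.1)
      (bpU_star x.2) (bpU_mul x.1) (bpU_mul x.2)
    rw [conjTranspose_submatrix, submatrix_mul_equiv, bpX_star, bpX_mul,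
      Matrix.conjTranspose_conjTranspose, h1]
    exact (bp_right _ _ (prodBundle_eq x)).symm

end Pool.Agent.Helper19.Stab
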