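import Pool.Agent.Helper1.Stab.Defs

/-! A levelwise embedding of prespectra, such that every compact set is moved into the image by
the structure maps, is a stable equivalence. -/

open CategoryTheory Topology unitInterval Set

noncomputable section

namespace Pool.Agent.Helper19.Stab

open Pool.Agent.Helper1.Stab

/-- after `j` structure maps the set `C` is in the image -/
def Absorb {X Y : Prespectrum} (φ : Prespectrum.Hom X Y) : ∀ (_ n : ℕ), Set (Y.sp n) → Prop
  | 0, n, C => C ⊆ range (φ.map n)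
  | j + 1, n, C => Absorb φ j (n + 1) (Y.str n '' (univ ×ˢ C))

theorem Absorb.mono {X Y : Prespectrum} {φ : Prespectrum.Hom X Y} {j : ℕ} :
    ∀ {n : ℕ} {C C' : Set (Y.sp n)}, C' ⊆ C → Absorb φ j n C → Absorb φ j n C' := by
  induction j with
  | zero => intro n C C' h h1; exact h.trans h1
  | succ j ih =>
    intro n C C' h h1
    exact ih (image_mono (prod_mono_right h)) h1

/-- lifting along an embedding -/
theorem exists_lift {X Y Z : Type} [TopologicalSpace X] [TopologicalSpace Y] [TopologicalSpace Z]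
    {φ : X → Y} (hφ : IsEmbedding φ) (g : C(Z, Y)) (h : ∀ z, g z ∈ range φ) :
    ∃ g' : C(Z, X), ∀ z, φ (g' z) = g z := by
  choose g' hg' using h
  refine ⟨⟨g', hφ.continuous_iff.2 ?_⟩, hg'⟩
  exact g.continuous.congr fun z => (hg' z).symm

/-- homotopy inside a set -/
def HomIn {m : ℕ} {Y : Type} [TopologicalSpace Y] {y : Y} (C : Set Y)
    (f g : GenLoop (Fin m) Y y) : Prop :=
  ∃ H : C(I × (Fin m → I), Y), (∀ s, H (0, s) = f s) ∧ (∀ s, H (1, s) = g s) ∧
    (∀ t, ∀ s ∈ Cube.boundary (Fin m), H (t, s) = y) ∧ ∀ p, H p ∈ C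

theorem HomIn.of_homotopic {m : ℕ} {Y : Type} [TopologicalSpace Y] {y : Y}
    {f g : GenLoop (Fin m) Y y} (h : GenLoop.Homotopic f g) :
    ∃ C : Set Y, IsCompact C ∧ HomIn C f g := by
  obtain ⟨H⟩ := h
  refine ⟨range H, isCompact_range H.continuous, ⟨⟨H, H.continuous⟩, fun s => H.apply_zero s,
    fun s => H.apply_one s, fun t s hs => ?_, fun p => ⟨p, rfl⟩⟩⟩
  exact (H.eq_fst t hs).trans (f.2 s hs)

theorem HomIn.homotopic {m : ℕ} {Y : Type} [TopologicalSpace Y] {y : Y} {C : Set Y}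
    {f g : GenLoop (Fin m) Y y} (h : HomIn C f g) : GenLoop.Homotopic f g := by
  obtain ⟨H, h0, h1, hb, _⟩ := h
  refine ⟨⟨⟨H, h0, h1⟩, ?_⟩⟩
  intro t s hs
  exact (hb t s hs).trans (f.2 s hs).symm

theorem HomIn.stab {Y : Prespectrum} {m n : ℕ} {C : Set (Y.sp n)}
    {f g : GenLoop (Fin m) (Y.sp n) (Y.sp n).pt} (h : HomIn C f g) :
    HomIn (Y.str n '' (univ ×ˢ C)) (Y.stab f) (Y.stab g) := by
  obtain ⟨H, h0, h1, hb, hC⟩ := h
  refine ⟨⟨fun p => Y.str n (p.2 0, H (p.1, fun i => p.2 i.succ)), ?_⟩, ?_, ?_, ?_, ?_⟩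
  · refine (Y.str n).continuous.comp (((continuous_apply 0).comp continuous_snd).prodMk ?_)
    refine H.continuous.comp (continuous_fst.prodMk (continuous_pi fun i => ?_))
    exact (continuous_apply _).comp continuous_snd
  · intro s
    show Y.str n (s 0, H (0, fun i => s i.succ)) = _
    rw [h0]
    rfl
  · intro s
    show Y.str n (s 0, H (1, fun i => s i.succ)) = _
    rw [h1]
    rfl
  · rintro t s ⟨i, hi⟩
    show Y.str n (s 0, H (t, fun i => s i.succ)) = _
    refine Y.str_bd hi fun j hj => ?_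
    subst hj
    exact hb t _ ⟨j, hi⟩
  · intro p
    exact ⟨(p.2 0, H (p.1, fun i => p.2 i.succ)), ⟨mem_univ _, hC _⟩, rfl⟩

theorem HomIn.lift {m : ℕ} {X Y : Type} [TopologicalSpace X] [TopologicalSpace Y] {x : X} {y : Y}
    {φ : C(X, Y)} (hφ : IsEmbedding φ) (hx : φ x = y) {C : Set Y} (hC : C ⊆ range φ)
    {f g : GenLoop (Fin m) X x} (h : HomIn C (postL φ hx f) (postL φ hx g)) :
    GenLoop.Homotopic f g := by
  obtain ⟨H, h0, h1, hb, hHC⟩ := h
  obtain ⟨H', hH'⟩ := exists_lift hφ H fun z => hC (hHC z)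
  refine HomIn.homotopic (C := univ) ⟨H', fun s => hφ.injective ?_, fun s => hφ.injective ?_,
    fun t s hs => hφ.injective ?_, fun _ => mem_univ _⟩
  · rw [hH', h0]
    rfl
  · rw [hH', h1]
    rfl
  · rw [hH', hb t s hs, hx]

/-- the class of a loop, as an element of the group -/
def gcl (X : Prespectrum) {m n : ℕ} (g : GenLoop (Fin (m + 2)) (X.sp n) (X.sp n).pt) :
    X.piGrp m n := Additive.ofMul (hgm g)

theorem gcl_surj (X : Prespectrum) {m n : ℕ} (x : X.piGrp m n) : ∃ g, gcl X g = x := by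
  obtain ⟨g⟩ := x
  exact ⟨g, rfl⟩

/-- the sequence whose colimit is the stable homotopy group -/
abbrev seq (a b : ℕ) (X : Prespectrum) : ℕ ⥤ AddCommGrpCat.{0} :=
  Functor.ofSequence (fun i => X.stabHom (a + i) (b + i + 2))

/-- the class in the stable homotopy group -/
def scl (a b : ℕ) (X : Prespectrum) (i : ℕ)
    (g : GenLoop (Fin (a + i + 2)) (X.sp (b + i + 2)) (X.sp (b + i + 2)).pt) :
    (piS a b).obj X :=
  Limits.colimit.ι (seq a b X) i (gcl X g)

theorem scl_stab (a b : ℕ) (X : Prespectrum) (i : ℕ)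
    (g : GenLoop (Fin (a + i + 2)) (X.sp (b + i + 2)) (X.sp (b + i + 2)).pt) :
    scl a b X (i + 1) (X.stab g) = scl a b X i g := by
  have h := Limits.colimit.w (seq a b X) (homOfLE (Nat.le_add_right i 1))
  have h2 := ConcreteCategory.congr_hom h (gcl X g)
  rw [Functor.ofSequence_map_homOfLE_succ] at h2
  exact h2

theorem scl_congr (a b : ℕ) (X : Prespectrum) (i : ℕ)
    {g g' : GenLoop (Fin (a + i + 2)) (X.sp (b + i + 2)) (X.sp (b + i + 2)).pt}
    (h : GenLoop.Homotopic g g') : scl a b X i g = scl a b X i g' := by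
  have : gcl X g = gcl X g' := congrArg Additive.ofMul (Quotient.sound h)
  unfold scl
  rw [this]

theorem scl_surj (a b : ℕ) (X : Prespectrum) (x : (piS a b).obj X) :
    ∃ i g, scl a b X i g = x := by
  obtain ⟨i, y, hy⟩ := Limits.Concrete.colimit_exists_rep (seq a b X) x
  obtain ⟨g, rfl⟩ := gcl_surj X (m := a + i) (n := b + i + 2) y
  exact ⟨i, g, hy⟩

theorem map_scl (a b : ℕ) {X Y : Prespectrum} (φ : X ⟶ Y) (i : ℕ)
    (g : GenLoop (Fin (a + i + 2)) (X.sp (b + i + 2)) (X.sp (b + i + 2)).pt) :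
    (piS a b).map φ (scl a b X i g) =
      scl a b Y i (postL (Prespectrum.Hom.map φ _) (Prespectrum.Hom.map_pt φ _) g) := by
  have h := Limits.ι_colimMap (NatTrans.ofSequence (F := seq a b X) (G := seq a b Y)
    (fun i => Prespectrum.Hom.piGrpMap φ (a + i) (b + i + 2)) (fun i => by
      rw [Functor.ofSequence_map_homOfLE_succ, Functor.ofSequence_map_homOfLE_succ]
      exact Prespectrum.stabHom_naturality φ (a + i) (b + i + 2))) i
  exact ConcreteCategory.congr_hom h (gcl X g)

theorem scl_eq (a b : ℕ) (X : Prespectrum) (i : ℕ)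
    {g g' : GenLoop (Fin (a + i + 2)) (X.sp (b + i + 2)) (X.sp (b + i + 2)).pt}
    (h : scl a b X i g = scl a b X i g') :
    ∃ i', ∃ u : i ⟶ i', (seq a b X).map u (gcl X g) = (seq a b X).map u (gcl X g') := by
  obtain ⟨i', u, v, h2⟩ := (Limits.Concrete.colimit_rep_eq_iff_exists (seq a b X) _ _).1 h
  exact ⟨i', u, by rw [h2, Subsingleton.elim u v]⟩

theorem gcl_const (X : Prespectrum) (m n : ℕ) :
    gcl X (GenLoop.const : GenLoop (Fin (m + 2)) (X.sp n) (X.sp n).pt) = 0 := rfl

theorem gcl_eq {X : Prespectrum} {m n : ℕ} {g g' : GenLoop (Fin (m + 2)) (X.sp n) (X.sp n).pt}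
    (h : gcl X g = gcl X g') : GenLoop.Homotopic g g' := Quotient.exact h

/-- the image of a class of the subspectrum -/
theorem naturality (a b : ℕ) {X Y : Prespectrum} (φ : X ⟶ Y) {i i' : ℕ} (u : i ⟶ i')
    (y : (seq a b X).obj i) :
    (seq a b Y).map u (Prespectrum.Hom.piGrpMap φ (a + i) (b + i + 2) y) =
      Prespectrum.Hom.piGrpMap φ (a + i') (b + i' + 2) ((seq a b X).map u y) := by
  have h := (NatTrans.ofSequence (F := seq a b X) (G := seq a b Y)
    (fun i => Prespectrum.Hom.piGrpMap φ (a + i) (b + i + 2)) (fun i => by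
      rw [Functor.ofSequence_map_homOfLE_succ, Functor.ofSequence_map_homOfLE_succ]
      exact Prespectrum.stabHom_naturality φ (a + i) (b + i + 2))).naturality u
  exact (ConcreteCategory.congr_hom h y).symm

theorem range_stab {Y : Prespectrum} {m n : ℕ} (g : GenLoop (Fin m) (Y.sp n) (Y.sp n).pt) :
    range (Y.stab g) ⊆ Y.str n '' (univ ×ˢ range g) := by
  rintro _ ⟨s, rfl⟩
  exact ⟨(s 0, g (fun i => s i.succ)), ⟨mem_univ _, ⟨_, rfl⟩⟩, rfl⟩

theorem postL_stab {X Y : Prespectrum} (φ : X ⟶ Y) {m n : ℕ}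
    (g : GenLoop (Fin m) (X.sp n) (X.sp n).pt) :
    postL (Prespectrum.Hom.map φ (n + 1)) (Prespectrum.Hom.map_pt φ (n + 1)) (X.stab g) =
      Y.stab (postL (Prespectrum.Hom.map φ n) (Prespectrum.Hom.map_pt φ n) g) := by
  ext s
  exact Prespectrum.Hom.map_str φ n (s 0) (g fun i => s i.succ)

theorem surj_aux (a b : ℕ) {X Y : Prespectrum} (φ : X ⟶ Y)
    (hφ : ∀ n, IsEmbedding (Prespectrum.Hom.map φ n)) (j : ℕ) :
    ∀ (i : ℕ) (g : GenLoop (Fin (a + i + 2)) (Y.sp (b + i + 2)) (Y.sp (b + i + 2)).pt),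
      Absorb φ j (b + i + 2) (range g) → ∃ x, (piS a b).map φ x = scl a b Y i g := by
  induction j with
  | zero =>
    intro i g hg
    obtain ⟨g', hg'⟩ := exists_lift (hφ (b + i + 2)) g.1 fun z => hg ⟨z, rfl⟩
    have hb : ∀ s ∈ Cube.boundary (Fin (a + i + 2)), g' s = (X.sp (b + i + 2)).pt := by
      intro s hs
      apply (hφ (b + i + 2)).injective
      rw [hg', Prespectrum.Hom.map_pt φ]
      exact g.2 s hs
    refine ⟨scl a b X i ⟨g', hb⟩, ?_⟩
    rw [map_scl]
    congr 1
    ext s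
    exact hg' s
  | succ j ih =>
    intro i g hg
    have h1 : Absorb φ j (b + i + 2 + 1) (range (Y.stab g)) := Absorb.mono (range_stab g) hg
    obtain ⟨x, hx⟩ := ih (i + 1) (Y.stab g) h1
    exact ⟨x, hx.trans (scl_stab a b Y i g)⟩

theorem inj_aux (a b : ℕ) {X Y : Prespectrum} (φ : X ⟶ Y)
    (hφ : ∀ n, IsEmbedding (Prespectrum.Hom.map φ n)) (j : ℕ) :
    ∀ (i : ℕ) (g g' : GenLoop (Fin (a + i + 2)) (X.sp (b + i + 2)) (X.sp (b + i + 2)).pt)
      (C : Set (Y.sp (b + i + 2))), Absorb φ j (b + i + 2) C →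
      HomIn C (postL (Prespectrum.Hom.map φ _) (Prespectrum.Hom.map_pt φ _) g)
        (postL (Prespectrum.Hom.map φ _) (Prespectrum.Hom.map_pt φ _) g') →
      scl a b X i g = scl a b X i g' := by
  induction j with
  | zero =>
    intro i g g' C hC h
    exact scl_congr a b X i (HomIn.lift (hφ _) (Prespectrum.Hom.map_pt φ _) hC h)
  | succ j ih =>
    intro i g g' C hC h
    have h1 := h.stab
    rw [← postL_stab, ← postL_stab] at h1
    have h2 := ih (i + 1) (X.stab g) (X.stab g') _ hC h1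
    exact (scl_stab a b X i g).symm.trans (h2.trans (scl_stab a b X i g'))

/-- A levelwise embedding of prespectra, such that every compact set is moved into the image by
the structure maps, is a stable equivalence. -/
theorem stableEquiv_of_absorb {X Y : Prespectrum} (φ : X ⟶ Y)
    (hφ : ∀ n, IsEmbedding (Prespectrum.Hom.map φ n))
    (h : ∀ n (C : Set (Y.sp n)), IsCompact C → ∃ j, Absorb φ j n C) : stableEquiv φ := by
  intro a b
  rw [ConcreteCategory.isIso_iff_bijective]
  constructor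
  · rw [injective_iff_map_eq_zero]
    intro x hx
    obtain ⟨i, g, rfl⟩ := scl_surj a b X x
    have h0 : scl a b Y i (GenLoop.const) = 0 := by
      unfold scl
      rw [gcl_const]
      exact map_zero _
    rw [map_scl, ← h0] at hx
    obtain ⟨i', u, hu⟩ := scl_eq a b Y i hx
    obtain ⟨g', hg'⟩ := gcl_surj X (m := a + i') (n := b + i' + 2) ((seq a b X).map u (gcl X g))
    have h1 : scl a b X i g = scl a b X i' g' := by
      have h2 := ConcreteCategory.congr_hom (Limits.colimit.w (seq a b X) u) (gcl X g)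
      unfold scl
      rw [hg']
      exact h2.symm
    have h3 : gcl Y (postL (Prespectrum.Hom.map φ _) (Prespectrum.Hom.map_pt φ _) g') =
        gcl Y GenLoop.const := by
      have h4 := naturality a b φ u (gcl X g)
      rw [← hg'] at h4
      have h5 : (seq a b Y).map u (gcl Y GenLoop.const) = gcl Y GenLoop.const := by
        rw [gcl_const, gcl_const]
        exact map_zero _
      exact h4.symm.trans (hu.trans h5)
    obtain ⟨C, hC, hC2⟩ := HomIn.of_homotopic (gcl_eq h3)
    obtain ⟨j, hj⟩ := h _ C hC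
    have h6 : scl a b X i' g' = scl a b X i' GenLoop.const := by
      refine inj_aux a b φ hφ j i' g' GenLoop.const C hj ?_
      rw [postL_const]
      exact hC2
    rw [h1, h6]
    unfold scl
    rw [gcl_const]
    exact map_zero _
  · intro y
    obtain ⟨i, g, rfl⟩ := scl_surj a b Y y
    obtain ⟨j, hj⟩ := h _ (range g) (isCompact_range g.1.continuous)
    exact surj_aux a b φ hφ j i g hj

end Pool.Agent.Helper19.Stab
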