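import Pool.Agent.Helper1.Stab.T.Op

/-! Project T, packet L4: polynomials in one of the classes `b_m`. -/

open CategoryTheory Topology Filter Set Opposite

noncomputable section

namespace Pool.Agent.Helper19.Stab

open Pool.Agent.Helper1.Stab Pool.Agent.Helper33.Stab

/-- the product of classes over a point -/
def mulP (T : Biv) {K L : LC} (x : T.Hom K LC.point) (y : T.Hom L LC.point) :
    T.Hom (K.prod L) LC.point :=
  T.comp (T.comp (T.tens x L) (T.ltens LC.point y)) (T.J (PMap.ofHomeo (LC.lunit LC.point)))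

theorem mulP_comp (T : Biv) {K K' L L' : LC} (a : T.Hom K K') (x : T.Hom K' LC.point)
    (b : T.Hom L L') (y : T.Hom L' LC.point) :
    mulP T (T.comp a x) (T.comp b y) =
      T.comp (T.comp (T.tens a L) (T.ltens K' b)) (mulP T x y) := by
  unfold mulP
  rw [T.tens_comp, Helper39.Stab.ltens_comp T]
  simp only [T.assoc]
  congr 1
  rw [← T.assoc (T.ltens K' b), ← T.exch x b]
  simp only [T.assoc]

section
variable {R : Biv} {m : ℕ} (w : R.Hom (Cn m) LC.C) (w' : R.Hom LC.C (Cn m))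

/-- the class `W_k : ℂ^(m k) → ℂ^k` -/
def WW : ∀ k : ℕ, R.Hom (Cn (deg (List.replicate k m))) (Cn k)
  | 0 => R.J (PMap.id LC.point)
  | k + 1 => R.comp (R.J (PMap.ofHomeo (CnAdd (deg (List.replicate k m)) m).symm))
      (R.comp (R.tens (WW k) (Cn m)) (R.ltens (Cn k) w))

/-- the inverse of `W_k` -/
def WV : ∀ k : ℕ, R.Hom (Cn k) (Cn (deg (List.replicate k m)))
  | 0 => R.J (PMap.id LC.point)
  | k + 1 => R.comp (R.comp (R.ltens (Cn k) w') (R.tens (WV k) (Cn m)))
      (R.J (PMap.ofHomeo (CnAdd (deg (List.replicate k m)) m)))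

variable {w w'}

theorem WW_WV (h : R.comp w w' = R.J (PMap.id _)) : ∀ k : ℕ,
    R.comp (WW w k) (WV w' k) = R.J (PMap.id _)
  | 0 => R.id_comp _
  | k + 1 => by
    have ih := WW_WV h k
    change R.comp (R.comp (R.J (PMap.ofHomeo (CnAdd (deg (List.replicate k m)) m).symm))
      (R.comp (R.tens (WW w k) (Cn m)) (R.ltens (Cn k) w)))
      (R.comp (R.comp (R.ltens (Cn k) w') (R.tens (WV w' k) (Cn m)))
      (R.J (PMap.ofHomeo (CnAdd (deg (List.replicate k m)) m)))) = R.J (PMap.id _)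
    simp only [R.assoc]
    rw [← R.assoc (R.ltens (Cn k) w), ← Helper39.Stab.ltens_comp R, h,
      Helper39.Stab.ltens_id R, R.id_comp, ← R.assoc (R.tens (WW w k) (Cn m)), ← R.tens_comp, ih,
      Helper39.Stab.tens_id R, R.id_comp]
    exact Helper39.Stab.J_homeo_symm' R (CnAdd (deg (List.replicate k m)) m)

theorem WV_WW (h : R.comp w' w = R.J (PMap.id _)) : ∀ k : ℕ,
    R.comp (WV w' k) (WW w k) = R.J (PMap.id _)
  | 0 => R.id_comp _
  | k + 1 => by
    have ih := WV_WW h k
    change R.comp (R.comp (R.comp (R.ltens (Cn k) w') (R.tens (WV w' k) (Cn m)))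
      (R.J (PMap.ofHomeo (CnAdd (deg (List.replicate k m)) m))))
      (R.comp (R.J (PMap.ofHomeo (CnAdd (deg (List.replicate k m)) m).symm))
      (R.comp (R.tens (WW w k) (Cn m)) (R.ltens (Cn k) w))) =
      R.J (PMap.id ((Cn k).prod LC.C))
    simp only [R.assoc]
    have e1 : R.comp (R.J (PMap.ofHomeo (CnAdd (deg (List.replicate k m)) m)))
      (R.comp (R.J (PMap.ofHomeo (CnAdd (deg (List.replicate k m)) m).symm))
      (R.comp (R.tens (WW w k) (Cn m)) (R.ltens (Cn k) w))) =
      (R.comp (R.tens (WW w k) (Cn m)) (R.ltens (Cn k) w)) := by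
      rw [← R.assoc, Helper39.Stab.J_homeo_symm R, R.id_comp]
    rw [e1, ← R.assoc (R.tens (WV w' k) (Cn m)), ← R.tens_comp, ih,
      Helper39.Stab.tens_id R, R.id_comp, ← Helper39.Stab.ltens_comp R, h,
      Helper39.Stab.ltens_id R]

variable (P : PRTheory R) (o : Orient R)

/-- `b_[m,…,m]` is a power of `β` up to `W_k` -/
theorem bL_replicate {β : P.Hom LC.C LC.point} (hb : P.b o m = P.comp (P.inc w) β)
    (pw : ∀ k : ℕ, P.Hom (Cn k) LC.point) (h0 : pw 0 = P.J (PMap.id LC.point))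
    (hs : ∀ k, pw (k + 1) = mulP P.toBiv (pw k) β) : ∀ k : ℕ,
    P.bL o (List.replicate k m) = P.comp (P.inc (WW w k)) (pw k)
  | 0 => by
    rw [h0]
    change P.J (PMap.id LC.point) = P.comp (P.inc (R.J (PMap.id LC.point)))
      (P.J (PMap.id LC.point))
    rw [P.inc_J, P.id_comp]
  | k + 1 => by
    have ih := bL_replicate hb pw h0 hs k
    rw [hs]
    change P.comp (P.J (PMap.ofHomeo (CnAdd (deg (List.replicate k m)) m).symm))
      (mulP P.toBiv (P.bL o (List.replicate k m)) (P.b o m)) =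
      P.comp (P.inc (R.comp (R.J (PMap.ofHomeo (CnAdd (deg (List.replicate k m)) m).symm))
      (R.comp (R.tens (WW w k) (Cn m)) (R.ltens (Cn k) w)))) (mulP P.toBiv (pw k) β)
    rw [ih, hb, mulP_comp, P.inc_comp, P.inc_comp, P.inc_J, P.inc_tens, inc_ltens33]
    simp only [P.assoc]

theorem term_comp {K Z : LC} {d d' : ℕ} (c : R.Hom K ((Cn d).prod Z)) (a : R.Hom (Cn d) (Cn d'))
    (x : P.Hom (Cn d') LC.point) :
    P.term c (P.comp (P.inc a) x) = P.term (R.comp c (R.tens a Z)) x := by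
  unfold PRTheory.term
  rw [P.tens_comp, P.inc_comp, P.inc_tens]
  simp only [P.assoc]

theorem term_zero {K Z : LC} {d : ℕ} (x : P.Hom (Cn d) LC.point) :
    P.term (0 : R.Hom K ((Cn d).prod Z)) x = 0 := by
  unfold PRTheory.term
  rw [inc_zero33, zero_comp33]

theorem term_zero' {K Z : LC} {d : ℕ} (c : R.Hom K ((Cn d).prod Z)) :
    P.term c (0 : P.Hom (Cn d) LC.point) = 0 := by
  unfold PRTheory.term
  rw [tens_zero33, zero_comp33, comp_zero33]

theorem map_cons (Λ : BivHom P.toBiv P.toBiv) (i : ℕ) (L : List ℕ) :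
    Λ.F (P.bL o (i :: L)) = P.comp (P.J (PMap.ofHomeo (CnAdd (deg L) i).symm))
      (mulP P.toBiv (Λ.F (P.bL o L)) (Λ.F (P.b o i))) := by
  change Λ.F (P.comp (P.J (PMap.ofHomeo (CnAdd (deg L) i).symm))
    (P.comp (P.comp (P.tens (P.bL o L) (Cn i)) (P.ltens LC.point (P.b o i)))
      (P.J (PMap.ofHomeo (LC.lunit LC.point))))) = _
  rw [Λ.comp, Λ.comp, Λ.comp, Λ.J, Λ.J, Λ.tens, Λ.ltens]
  rfl

theorem mulP_zero_left (T : Biv) {K L : LC} (y : T.Hom L LC.point) :
    mulP T (0 : T.Hom K LC.point) y = 0 := by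
  unfold mulP
  rw [tens_zero33, zero_comp33, zero_comp33]

theorem mulP_zero_right (T : Biv) {K L : LC} (x : T.Hom K LC.point) :
    mulP T x (0 : T.Hom L LC.point) = 0 := by
  have h2 : T.ltens LC.point (0 : T.Hom L LC.point) = 0 := by
    change T.comp _ (T.comp (T.tens 0 _) _) = 0
    rw [tens_zero33, zero_comp33, comp_zero33]
  unfold mulP
  rw [h2, comp_zero33, zero_comp33]

theorem map_rep (Λ : BivHom P.toBiv P.toBiv) (hb : Λ.F (P.b o m) = P.b o m) : ∀ k : ℕ,
    Λ.F (P.bL o (List.replicate k m)) = P.bL o (List.replicate k m)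
  | 0 => Λ.J _
  | k + 1 => by
    have ih := map_rep Λ hb k
    have h := map_cons P o Λ m (List.replicate k m)
    rw [ih, hb] at h
    exact h

/-- the class of a list of positive integers is killed unless all entries are `m` -/
theorem map_bL (Λ : BivHom P.toBiv P.toBiv)
    (hne : ∀ i, 0 < i → i ≠ m → Λ.F (P.b o i) = 0) : ∀ L : List ℕ, (∀ i ∈ L, 0 < i) →
      L = List.replicate L.length m ∨ Λ.F (P.bL o L) = 0
  | [], _ => Or.inl rfl
  | i :: L, hL => by
    rcases map_bL Λ hne L (fun j hj => hL j (List.mem_cons_of_mem _ hj)) with h2 | h2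
    · by_cases him : i = m
      · left
        rw [him, List.length_cons, List.replicate_succ, ← h2]
      · right
        rw [map_cons, hne i (hL i List.mem_cons_self) him, mulP_zero_right, comp_zero33]
        rfl
    · right
      rw [map_cons, h2, mulP_zero_left, comp_zero33]
      rfl

/-- the list `[m,…,m]` -/
def RL (hm : 0 < m) (k : ℕ) : PL := ⟨List.replicate k m, List.pairwise_replicate.2 (Or.inr le_rfl),
  fun i hi => by rw [List.eq_of_mem_replicate hi]; exact hm⟩

theorem RL_inj (hm : 0 < m) : Function.Injective (RL hm) := by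
  intro k l h
  have h1 : List.replicate k m = List.replicate l m := congrArg Subtype.val h
  have h2 := congrArg List.length h1
  rwa [List.length_replicate, List.length_replicate] at h2

theorem term_rep (Λ : BivHom P.toBiv P.toBiv) (hb : Λ.F (P.b o m) = P.b o m)
    {β : P.Hom LC.C LC.point} (hβ : P.b o m = P.comp (P.inc w) β)
    (pw : ∀ k : ℕ, P.Hom (Cn k) LC.point) (h0 : pw 0 = P.J (PMap.id LC.point))
    (hs : ∀ k, pw (k + 1) = mulP P.toBiv (pw k) β) {K Z : LC} (k : ℕ)
    (c : R.Hom K ((Cn (deg (List.replicate k m))).prod Z)) :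
    P.term (R.comp c (R.tens (WW w k) Z)) (pw k) =
      P.term c (Λ.F (P.bL o (List.replicate k m))) := by
  rw [map_rep P o Λ hb, bL_replicate P o hβ pw h0 hs k, term_comp P]

theorem sum_eq_aux {ι M : Type} [AddCommMonoid M] (f : ι → M) (s t : Finset ι)
    (h1 : ∀ L, L ∉ s → f L = 0) (h2 : ∀ L, L ∈ s → L ∉ t → f L = 0) :
    ∑ L ∈ s, f L = ∑ L ∈ t, f L := by
  classical
  rw [Finset.sum_subset (Finset.subset_union_left (s₁ := s) (s₂ := t)) (fun L _ hL => h1 L hL)]
  exact (Finset.sum_subset (Finset.subset_union_right (s₁ := s) (s₂ := t)) (fun L hL hLn => h2 L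
    ((Finset.mem_union.1 hL).resolve_right hLn) hLn)).symm

/-- (Q1) -/
theorem exists_coef (hm : 0 < m) (Λ : BivHom P.toBiv P.toBiv)
    (hinc : ∀ {K Z : LC} (x : R.Hom K Z), Λ.F (P.inc x) = P.inc x)
    (hb : Λ.F (P.b o m) = P.b o m) (hne : ∀ i, 0 < i → i ≠ m → Λ.F (P.b o i) = 0)
    {β : P.Hom LC.C LC.point} (hβ : P.b o m = P.comp (P.inc w) β)
    (pw : ∀ k : ℕ, P.Hom (Cn k) LC.point) (h0 : pw 0 = P.J (PMap.id LC.point))
    (hs : ∀ k, pw (k + 1) = mulP P.toBiv (pw k) β) {K Z : LC} (x : P.Hom K Z) (hx : Λ.F x = x) :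
    ∃ (N : ℕ) (c : ∀ k : ℕ, R.Hom K ((Cn k).prod Z)),
      (∀ k, N ≤ k → c k = 0) ∧ x = ∑ k ∈ Finset.range N, P.term (c k) (pw k) := by
  classical
  obtain ⟨c, hc⟩ := PO7.psi_surj P o K Z x
  have hterm : ∀ (d : ℕ) (y : R.Hom K ((Cn d).prod Z)) (z : P.Hom (Cn d) LC.point),
      Λ.F (P.term y z) = P.term y (Λ.F z) := by
    intro d y z
    unfold PRTheory.term
    rw [Λ.comp, Λ.comp, Λ.J, Λ.tens, hinc]
  have h1 : x = ∑ L ∈ c.support, P.term (c L) (Λ.F (P.bL o L.1)) := by
    rw [← hx, ← hc, PO7.psi_apply]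
    change Λ.F (∑ L ∈ c.support, P.term (c L) (P.bL o L.1)) = _
    rw [Λ.map_sum]
    exact Finset.sum_congr rfl fun L _ => hterm _ _ _
  let N : ℕ := (c.support.sup fun L => L.1.length) + 1
  have hcN : ∀ k, N ≤ k → c (RL hm k) = 0 := by
    intro k hk
    by_contra hne'
    have h2 : RL hm k ∈ c.support := DFinsupp.mem_support_iff.2 hne'
    have h3 : (RL hm k).1.length ≤ c.support.sup fun L => L.1.length :=
      Finset.le_sup (f := fun L : PL => L.1.length) h2
    have h4 : (RL hm k).1.length = k := List.length_replicate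
    omega
  refine ⟨N, fun k => R.comp (c (RL hm k)) (R.tens (WW w k) Z), ?_, ?_⟩
  · intro k hk
    exact (congrArg (fun y => R.comp y (R.tens (WW w k) Z)) (hcN k hk)).trans (zero_comp33 _)
  · have h2 : ∑ k ∈ Finset.range N, P.term (R.comp (c (RL hm k)) (R.tens (WW w k) Z)) (pw k) =
        ∑ L ∈ (Finset.range N).image (RL hm), P.term (c L) (Λ.F (P.bL o L.1)) := by
      rw [Finset.sum_image (fun a _ b _ h => RL_inj hm h)]
      exact Finset.sum_congr rfl fun k _ => term_rep P o Λ hb hβ pw h0 hs k _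
    rw [h2, h1]
    have h6 : ∀ L : PL, L ∈ c.support → L ∉ (Finset.range N).image (RL hm) →
        P.term (c L) (Λ.F (P.bL o L.1)) = 0 := by
      intro L hL hLn
      rcases map_bL P o Λ hne L.1 L.2.2 with h3 | h3
      · exfalso
        apply hLn
        refine Finset.mem_image.2 ⟨L.1.length, ?_, Subtype.ext h3.symm⟩
        have h4 : L.1.length ≤ c.support.sup fun L => L.1.length :=
          Finset.le_sup (f := fun L : PL => L.1.length) hL
        exact Finset.mem_range.2 (by omega)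
      · exact (congrArg (fun y => P.term (c L) y) h3).trans (term_zero' P _)
    have h7 : ∀ L : PL, L ∉ c.support → P.term (c L) (Λ.F (P.bL o L.1)) = 0 := by
      intro L hL
      have h8 : c L = 0 := DFinsupp.notMem_support_iff.1 hL
      exact (congrArg (fun y => P.term y (Λ.F (P.bL o L.1))) h8).trans (term_zero P _)
    exact sum_eq_aux (fun L : PL => P.term (c L) (Λ.F (P.bL o L.1))) _ _ h7 h6

/-- (Q2) -/
theorem coef_unique (hm : 0 < m) (hw'w : R.comp w' w = R.J (PMap.id _))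
    {β : P.Hom LC.C LC.point} (hβ : P.b o m = P.comp (P.inc w) β)
    (pw : ∀ k : ℕ, P.Hom (Cn k) LC.point) (h0 : pw 0 = P.J (PMap.id LC.point))
    (hs : ∀ k, pw (k + 1) = mulP P.toBiv (pw k) β) {K Z : LC} (N : ℕ)
    (c : ∀ k : ℕ, R.Hom K ((Cn k).prod Z))
    (h : ∑ k ∈ Finset.range N, P.term (c k) (pw k) = 0) : ∀ k < N, c k = 0 := by
  classical
  have hpw : ∀ k, pw k = P.comp (P.inc (WV w' k)) (P.bL o (List.replicate k m)) := by
    intro k
    rw [bL_replicate P o hβ pw h0 hs k, ← P.assoc, ← P.inc_comp, WV_WW hw'w, P.inc_J, P.id_comp]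
  let d : ∀ k : ℕ, R.Hom K ((Cn (deg (List.replicate k m))).prod Z) :=
    fun k => R.comp (c k) (R.tens (WV w' k) Z)
  let D : Π₀ L : PL, R.Hom K ((Cn (deg L.1)).prod Z) :=
    ∑ k ∈ Finset.range N, DFinsupp.single (RL hm k) (d k)
  have hD : PO7.psi P o K Z D = 0 := by
    rw [map_sum, ← h]
    refine Finset.sum_congr rfl fun k _ => ?_
    rw [hpw, term_comp P]
    exact DFinsupp.sumAddHom_single _ _ _
  have hD0 := PO7.psi_inj P o K Z D hD
  intro k hk
  have h1 : D (RL hm k) = d k := by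
    rw [show D = ∑ j ∈ Finset.range N, DFinsupp.single (RL hm j) (d j) from rfl,
      DFinsupp.finset_sum_apply, Finset.sum_eq_single k]
    · exact DFinsupp.single_eq_same
    · intro j _ hj
      exact DFinsupp.single_eq_of_ne (fun e => hj (RL_inj hm e.symm))
    · intro hk'
      exact absurd (Finset.mem_range.2 hk) hk'
  have h2 : R.comp (c k) (R.tens (WV w' k) Z) = 0 := by
    rw [hD0] at h1
    exact h1.symm
  have h3 : R.comp (R.comp (c k) (R.tens (WV w' k) Z)) (R.tens (WW w k) Z) = c k := by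
    rw [R.assoc, ← R.tens_comp, WV_WW hw'w, Helper39.Stab.tens_id R, R.comp_id]
  rw [← h3, h2, zero_comp33]

end

end Pool.Agent.Helper19.Stab
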