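import Pool.Agent.Helper1.Stab.Ori

/-! Stable homotopy of maps to Grassmannians from partial isometries. -/

open Topology Filter Set Matrix

noncomputable section

namespace Pool.Agent.Helper19.Stab

open Pool.Agent.Helper1.Stab

/-- Hermitian projections of rank `n` -/
def BPj {S : Type} [Fintype S] (n : ℕ) (M : Matrix S S ℂ) : Prop :=
  Mᴴ = M ∧ M * M = M ∧ M.trace = n

theorem BPj.submatrix {S T : Type} [Fintype S] [Fintype T] {n : ℕ} {M : Matrix S S ℂ}
    (h : BPj n M) (e : T ≃ S) : BPj n (M.submatrix e e) := by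
  refine ⟨?_, ?_, ?_⟩
  · rw [conjTranspose_submatrix, h.1]
  · rw [submatrix_mul_equiv, h.2.1]
  · rw [← h.2.2, Matrix.trace, Matrix.trace]
    exact e.sum_comp (fun i => M.diag i)

theorem BPj.fromBlocks {S T : Type} [Fintype S] [Fintype T] {n m : ℕ} {M : Matrix S S ℂ}
    {N : Matrix T T ℂ} (h : BPj n M) (h' : BPj m N) :
    BPj (n + m) (Matrix.fromBlocks M 0 0 N) := by
  refine ⟨?_, ?_, ?_⟩
  · rw [Matrix.fromBlocks_conjTranspose, h.1, h'.1, Matrix.conjTranspose_zero,
      Matrix.conjTranspose_zero]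
  · rw [Matrix.fromBlocks_multiply, h.2.1, h'.2.1]
    simp
  · have h1 := h.2.2
    have h2 := h'.2.2
    rw [Matrix.trace] at h1 h2 ⊢
    rw [Fintype.sum_sum_type]
    refine Eq.trans ?_ ((congrArg₂ (· + ·) h1 h2).trans (Nat.cast_add n m).symm)
    rfl

theorem BPj.one {S : Type} [Fintype S] [DecidableEq S] {n : ℕ} (hn : Fintype.card S = n) :
    BPj n (1 : Matrix S S ℂ) := by
  subst hn
  exact ⟨by simp, by simp, by simp⟩

/-- the coordinates of `l ⊔ M` -/
def bpE {l : Type} {M : ℕ} (σ : Fin M ≃ l × Bool) :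
    (l ⊕ Fin M) × Bool ≃ (l × Bool ⊕ l × Bool) ⊕ Fin M where
  toFun x := match x with
    | (.inl i, b) => .inl (.inl (i, b))
    | (.inr j, true) => .inr j
    | (.inr j, false) => .inl (.inr (σ j))
  invFun x := match x with
    | .inl (.inl (i, b)) => (.inl i, b)
    | .inl (.inr y) => (.inr (σ.symm y), false)
    | .inr j => (.inr j, true)
  left_inv := by rintro ⟨i | j, b⟩ <;> cases b <;> simp
  right_inv := by rintro ((⟨i, b⟩ | y) | j) <;> simp

/-- a family in `l × Bool ⊔ l × Bool` gives a family in `G(l ⊔ M)` -/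
def bpPlace {l : Type} [Fintype l] {M : ℕ} (σ : Fin M ≃ l × Bool)
    (P : Pr (l × Bool ⊕ l × Bool) (Fintype.card l)) : GK (l ⊕ Fin M) :=
  ⟨(Matrix.fromBlocks P.1 0 0 1).submatrix (bpE σ) (bpE σ), by
    have h := (BPj.fromBlocks (S := l × Bool ⊕ l × Bool) (T := Fin M) (n := Fintype.card l)
      (m := M) P.2 (BPj.one (Fintype.card_fin M))).submatrix (bpE σ)
    refine ⟨h.1, h.2.1, h.2.2.trans ?_⟩
    rw [Fintype.card_sum, Fintype.card_fin]⟩

theorem continuous_bpPlace {l : Type} [Fintype l] {M : ℕ} (σ : Fin M ≃ l × Bool) :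
    Continuous (bpPlace σ) := by
  refine Continuous.subtype_mk ?_ _
  refine Continuous.matrix_submatrix ?_ _ _
  exact Continuous.matrix_fromBlocks Pr.continuous_val69 continuous_const continuous_const
    continuous_const

theorem bp_base {n : ℕ} (x y : Fin n) (b c : Bool) : (GK.base (Fin n)).1 (x, b) (y, c) =
    if x = y ∧ b = true ∧ c = true then 1 else 0 := by
  by_cases h : (x, b) = (y, c) ∧ b = true
  · refine (if_pos h).trans (if_pos ?_).symm
    obtain ⟨h1, h2⟩ := h
    rw [Prod.mk.injEq] at h1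
    exact ⟨h1.1, h2, h1.2 ▸ h2⟩
  · refine (if_neg h).trans (if_neg ?_).symm
    rintro ⟨rfl, rfl, rfl⟩
    exact h ⟨rfl, rfl⟩

theorem bpPlace_inl {l : Type} [Fintype l] {M : ℕ} (σ : Fin M ≃ l × Bool) (P : GK l) :
    bpPlace σ (Pr.ext (n := Fintype.card l) ⟨Sum.inl, Sum.inl_injective⟩ P) =
      GK.sum (P, GK.base (Fin M)) := by
  refine Subtype.ext ?_
  show (Matrix.fromBlocks (Pr.ext (n := Fintype.card l) ⟨Sum.inl, Sum.inl_injective⟩ P : Pr
    (l × Bool ⊕ l × Bool) (Fintype.card l)).1 0 0 1).submatrix (bpE σ) (bpE σ) = _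
  rw [PJ2.ext_inl]
  ext ⟨x | x, b⟩ ⟨y | y, c⟩
  · rfl
  · cases c <;> rfl
  · cases b <;> rfl
  · have hb := bp_base x y b c
    refine Eq.trans ?_ hb.symm
    cases b <;> cases c
    · show (0 : ℂ) = _
      simp
    · show (0 : ℂ) = _
      simp
    · show (0 : ℂ) = _
      simp
    · show (1 : Matrix (Fin M) (Fin M) ℂ) x y = _
      rw [Matrix.one_apply]
      simp

/-- Families of projections that are related by partial isometries become homotopic. -/
theorem bp_homotopic {X l : Type} [TopologicalSpace X] [Fintype l] {M : ℕ}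
    (σ : Fin M ≃ l × Bool) (f g : C(X, GK l))
    (h : UEquiv (n := Fintype.card l) (m := Fintype.card l) (S := l × Bool) (T := l × Bool)
      (fun x => f x) (fun x => g x)) :
    ContinuousMap.Homotopic
      (⟨fun x => GK.sum (f x, GK.base (Fin M)),
        GK.continuous_sum.comp (f.continuous.prodMk continuous_const)⟩ : C(X, GK (l ⊕ Fin M)))
      (⟨fun x => GK.sum (g x, GK.base (Fin M)),
        GK.continuous_sum.comp (g.continuous.prodMk continuous_const)⟩ : C(X, GK (l ⊕ Fin M))) := by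
  have key : ∀ (f : C(X, GK l)) (h : UEquiv (n := Fintype.card l) (m := Fintype.card l)
      (S := l × Bool) (T := l × Bool) (fun x => f x) (fun x => g x)),
      ContinuousMap.Homotopic
      (⟨fun x => GK.sum (f x, GK.base (Fin M)),
        GK.continuous_sum.comp (f.continuous.prodMk continuous_const)⟩ : C(X, GK (l ⊕ Fin M)))
      (⟨fun x => bpPlace σ (Pr.ext (n := Fintype.card l) ⟨Sum.inr, Sum.inr_injective⟩ (g x)),
        (continuous_bpPlace σ).comp ((Pr.continuous_ext _).comp g.continuous)⟩ :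
        C(X, GK (l ⊕ Fin M))) := by
    intro f h
    obtain ⟨H, hH, h0, h1⟩ := h.homotopic
    refine ⟨⟨⟨fun p => bpPlace σ (H p), (continuous_bpPlace σ).comp hH⟩, fun x => ?_, fun x => ?_⟩⟩
    · show bpPlace σ (H (0, x)) = _
      rw [h0]
      exact bpPlace_inl σ (f x)
    · show bpPlace σ (H (1, x)) = _
      rw [h1]
      rfl
  refine (key f h).trans (key g ⟨fun x => (g x).1, continuous_subtype_val.comp g.continuous,
    fun x => ?_, fun x => ?_⟩).symm
  · have := (g x).2
    show (g x).1ᴴ * (g x).1 = _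
    rw [this.1, this.2.1]
  · have := (g x).2
    show (g x).1 * (g x).1ᴴ = _
    rw [this.1, this.2.1]

/-- Stable homotopy from partial isometries. -/
theorem bp_stably {X κ l : Type} [TopologicalSpace X] [Fintype κ] [Fintype l] (m : ℕ)
    (hm : Fintype.card κ + m = Fintype.card l) (f : C(X, GK κ)) (g : C(X, GK l))
    (w : X → Matrix (l × Bool) ((κ ⊕ Fin m) × Bool) ℂ) (hw : Continuous w)
    (h1 : ∀ x, (w x)ᴴ * w x = (GK.sum (f x, GK.base (Fin m))).1)
    (h2 : ∀ x, w x * (w x)ᴴ = (g x).1) : StablyHomotopic f g := by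
  classical
  let e0 : κ ⊕ Fin m ≃ l := Fintype.equivOfCardEq (by rw [Fintype.card_sum, Fintype.card_fin, hm])
  obtain ⟨M, ⟨σ⟩⟩ : ∃ M, Nonempty (Fin M ≃ l × Bool) :=
    ⟨_, ⟨(Fintype.equivFin (l × Bool)).symm⟩⟩
  let f' : C(X, GK l) := ⟨fun x => GK.reindex e0 (GK.sum (f x, GK.base (Fin m))),
    (GK.reindex e0).continuous.comp (GK.continuous_sum.comp
      (f.continuous.prodMk continuous_const))⟩
  have hf' : ∀ x, (f' x).1 = ((GK.sum (f x, GK.base (Fin m))).1).submatrix
      (e0.symm.prodCongr (Equiv.refl Bool)) (e0.symm.prodCongr (Equiv.refl Bool)) := fun x => rfl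
  have hU : UEquiv (n := Fintype.card l) (m := Fintype.card l) (S := l × Bool) (T := l × Bool)
      (fun x => f' x) (fun x => g x) := by
    refine ⟨fun x => (w x).submatrix (Equiv.refl _) (e0.symm.prodCongr (Equiv.refl Bool)),
      hw.matrix_submatrix _ _, fun x => ?_, fun x => ?_⟩
    · show ((w x).submatrix (Equiv.refl _) (e0.symm.prodCongr (Equiv.refl Bool)))ᴴ *
        (w x).submatrix (Equiv.refl _) (e0.symm.prodCongr (Equiv.refl Bool)) = (f' x).1
      rw [hf', conjTranspose_submatrix, submatrix_mul_equiv, h1]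
    · show (w x).submatrix (Equiv.refl _) (e0.symm.prodCongr (Equiv.refl Bool)) *
        ((w x).submatrix (Equiv.refl _) (e0.symm.prodCongr (Equiv.refl Bool)))ᴴ = (g x).1
      rw [conjTranspose_submatrix, submatrix_mul_equiv, h2]
      rfl
  have hH := bp_homotopic σ f' g hU
  let e : κ ⊕ Fin (m + M) ≃ l ⊕ Fin M :=
    ((Equiv.refl κ).sumCongr finSumFinEquiv.symm).trans
      ((Equiv.sumAssoc κ (Fin m) (Fin M)).symm.trans (e0.sumCongr (Equiv.refl (Fin M))))
  refine ⟨m + M, M, e, ?_⟩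
  refine Eq.mp ?_ hH
  congr 1
  ext1 t
  refine Subtype.ext ?_
  show (GK.sum (f' t, GK.base (Fin M))).1 =
    ((GK.sum (f t, GK.base (Fin (m + M)))).1).submatrix
      (e.symm.prodCongr (Equiv.refl Bool)) (e.symm.prodCongr (Equiv.refl Bool))
  have e1 : ∀ i : l, e.symm (Sum.inl i) = Sum.map id (fun j => Fin.castAdd M j) (e0.symm i) := by
    intro i
    show ((Equiv.refl κ).sumCongr finSumFinEquiv.symm).symm ((Equiv.sumAssoc κ (Fin m) (Fin M))
      (Sum.inl (e0.symm i))) = _
    rcases e0.symm i with k | k <;> rfl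
  have e2 : ∀ i : Fin M, e.symm (Sum.inr i) = Sum.inr (Fin.natAdd m i) := fun i => rfl
  ext ⟨x | x, b⟩ ⟨y | y, c⟩
  · show ((GK.sum (f t, GK.base (Fin m))).1) (e0.symm x, b) (e0.symm y, c) =
      ((GK.sum (f t, GK.base (Fin (m + M)))).1) (e.symm (Sum.inl x), b) (e.symm (Sum.inl y), c)
    rw [e1, e1]
    rcases e0.symm x with k | k <;> rcases e0.symm y with j | j
    · rfl
    · rfl
    · rfl
    · show (GK.base (Fin m)).1 (k, b) (j, c) = (GK.base (Fin (m + M))).1 (Fin.castAdd M k, b)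
        (Fin.castAdd M j, c)
      rw [bp_base, bp_base]
      simp
  · show (0 : ℂ) =
      ((GK.sum (f t, GK.base (Fin (m + M)))).1) (e.symm (Sum.inl x), b) (e.symm (Sum.inr y), c)
    rw [e1, e2]
    rcases e0.symm x with k | k
    · rfl
    · show (0 : ℂ) = (GK.base (Fin (m + M))).1 (Fin.castAdd M k, b) (Fin.natAdd m y, c)
      rw [bp_base, if_neg]
      rintro ⟨h, -⟩
      have := congrArg Fin.val h
      simp at this
      omega
  · show (0 : ℂ) =
      ((GK.sum (f t, GK.base (Fin (m + M)))).1) (e.symm (Sum.inr x), b) (e.symm (Sum.inl y), c)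
    rw [e1, e2]
    rcases e0.symm y with k | k
    · rfl
    · show (0 : ℂ) = (GK.base (Fin (m + M))).1 (Fin.natAdd m x, b) (Fin.castAdd M k, c)
      rw [bp_base, if_neg]
      rintro ⟨h, -⟩
      have := congrArg Fin.val h
      simp at this
      omega
  · show (GK.base (Fin M)).1 (x, b) (y, c) =
      ((GK.sum (f t, GK.base (Fin (m + M)))).1) (e.symm (Sum.inr x), b) (e.symm (Sum.inr y), c)
    rw [e2, e2]
    show (GK.base (Fin M)).1 (x, b) (y, c) = (GK.base (Fin (m + M))).1 (Fin.natAdd m x, b)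
      (Fin.natAdd m y, c)
    rw [bp_base, bp_base]
    simp

end Pool.Agent.Helper19.Stab
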