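import Pool.Agent.Helper19.Stab.BP1

/-! The frames of the Bott product. -/

open Topology Filter Set Matrix

noncomputable section

namespace Pool.Agent.Helper19.Stab

open Pool.Agent.Helper1.Stab

/-- the coordinates of `H ⊗ γ ⊕ H^⊥ ⊕ γ^⊥` -/
abbrev BL : Type := (Bool × Bool ⊕ Bool) ⊕ Bool

/-- a unit vector `(a, b)` with real `b` and a collar parameter -/
structure BDat where
  a : ℂ
  b : ℝ
  C : ℝ
  S : ℝ
  hab : a * (starRingEnd ℂ) a + (b : ℂ) * b = 1
  hCS : (C : ℂ) * C + (S : ℂ) * S = 1
  hSb : (S : ℂ) * b = 0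

/-- the frame of the Bott product -/
def bpV (D D' : BDat) : Matrix BL (Fin 3) ℂ := fun r =>
  match r with
  | .inl (.inl (true, true)) => ![D.a * D'.a, -(D'.S * D.b), -(D.S * D'.b)]
  | .inl (.inl (true, false)) => ![D.C * D.a * D'.b, 0, 0]
  | .inl (.inl (false, true)) => ![D'.C * D.b * D'.a, 0, 0]
  | .inl (.inl (false, false)) => ![D.b * D'.b, 0, 0]
  | .inl (.inr true) => ![0, -(D'.C * D.b), 0]
  | .inl (.inr false) => ![D'.S * D.b * D'.a, (starRingEnd ℂ) D.a, 0]
  | .inr true => ![0, 0, -(D.C * D'.b)]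
  | .inr false => ![D.S * D.a * D'.b, 0, (starRingEnd ℂ) D'.a]

theorem bpV_iso (D D' : BDat) : (bpV D D')ᴴ * bpV D D' = 1 := by
  have h1 := D.hab
  have h2 := D'.hab
  have h3 := D.hCS
  have h4 := D'.hCS
  have h5 : D.S = 0 ∨ D.b = 0 := by simpa using D.hSb
  ext i j
  rw [Matrix.mul_apply, Fintype.sum_sum_type, Fintype.sum_sum_type, Fintype.sum_prod_type]
  simp only [Fintype.sum_bool, conjTranspose_apply, bpV, RCLike.star_def]
  fin_cases i <;> fin_cases j <;>
    simp
  · linear_combination (D'.a * (starRingEnd ℂ) D'.a + (D'.b : ℂ) * D'.b) * h1 + h2 +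
      D.a * (starRingEnd ℂ) D.a * (D'.b : ℂ) * D'.b * h3 +
      D.b * D.b * D'.a * (starRingEnd ℂ) D'.a * h4
  · ring
  · ring
  · ring
  · linear_combination h1 + D.b * D.b * h4
  · tauto
  · ring
  · tauto
  · linear_combination h2 + D'.b * D'.b * h3

/-- the frame without collar -/
def bpV0 (D D' : BDat) : Matrix BL (Fin 3) ℂ := fun r =>
  match r with
  | .inl (.inl (true, true)) => ![D.a * D'.a, 0, 0]
  | .inl (.inl (true, false)) => ![D.a * D'.b, 0, 0]
  | .inl (.inl (false, true)) => ![D.b * D'.a, 0, 0]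
  | .inl (.inl (false, false)) => ![D.b * D'.b, 0, 0]
  | .inl (.inr true) => ![0, -D.b, 0]
  | .inl (.inr false) => ![0, (starRingEnd ℂ) D.a, 0]
  | .inr true => ![0, 0, -D'.b]
  | .inr false => ![0, 0, (starRingEnd ℂ) D'.a]

/-- the collar rotations -/
def bpY (C S C' S' : ℝ) : Matrix BL BL ℂ := fun r c =>
  match r, c with
  | .inl (.inl (true, true)), .inl (.inl (true, true)) => 1
  | .inl (.inl (true, true)), .inl (.inr true) => S'
  | .inl (.inl (true, true)), .inr true => S
  | .inl (.inl (true, false)), .inl (.inl (true, false)) => C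
  | .inl (.inl (false, true)), .inl (.inl (false, true)) => C'
  | .inl (.inl (false, false)), .inl (.inl (false, false)) => 1
  | .inl (.inr true), .inl (.inr true) => C'
  | .inl (.inr false), .inl (.inr false) => 1
  | .inl (.inr false), .inl (.inl (false, true)) => S'
  | .inr true, .inr true => C
  | .inr false, .inr false => 1
  | .inr false, .inl (.inl (true, false)) => S
  | _, _ => 0

theorem bpV_eq (D D' : BDat) : bpV D D' = bpY D.C D.S D'.C D'.S * bpV0 D D' := by
  ext r c
  rw [Matrix.mul_apply, Fintype.sum_sum_type, Fintype.sum_sum_type, Fintype.sum_prod_type]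
  simp only [Fintype.sum_bool]
  rcases r with ((⟨i, j⟩ | i) | i)
  · cases i <;> cases j <;> fin_cases c <;> (simp [bpV, bpY, bpV0] <;> ring)
  · cases i <;> fin_cases c <;> (simp [bpV, bpY, bpV0]; try ring)
  · cases i <;> fin_cases c <;> (simp [bpV, bpY, bpV0]; try ring)

/-- the projection onto the line of `(a, b)` -/
def BDat.A (D : BDat) : Matrix Bool Bool ℂ :=
  Matrix.vecMulVec (fun i => cond i D.a D.b) (fun i => cond i ((starRingEnd ℂ) D.a) D.b)

/-- block sum of three matrices -/
def bpB (M N : Matrix Bool Bool ℂ) (M' N' : Matrix Bool Bool ℂ) : Matrix BL BL ℂ :=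
  Matrix.fromBlocks (Matrix.fromBlocks (kroneckerMap (· * ·) M N) 0 0 M') 0 0 N'

theorem bpB_mul (M N M' N' P Q P' Q' : Matrix Bool Bool ℂ) :
    bpB M N M' N' * bpB P Q P' Q' = bpB (M * P) (N * Q) (M' * P') (N' * Q') := by
  unfold bpB
  rw [Matrix.fromBlocks_multiply, Matrix.fromBlocks_multiply, Matrix.mul_kronecker_mul]
  simp

theorem bpB_star (M N M' N' : Matrix Bool Bool ℂ) :
    (bpB M N M' N')ᴴ = bpB Mᴴ Nᴴ M'ᴴ N'ᴴ := by
  unfold bpB
  rw [Matrix.fromBlocks_conjTranspose, Matrix.fromBlocks_conjTranspose,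
    Matrix.conjTranspose_kronecker]
  simp

theorem bpV0_proj (D D' : BDat) : bpV0 D D' * (bpV0 D D')ᴴ =
    bpB D.A D'.A (1 - D.A) (1 - D'.A) := by
  have h1 := D.hab
  have h2 := D'.hab
  ext r c
  rw [Matrix.mul_apply, Fin.sum_univ_three]
  rcases r with ((⟨i, j⟩ | i) | i) <;> rcases c with ((⟨k, l⟩ | k) | k)
  · cases i <;> cases j <;> cases k <;> cases l <;>
      simp [bpV0, bpB, BDat.A, Matrix.vecMulVec_apply] <;> ring
  · cases i <;> cases j <;> cases k <;> simp [bpV0, bpB]
  · cases i <;> cases j <;> cases k <;> simp [bpV0, bpB]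
  · cases i <;> cases k <;> cases l <;> simp [bpV0, bpB]
  · cases i <;> cases k <;> simp [bpV0, bpB, BDat.A, Matrix.vecMulVec_apply] <;>
      first | ring1 | linear_combination h1
  · cases i <;> cases k <;> simp [bpV0, bpB]
  · cases i <;> cases k <;> cases l <;> simp [bpV0, bpB]
  · cases i <;> cases k <;> simp [bpV0, bpB]
  · cases i <;> cases k <;> simp [bpV0, bpB, BDat.A, Matrix.vecMulVec_apply] <;>
      first | ring1 | linear_combination h2

theorem BDat.A_star (D : BDat) : D.Aᴴ = D.A := by
  ext i j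
  cases i <;> cases j <;> simp [BDat.A, Matrix.vecMulVec_apply, mul_comm]

theorem BDat.A_mul (D : BDat) : D.A * D.A = D.A := by
  have h := D.hab
  ext i j
  rw [Matrix.mul_apply, Fintype.sum_bool]
  cases i <;> cases j <;> simp [BDat.A, Matrix.vecMulVec_apply]
  · linear_combination D.b * D.b * h
  · linear_combination D.b * (starRingEnd ℂ) D.a * h
  · linear_combination D.a * D.b * h
  · linear_combination D.a * (starRingEnd ℂ) D.a * h

/-- the partial isometry -/
def bpW (D D' : BDat) (u u' P Q : Matrix Bool Bool ℂ) : Matrix BL BL ℂ :=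
  bpY D.C D.S D'.C D'.S * (bpB u u' u u' * bpB P Q (1 - P) (1 - Q))

theorem bpB_one : bpB 1 1 1 1 = 1 := by
  unfold bpB
  rw [Matrix.one_kronecker_one, Matrix.fromBlocks_one, Matrix.fromBlocks_one]

theorem bpW_spec (D D' : BDat) {u u' P Q : Matrix Bool Bool ℂ} (hu : uᴴ * u = 1)
    (hu' : u'ᴴ * u' = 1) (hP : u * P = D.A * u) (hQ : u' * Q = D'.A * u') :
    (bpW D D' u u' P Q)ᴴ * bpW D D' u u' P Q = bpB P Q (1 - P) (1 - Q) ∧
    bpW D D' u u' P Q * (bpW D D' u u' P Q)ᴴ = bpV D D' * (bpV D D')ᴴ := by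
  have e1 : bpB u u' u u' * bpB P Q (1 - P) (1 - Q) =
      bpB D.A D'.A (1 - D.A) (1 - D'.A) * bpB u u' u u' := by
    rw [bpB_mul, bpB_mul, hP, hQ, Matrix.mul_sub, Matrix.mul_sub, hP, hQ, Matrix.sub_mul,
      Matrix.sub_mul, Matrix.mul_one, Matrix.mul_one, Matrix.one_mul, Matrix.one_mul]
  have e2 : (bpB u u' u u')ᴴ * bpB u u' u u' = 1 := by
    rw [bpB_star, bpB_mul, hu, hu', bpB_one]
  have e3 : bpB u u' u u' * (bpB u u' u u')ᴴ = 1 := mul_eq_one_comm.1 e2
  have e4 : bpW D D' u u' P Q = bpV D D' * ((bpV0 D D')ᴴ * bpB u u' u u') := by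
    unfold bpW
    rw [e1, ← bpV0_proj, bpV_eq]
    simp only [Matrix.mul_assoc]
  have e5 : (bpV0 D D' * (bpV0 D D')ᴴ) * (bpV0 D D' * (bpV0 D D')ᴴ) =
      bpV0 D D' * (bpV0 D D')ᴴ := by
    rw [bpV0_proj, bpB_mul, D.A_mul, D'.A_mul]
    congr 1
    · rw [Matrix.mul_sub, Matrix.sub_mul, Matrix.sub_mul, D.A_mul]
      simp
    · rw [Matrix.mul_sub, Matrix.sub_mul, Matrix.sub_mul, D'.A_mul]
      simp
  constructor
  · rw [e4]
    rw [Matrix.conjTranspose_mul, Matrix.mul_assoc, ← Matrix.mul_assoc (bpV D D')ᴴ, bpV_iso,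
      Matrix.one_mul, Matrix.conjTranspose_mul, Matrix.conjTranspose_conjTranspose,
      Matrix.mul_assoc, ← Matrix.mul_assoc (bpV0 D D'), bpV0_proj, ← e1, ← Matrix.mul_assoc, e2,
      Matrix.one_mul]
  · rw [e4]
    calc bpV D D' * ((bpV0 D D')ᴴ * bpB u u' u u') *
        (bpV D D' * ((bpV0 D D')ᴴ * bpB u u' u u'))ᴴ
        = bpV D D' * (bpV0 D D')ᴴ * (bpB u u' u u' * (bpB u u' u u')ᴴ) * bpV0 D D' *
          (bpV D D')ᴴ := by
          simp only [Matrix.conjTranspose_mul, Matrix.conjTranspose_conjTranspose,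
            Matrix.mul_assoc]
      _ = bpY D.C D.S D'.C D'.S * ((bpV0 D D' * (bpV0 D D')ᴴ) *
          (bpV0 D D' * (bpV0 D D')ᴴ)) * (bpY D.C D.S D'.C D'.S)ᴴ := by
          rw [e3, Matrix.mul_one, bpV_eq]
          simp only [Matrix.conjTranspose_mul, Matrix.mul_assoc]
      _ = _ := by
          rw [e5, bpV_eq]
          simp only [Matrix.conjTranspose_mul, Matrix.mul_assoc]

/-! ## The frame in `ℂ^10` -/

/-- the rows -/
def bpRow : Fin 5 × Bool ≃ BL ⊕ Fin 2 where
  toFun x := match x with
    | (0, true) => .inl (.inl (.inl (true, true)))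
    | (0, false) => .inl (.inl (.inl (true, false)))
    | (1, true) => .inl (.inl (.inr false))
    | (1, false) => .inl (.inl (.inl (false, true)))
    | (2, true) => .inl (.inr false)
    | (2, false) => .inl (.inl (.inl (false, false)))
    | (3, true) => .inr 0
    | (3, false) => .inl (.inl (.inr true))
    | (4, true) => .inr 1
    | (4, false) => .inl (.inr true)
  invFun x := match x with
    | .inl (.inl (.inl (true, true))) => (0, true)
    | .inl (.inl (.inl (true, false))) => (0, false)
    | .inl (.inl (.inr false)) => (1, true)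
    | .inl (.inl (.inl (false, true))) => (1, false)
    | .inl (.inr false) => (2, true)
    | .inl (.inl (.inl (false, false))) => (2, false)
    | .inr 0 => (3, true)
    | .inl (.inl (.inr true)) => (3, false)
    | .inr 1 => (4, true)
    | .inl (.inr true) => (4, false)
  left_inv := by decide
  right_inv := by decide

/-- the columns -/
def bpCol : Fin 5 ≃ Fin 3 ⊕ Fin 2 where
  toFun x := match x with
    | 0 => .inl 0
    | 1 => .inl 1
    | 2 => .inl 2
    | 3 => .inr 0
    | 4 => .inr 1
  invFun x := match x with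
    | .inl 0 => 0
    | .inl 1 => 1
    | .inl 2 => 2
    | .inr 0 => 3
    | .inr 1 => 4
  left_inv := by decide
  right_inv := by decide

/-- the frame as a matrix -/
def bpM (D D' : BDat) : Matrix (Fin 5 × Bool) (Fin 5) ℂ :=
  (Matrix.fromBlocks (bpV D D') 0 0 1).submatrix bpRow bpCol

theorem bpM_iso (D D' : BDat) : (bpM D D')ᴴ * bpM D D' = 1 := by
  unfold bpM
  rw [conjTranspose_submatrix, submatrix_mul_equiv, fromBlocks_conjTranspose,
    fromBlocks_multiply, bpV_iso]
  simp

theorem bpM_proj (D D' : BDat) : bpM D D' * (bpM D D')ᴴ =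
    (Matrix.fromBlocks (bpV D D' * (bpV D D')ᴴ) 0 0 1).submatrix bpRow bpRow := by
  unfold bpM
  rw [conjTranspose_submatrix, submatrix_mul_equiv, fromBlocks_conjTranspose,
    fromBlocks_multiply]
  simp

open Pool.Agent.Helper4.Stab

/-- the frame of an isometry -/
def bpFr {k : ℕ} (V : Matrix (Fin k × Bool) (Fin k) ℂ) (hV : Vᴴ * V = 1) : Frame k :=
  ⟨fr V, fun i j h => fr_out V h, by
    intro j hj j' hj'
    have h1 := congrFun (congrFun hV ⟨j, hj⟩) ⟨j', hj'⟩
    rw [Matrix.mul_apply, Matrix.one_apply] at h1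
    simp only [Fin.mk.injEq, Matrix.conjTranspose_apply] at h1
    rw [← h1, ← sum_rows (k := k)]
    refine Finset.sum_congr rfl fun x _ => ?_
    rw [fr_row V x j hj, fr_row V x j' hj']⟩

theorem mat_bpFr {k : ℕ} (V : Matrix (Fin k × Bool) (Fin k) ℂ) (hV : Vᴴ * V = 1) :
    mat (bpFr V hV) = V := by
  ext x c
  exact fr_row V x c c.2

theorem bp_rel {k : ℕ} {D : Set ℂ} {A B : Frame k} (g : Matrix (Fin k) (Fin k) ℂ)
    (hg : g ∈ Matrix.unitaryGroup (Fin k) ℂ) (hd : g.det ∈ D) (h : mat B = mat A * g) :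
    FrameRel D k A B := by
  refine ⟨g, hg, hd, fun i j => ?_⟩
  by_cases hi : i < 2 * k
  · have h1 := congrFun (congrFun h (cr i hi)) j
    rw [Matrix.mul_apply] at h1
    have h2 : ∀ (C : Frame k) (l : Fin k), mat C (cr i hi) l = C.1 i l := by
      intro C l
      show C.1 (rw' (cr i hi)) l = _
      rw [rw'_cr]
    rw [h2] at h1
    rw [h1]
    refine Finset.sum_congr rfl fun l _ => ?_
    rw [h2]
  · have h1 : ∀ (C : Frame k) (l : Fin k), C.1 i l = 0 := by
      intro C l
      rw [C.2.1 i l (Or.inl (by omega)), if_neg]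
      have := l.2
      omega
    rw [h1 B j]
    symm
    refine Finset.sum_eq_zero fun l _ => ?_
    rw [h1 A l, zero_mul]

/-- the frame of the Bott product -/
def bpF (D D' : BDat) : Frame 5 := bpFr (bpM D D') (bpM_iso D D')

/-- the point of the boundary -/
def BDat.pt : BDat := ⟨1, 0, 0, 1, by simp, by simp, by simp⟩

theorem mat_std5 : mat (Frame.std 5) = bpM BDat.pt BDat.pt := by
  ext ⟨i, b⟩ j
  show (if rw' (i, b) = 2 * (j : ℕ) then (1 : ℂ) else 0) = _
  fin_cases i <;> cases b <;> fin_cases j <;> simp [rw', bpM, bpRow, bpCol, bpV, BDat.pt]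

/-- the boundary condition -/
def BDat.bd (D : BDat) : Prop := D.b = 0 ∧ D.C = 0 ∧ D.S = 1

/-- the rotation on the boundary -/
def bpG (D D' : BDat) : Matrix (Fin 3) (Fin 3) ℂ :=
  !![D.a * D'.a, -(D'.S * D.b), -(D.S * D'.b);
     D'.S * D.b * D'.a, (starRingEnd ℂ) D.a, 0;
     D.S * D.a * D'.b, 0, (starRingEnd ℂ) D'.a]

theorem bpV_bd (D D' : BDat) (h : D.bd ∨ D'.bd) :
    bpV D D' = bpV BDat.pt BDat.pt * bpG D D' := by
  ext r c
  rw [Matrix.mul_apply, Fin.sum_univ_three]
  rcases h with ⟨h1, h2, h3⟩ | ⟨h1, h2, h3⟩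
  · rcases r with ((⟨i, j⟩ | i) | i)
    · cases i <;> cases j <;> fin_cases c <;> simp [bpV, bpG, BDat.pt, h1, h2, h3]
    · cases i <;> fin_cases c <;> simp [bpV, bpG, BDat.pt, h1, h3]
    · cases i <;> fin_cases c <;> simp [bpV, bpG, BDat.pt, h1, h2, h3]
  · rcases r with ((⟨i, j⟩ | i) | i)
    · cases i <;> cases j <;> fin_cases c <;> simp [bpV, bpG, BDat.pt, h1, h2, h3]
    · cases i <;> fin_cases c <;> simp [bpV, bpG, BDat.pt, h1, h2, h3]
    · cases i <;> fin_cases c <;> simp [bpV, bpG, BDat.pt, h1, h3]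

theorem bpG_det (D D' : BDat) (h : D.bd ∨ D'.bd) : (bpG D D').det = 1 := by
  have e1 := D.hab
  have e2 := D'.hab
  rw [Matrix.det_fin_three]
  rcases h with ⟨h1, h2, h3⟩ | ⟨h1, h2, h3⟩
  · simp [bpG, h1, h3] at e1 ⊢
    linear_combination (D'.a * (starRingEnd ℂ) D'.a + (D'.b : ℂ) * D'.b) * e1 + e2
  · simp [bpG, h1, h3] at e2 ⊢
    linear_combination (D.a * (starRingEnd ℂ) D.a + (D.b : ℂ) * D.b) * e2 + e1

theorem bpG_iso (D D' : BDat) (h : D.bd ∨ D'.bd) : (bpG D D')ᴴ * bpG D D' = 1 := by
  have h1 := bpV_iso D D'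
  rw [bpV_bd D D' h, conjTranspose_mul, Matrix.mul_assoc, ← Matrix.mul_assoc (bpV _ _)ᴴ, bpV_iso,
    Matrix.one_mul] at h1
  exact h1

theorem bpF_bd (D D' : BDat) (h : D.bd ∨ D'.bd) : FrameRel {1} 5 (Frame.std 5) (bpF D D') := by
  refine bp_rel ((fromBlocks (bpG D D') 0 0 1).submatrix bpCol bpCol) ?_ ?_ ?_
  · rw [Matrix.mem_unitaryGroup_iff']
    show ((fromBlocks (bpG D D') 0 0 1).submatrix bpCol bpCol)ᴴ * _ = 1
    rw [conjTranspose_submatrix, submatrix_mul_equiv, fromBlocks_conjTranspose,
      fromBlocks_multiply, bpG_iso D D' h]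
    simp
  · rw [Matrix.det_submatrix_equiv_self, Matrix.det_fromBlocks_zero₂₁, bpG_det D D' h]
    simp
  · rw [mat_std5]
    show mat (bpFr _ _) = _
    rw [mat_bpFr]
    unfold bpM
    rw [submatrix_mul_equiv, fromBlocks_multiply, bpV_bd D D' h]
    simp

/-! ## Continuity -/

/-- continuous families of data -/
structure BDat.Cont {X : Type} [TopologicalSpace X] (D : X → BDat) : Prop where
  a : Continuous fun x => (D x).a
  b : Continuous fun x => (D x).b
  C : Continuous fun x => (D x).C
  S : Continuous fun x => (D x).S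

theorem continuous_bpV {X : Type} [TopologicalSpace X] {D D' : X → BDat} (h : BDat.Cont D)
    (h' : BDat.Cont D') : Continuous fun x => bpV (D x) (D' x) := by
  have h1 := h.a
  have h2 := Complex.continuous_ofReal.comp h.b
  have h3 := Complex.continuous_ofReal.comp h.C
  have h4 := Complex.continuous_ofReal.comp h.S
  have h1' := h'.a
  have h2' := Complex.continuous_ofReal.comp h'.b
  have h3' := Complex.continuous_ofReal.comp h'.C
  have h4' := Complex.continuous_ofReal.comp h'.S
  have h5 := Complex.continuous_conj.comp h1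
  have h5' := Complex.continuous_conj.comp h1'
  refine continuous_matrix fun r c => ?_
  rcases r with ((⟨i, j⟩ | i) | i)
  · cases i <;> cases j <;> fin_cases c
    · exact h2.mul h2'
    · exact continuous_const
    · exact continuous_const
    · exact (h3'.mul h2).mul h1'
    · exact continuous_const
    · exact continuous_const
    · exact (h3.mul h1).mul h2'
    · exact continuous_const
    · exact continuous_const
    · exact h1.mul h1'
    · exact (h4'.mul h2).neg
    · exact (h4.mul h2').neg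
  · cases i <;> fin_cases c
    · exact (h4'.mul h2).mul h1'
    · exact h5
    · exact continuous_const
    · exact continuous_const
    · exact (h3'.mul h2).neg
    · exact continuous_const
  · cases i <;> fin_cases c
    · exact (h4.mul h1).mul h2'
    · exact continuous_const
    · exact h5'
    · exact continuous_const
    · exact continuous_const
    · exact (h3.mul h2').neg

theorem continuous_bpF {X : Type} [TopologicalSpace X] {D D' : X → BDat} (h : BDat.Cont D)
    (h' : BDat.Cont D') : Continuous fun x => bpF (D x) (D' x) := by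
  refine Continuous.subtype_mk ?_ _
  refine continuous_pi fun i => continuous_pi fun j => ?_
  unfold fr
  by_cases hij : i < 2 * 5 ∧ j < 5
  · simp only [dif_pos hij]
    have h1 : Continuous fun x => bpM (D x) (D' x) :=
      ((continuous_bpV h h').matrix_fromBlocks continuous_const continuous_const
        continuous_const).matrix_submatrix _ _
    exact h1.matrix_elem _ _
  · simp only [dif_neg hij]
    exact continuous_const

theorem continuous_bpY {X : Type} [TopologicalSpace X] {C S C' S' : X → ℝ} (hC : Continuous C)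
    (hS : Continuous S) (hC' : Continuous C') (hS' : Continuous S') :
    Continuous fun x => bpY (C x) (S x) (C' x) (S' x) := by
  have h1 := Complex.continuous_ofReal.comp hC
  have h2 := Complex.continuous_ofReal.comp hS
  have h1' := Complex.continuous_ofReal.comp hC'
  have h2' := Complex.continuous_ofReal.comp hS'
  refine continuous_matrix fun r c => ?_
  rcases r with ((⟨i, j⟩ | i) | i) <;> rcases c with ((⟨k, l⟩ | k) | k)
  · cases i <;> cases j <;> cases k <;> cases l <;>
      first | exact continuous_const | exact h1 | exact h1'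
  · cases i <;> cases j <;> cases k <;> first | exact continuous_const | exact h2'
  · cases i <;> cases j <;> cases k <;> first | exact continuous_const | exact h2
  · cases i <;> cases k <;> cases l <;> first | exact continuous_const | exact h2'
  · cases i <;> cases k <;> first | exact continuous_const | exact h1'
  · cases i <;> cases k <;> exact continuous_const
  · cases i <;> cases k <;> cases l <;> first | exact continuous_const | exact h2
  · cases i <;> cases k <;> exact continuous_const
  · cases i <;> cases k <;> first | exact continuous_const | exact h1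

theorem continuous_bpB {X : Type} [TopologicalSpace X] {M N M' N' : X → Matrix Bool Bool ℂ}
    (h1 : Continuous M) (h2 : Continuous N) (h3 : Continuous M') (h4 : Continuous N') :
    Continuous fun x => bpB (M x) (N x) (M' x) (N' x) := by
  refine Continuous.matrix_fromBlocks (Continuous.matrix_fromBlocks ?_ continuous_const
    continuous_const h3) continuous_const continuous_const h4
  refine continuous_matrix fun p q => ?_
  exact (h1.matrix_elem _ _).mul (h2.matrix_elem _ _)

end Pool.Agent.Helper19.Stab
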