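import Pool.Agent.Helper19.Stab.BP2

/-! The unitary matrices over `ℂP¹` of the Bott product. -/

open Topology Filter Set Matrix

noncomputable section

namespace Pool.Agent.Helper19.Stab

open Pool.Agent.Helper1.Stab

/-- the radius is at least one half -/
def bpMx (d : ℂ) : ℝ := max ‖d‖ (1 / 2)

theorem bpMx_pos (d : ℂ) : 0 < bpMx d := lt_of_lt_of_le (by norm_num) (le_max_right _ _)

theorem norm_bp_a (d : ℂ) : ‖d / (bpMx d : ℂ)‖ = ‖d‖ / bpMx d := by
  rw [norm_div, Complex.norm_real, Real.norm_eq_abs, abs_of_pos (bpMx_pos d)]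

theorem norm_bp_a_le (d : ℂ) : ‖d / (bpMx d : ℂ)‖ ≤ 1 := by
  rw [norm_bp_a, div_le_one (bpMx_pos d)]
  exact le_max_left _ _

theorem norm_bp_a_eq {d : ℂ} (h : 1 / 2 ≤ ‖d‖) : ‖d / (bpMx d : ℂ)‖ = 1 := by
  rw [norm_bp_a]
  unfold bpMx
  rw [max_eq_left h, div_self (by linarith)]

/-- the datum of a point of the disc -/
def bpD (d : ℂ) : BDat where
  a := d / (bpMx d : ℂ)
  b := Real.sqrt (1 - ‖d / (bpMx d : ℂ)‖ ^ 2)
  C := Real.cos (Real.pi / 2 * max 0 (2 * ‖d‖ - 1))
  S := Real.sin (Real.pi / 2 * max 0 (2 * ‖d‖ - 1))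
  hab := by
    have h := norm_bp_a_le d
    rw [Complex.mul_conj', ← Complex.ofReal_mul, Real.mul_self_sqrt]
    · push_cast
      ring
    · nlinarith [norm_nonneg (d / (bpMx d : ℂ))]
  hCS := PJ2.cos_sin _
  hSb := by
    rcases le_total ‖d‖ (1 / 2) with h | h
    · rw [max_eq_left (by linarith), mul_zero, Real.sin_zero]
      simp
    · rw [norm_bp_a_eq h]
      simp

theorem bpD_bd {d : ℂ} (h : ‖d‖ = 1) : (bpD d).bd := by
  refine ⟨?_, ?_, ?_⟩
  · show Real.sqrt (1 - ‖d / (bpMx d : ℂ)‖ ^ 2) = 0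
    rw [norm_bp_a_eq (by rw [h]; norm_num)]
    simp
  · show Real.cos (Real.pi / 2 * max 0 (2 * ‖d‖ - 1)) = 0
    rw [h]
    norm_num
  · show Real.sin (Real.pi / 2 * max 0 (2 * ‖d‖ - 1)) = 1
    rw [h]
    norm_num

theorem BDat.A_of_b {D : BDat} (h : D.b = 0) : D.A = BDat.pt.A := by
  have h1 := D.hab
  rw [h] at h1
  ext i j
  cases i <;> cases j <;> simp [BDat.A, Matrix.vecMulVec_apply, h, BDat.pt]
  simpa using h1

theorem bpD_A {d : ℂ} (h : 1 / 2 ≤ ‖d‖) : (bpD d).A = BDat.pt.A := by
  refine BDat.A_of_b ?_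
  show Real.sqrt (1 - ‖d / (bpMx d : ℂ)‖ ^ 2) = 0
  rw [norm_bp_a_eq h]
  simp

theorem bpD_cont {X : Type} [TopologicalSpace X] {d : X → ℂ} (hd : Continuous d) :
    BDat.Cont fun x => bpD (d x) := by
  have h1 : Continuous fun x => bpMx (d x) := hd.norm.max continuous_const
  have h2 : Continuous fun x => d x / (bpMx (d x) : ℂ) := by
    refine hd.div (Complex.continuous_ofReal.comp h1) fun x => ?_
    have := bpMx_pos (d x)
    exact_mod_cast this.ne'
  have h3 : Continuous fun x => Real.pi / 2 * max 0 (2 * ‖d x‖ - 1) :=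
    continuous_const.mul (continuous_const.max ((continuous_const.mul hd.norm).sub
      continuous_const))
  exact ⟨h2, Real.continuous_sqrt.comp (continuous_const.sub (h2.norm.pow 2)),
    Real.continuous_cos.comp h3, Real.continuous_sin.comp h3⟩

theorem BDat.Cont.A {X : Type} [TopologicalSpace X] {D : X → BDat} (h : BDat.Cont D) :
    Continuous fun x => (D x).A := by
  have h1 := h.a
  have h2 := Complex.continuous_ofReal.comp h.b
  have h3 := Complex.continuous_conj.comp h1
  refine continuous_matrix fun i j => ?_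
  cases i <;> cases j
  · exact h2.mul h2
  · exact h2.mul h3
  · exact h1.mul h2
  · exact h1.mul h3

/-! ## Points of `ℂ` -/

/-- the point of the square of a complex number -/
def bpSq (z : ℂ) : Fin 2 → unitInterval := ![squash z.re, squash z.im]

theorem continuous_bpSq : Continuous bpSq := by
  refine continuous_pi fun i => ?_
  fin_cases i
  · exact LoopAux.continuous_squash'.comp Complex.continuous_re
  · exact LoopAux.continuous_squash'.comp Complex.continuous_im

theorem two_squash (t : ℝ) : 2 * ((squash t : unitInterval) : ℝ) - 1 = t / (1 + |t|) := by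
  have hs : ((squash t : unitInterval) : ℝ) = (1 + t / (1 + |t|)) / 2 := rfl
  rw [hs]
  ring

theorem abs_two_squash (t : ℝ) : |2 * ((squash t : unitInterval) : ℝ) - 1| = |t| / (1 + |t|) := by
  rw [two_squash, abs_div, abs_of_pos (by positivity : 0 < 1 + |t|)]

theorem norm_bpSq (z : ℂ) : ‖disc (bpSq z)‖ = max (|z.re| / (1 + |z.re|)) (|z.im| / (1 + |z.im|)) := by
  rw [norm_disc]
  show max |2 * ((squash z.re : unitInterval) : ℝ) - 1| |2 * ((squash z.im : unitInterval) : ℝ) - 1|
    = _
  rw [abs_two_squash, abs_two_squash]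

theorem norm_bpSq_ge (z : ℂ) : 1 - (1 + ‖z‖ / 2)⁻¹ ≤ ‖disc (bpSq z)‖ := by
  rw [norm_bpSq]
  have h0 : ‖z‖ ≤ |z.re| + |z.im| := Complex.norm_le_abs_re_add_abs_im z
  have key : ∀ t : ℝ, ‖z‖ / 2 ≤ |t| → 1 - (1 + ‖z‖ / 2)⁻¹ ≤ |t| / (1 + |t|) := by
    intro t ht
    have h1 : 0 < 1 + |t| := by positivity
    have h2 : |t| / (1 + |t|) = 1 - (1 + |t|)⁻¹ := by
      field_simp
      ring
    rw [h2]
    have h3 : (1 + |t|)⁻¹ ≤ (1 + ‖z‖ / 2)⁻¹ := by
      apply inv_anti₀ (by positivity)
      linarith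
    linarith
  rcases le_total |z.re| |z.im| with h | h
  · exact (key z.im (by linarith)).trans (le_max_right _ _)
  · exact (key z.re (by linarith)).trans (le_max_left _ _)

theorem tendsto_norm_bpSq : Tendsto (fun z : ℂ => ‖disc (bpSq z)‖) (coclosedCompact ℂ) (𝓝 1) := by
  rw [coclosedCompact_eq_cocompact]
  have h1 : Tendsto (fun z : ℂ => 1 - (1 + ‖z‖ / 2)⁻¹) (cocompact ℂ) (𝓝 (1 - 0)) := by
    refine tendsto_const_nhds.sub ?_
    refine tendsto_inv_atTop_zero.comp ?_
    refine tendsto_atTop_add_const_left _ _ ?_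
    exact (tendsto_norm_cocompact_atTop (E := ℂ)).atTop_div_const (by norm_num)
  rw [sub_zero] at h1
  exact tendsto_of_tendsto_of_tendsto_of_le_of_le h1 tendsto_const_nhds norm_bpSq_ge
    fun z => disc_le_one _

/-- the datum of a point of the sphere -/
def bpO (z : OnePoint ℂ) : BDat := OnePoint.elim z BDat.pt fun z => bpD (disc (bpSq z))

theorem bpO_A_cont : Continuous fun z : OnePoint ℂ => (bpO z).A := by
  rw [OnePoint.continuous_iff]
  constructor
  · refine tendsto_const_nhds.congr' ?_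
    have h1 : ∀ᶠ z : ℂ in coclosedCompact ℂ, 1 / 2 < ‖disc (bpSq z)‖ :=
      tendsto_norm_bpSq.eventually (lt_mem_nhds (by norm_num))
    filter_upwards [h1] with z hz
    exact (bpD_A hz.le).symm
  · exact (bpD_cont (continuous_disc.comp continuous_bpSq)).A

theorem bpO_C_cont : Continuous fun z : OnePoint ℂ => (bpO z).C := by
  rw [OnePoint.continuous_iff]
  constructor
  · have h1 : Continuous fun t : ℝ => Real.cos (Real.pi / 2 * max 0 (2 * t - 1)) := by fun_prop
    have h2 := (h1.tendsto 1).comp tendsto_norm_bpSq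
    have h3 : Real.cos (Real.pi / 2 * max 0 (2 * 1 - 1)) = 0 := by norm_num
    rw [h3] at h2
    exact h2
  · exact (bpD_cont (continuous_disc.comp continuous_bpSq)).C

theorem bpO_S_cont : Continuous fun z : OnePoint ℂ => (bpO z).S := by
  rw [OnePoint.continuous_iff]
  constructor
  · have h1 : Continuous fun t : ℝ => Real.sin (Real.pi / 2 * max 0 (2 * t - 1)) := by fun_prop
    have h2 := (h1.tendsto 1).comp tendsto_norm_bpSq
    have h3 : Real.sin (Real.pi / 2 * max 0 (2 * 1 - 1)) = 1 := by norm_num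
    rw [h3] at h2
    exact h2
  · exact (bpD_cont (continuous_disc.comp continuous_bpSq)).S

theorem bp_re_pos (z : ℂ) : 0 < ((starRingEnd ℂ) (bpD (disc (bpSq z))).a * z).re +
    (bpD (disc (bpSq z))).b := by
  set v : ℂ := ⟨z.re / (1 + |z.re|), z.im / (1 + |z.im|)⟩ with hv
  have hd : disc (bpSq z) = ((max |v.re| |v.im| / ‖v‖ : ℝ) : ℂ) * v := by
    have h1 : (⟨2 * ((bpSq z 0 : unitInterval) : ℝ) - 1, 2 * ((bpSq z 1 : unitInterval) : ℝ) - 1⟩ : ℂ)
        = v := by
      show (⟨2 * ((squash z.re : unitInterval) : ℝ) - 1,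
        2 * ((squash z.im : unitInterval) : ℝ) - 1⟩ : ℂ) = v
      rw [two_squash, two_squash]
    unfold disc
    rw [h1]
  have h1 : 0 < 1 + |z.re| := by positivity
  have h2 : 0 < 1 + |z.im| := by positivity
  rcases eq_or_ne z 0 with rfl | hz
  · have hv0 : v = 0 := by
      rw [hv]
      apply Complex.ext <;> simp
    rw [hv0, mul_zero] at hd
    show 0 < ((starRingEnd ℂ) (disc (bpSq 0) / (bpMx (disc (bpSq 0)) : ℂ)) * 0).re +
      Real.sqrt (1 - ‖disc (bpSq 0) / (bpMx (disc (bpSq 0)) : ℂ)‖ ^ 2)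
    rw [hd]
    simp
  · have hb : 0 ≤ (bpD (disc (bpSq z))).b := Real.sqrt_nonneg _
    have hv0 : v ≠ 0 := by
      intro h
      apply hz
      have h3 := congrArg Complex.re h
      have h4 := congrArg Complex.im h
      simp only [hv, Complex.zero_re, Complex.zero_im, div_eq_zero_iff] at h3 h4
      apply Complex.ext
      · exact h3.resolve_right h1.ne'
      · exact h4.resolve_right h2.ne'
    have hm : 0 < max |v.re| |v.im| := by
      rw [lt_max_iff]
      by_contra hc
      push Not at hc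
      apply hv0
      apply Complex.ext
      · exact abs_nonpos_iff.1 hc.1
      · exact abs_nonpos_iff.1 hc.2
    have hc : 0 < max |v.re| |v.im| / ‖v‖ / bpMx (disc (bpSq z)) :=
      div_pos (div_pos hm (norm_pos_iff.2 hv0)) (bpMx_pos _)
    have ha : (bpD (disc (bpSq z))).a =
        ((max |v.re| |v.im| / ‖v‖ / bpMx (disc (bpSq z)) : ℝ) : ℂ) * v := by
      show disc (bpSq z) / (bpMx (disc (bpSq z)) : ℂ) = _
      conv_lhs => rw [show disc (bpSq z) / (bpMx (disc (bpSq z)) : ℂ) =
        (((max |v.re| |v.im| / ‖v‖ : ℝ) : ℂ) * v) / (bpMx (disc (bpSq z)) : ℂ) by rw [← hd]]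
      push_cast
      ring
    have hre : ((starRingEnd ℂ) (bpD (disc (bpSq z))).a * z).re =
        max |v.re| |v.im| / ‖v‖ / bpMx (disc (bpSq z)) *
          (z.re ^ 2 / (1 + |z.re|) + z.im ^ 2 / (1 + |z.im|)) := by
      rw [ha]
      generalize max |v.re| |v.im| / ‖v‖ / bpMx (disc (bpSq z)) = c
      rw [map_mul, Complex.conj_ofReal, mul_assoc, Complex.re_ofReal_mul]
      simp only [Complex.mul_re, Complex.conj_re, Complex.conj_im, hv]
      ring
    have hpos : 0 < z.re ^ 2 / (1 + |z.re|) + z.im ^ 2 / (1 + |z.im|) := by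
      by_contra hc'
      push Not at hc'
      have h5 : 0 ≤ z.re ^ 2 / (1 + |z.re|) := by positivity
      have h6 : 0 ≤ z.im ^ 2 / (1 + |z.im|) := by positivity
      have h7 : z.re ^ 2 / (1 + |z.re|) = 0 := by linarith
      have h8 : z.im ^ 2 / (1 + |z.im|) = 0 := by linarith
      apply hz
      apply Complex.ext
      · exact pow_eq_zero_iff (two_ne_zero) |>.1 ((div_eq_zero_iff.1 h7).resolve_right h1.ne')
      · exact pow_eq_zero_iff (two_ne_zero) |>.1 ((div_eq_zero_iff.1 h8).resolve_right h2.ne')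
    rw [hre]
    have := mul_pos hc hpos
    linarith

/-! ## The unitary matrices -/

theorem bp_rank1 {P : Matrix Bool Bool ℂ} (h1 : P.trace = 1) (h2 : P * P = P)
    (M : Matrix Bool Bool ℂ) : P * M * P = (M * P).trace • P := by
  rw [Matrix.trace, Fintype.sum_bool, Matrix.diag_apply, Matrix.diag_apply] at h1
  have h3 := congrFun (congrFun h2 true) true
  rw [Matrix.mul_apply, Fintype.sum_bool] at h3
  have h4 : P true false * P false true = P true true * P false false := by
    linear_combination h3 - P true true * h1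
  ext i j
  simp only [Matrix.mul_apply, Fintype.sum_bool, Matrix.trace, Matrix.diag_apply,
    Matrix.smul_apply, smul_eq_mul]
  cases i <;> cases j
  · linear_combination M true true * h4
  · linear_combination -M false true * h4
  · linear_combination -M true false * h4
  · linear_combination M false false * h4

theorem BDat.A_trace (D : BDat) : D.A.trace = 1 := by
  rw [Matrix.trace, Fintype.sum_bool, Matrix.diag_apply, Matrix.diag_apply]
  exact D.hab

theorem BDat.pt_bd : BDat.pt.bd := ⟨rfl, rfl, rfl⟩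

theorem bp_trace_pos (P : Pr Bool 1) : ∃ t : ℝ, 0 < t ∧ ((bpO (collP1 P)).A * P.1).trace = t := by
  obtain ⟨P, hP1, hP2, hP3⟩ := P
  have h1 : P true true + P false false = 1 := by
    rw [Matrix.trace, Fintype.sum_bool, Matrix.diag_apply, Matrix.diag_apply] at hP3
    rw [hP3]
    simp
  have hs : (starRingEnd ℂ) (P false false) = P false false := congrFun (congrFun hP1 false) false
  have hr : P false true = (starRingEnd ℂ) (P true false) := (congrFun (congrFun hP1 false) true).symm
  have h3 : P false true * P true false + P false false * P false false = P false false := by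
    have := congrFun (congrFun hP2 false) false
    rwa [Matrix.mul_apply, Fintype.sum_bool] at this
  have htr : ∀ A : Matrix Bool Bool ℂ, (A * P).trace = A true true * P true true +
      A true false * P false true + (A false true * P true false + A false false * P false false) := by
    intro A
    rw [Matrix.trace, Fintype.sum_bool]
    simp only [Matrix.diag_apply, Matrix.mul_apply, Fintype.sum_bool]
  by_cases h0 : P false false = 0
  · have e : collP1 (⟨P, hP1, hP2, hP3⟩ : Pr Bool 1) = OnePoint.infty := if_pos h0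
    rw [e]
    refine ⟨1, one_pos, ?_⟩
    rw [htr]
    rw [h0, add_zero] at h1
    show (BDat.pt.A) true true * P true true + BDat.pt.A true false * P false true +
      (BDat.pt.A false true * P true false + BDat.pt.A false false * P false false) = _
    simp [BDat.A, BDat.pt, Matrix.vecMulVec_apply, h1]
  · have e : collP1 (⟨P, hP1, hP2, hP3⟩ : Pr Bool 1) =
        ((P true false / P false false : ℂ) : OnePoint ℂ) := if_neg h0
    rw [e]
    obtain ⟨s, hs'⟩ := Complex.conj_eq_iff_real.1 hs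
    obtain ⟨z, hz⟩ : ∃ z, z = P true false / P false false := ⟨_, rfl⟩
    rw [← hz]
    have hq : P true false = z * s := by
      rw [hz, ← hs', div_mul_cancel₀ _ h0]
    have hs0 : s ≠ 0 := by
      rintro rfl
      apply h0
      rw [hs']
      simp
    have hsc : (s : ℂ) ≠ 0 := by exact_mod_cast hs0
    have hr' : P false true = (starRingEnd ℂ) z * s := by
      rw [hr, hq, map_mul, Complex.conj_ofReal]
    rw [hr', hq, hs'] at h3
    have h4 : (starRingEnd ℂ) z * z * s * s + s * s = s := by linear_combination h3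
    have h5 : (starRingEnd ℂ) z * z * s + s = 1 := by
      apply mul_right_cancel₀ hsc
      linear_combination h4
    have hp : P true true = z * (starRingEnd ℂ) z * s := by
      rw [hs'] at h1
      linear_combination h1 - h5
    have hspos : 0 < s := by
      rw [Complex.conj_mul'] at h5
      have h6 : ‖z‖ ^ 2 * s + s = 1 := by exact_mod_cast h5
      by_contra hc
      push Not at hc
      nlinarith [sq_nonneg ‖z‖]
    have hpos := bp_re_pos z
    set D := bpD (disc (bpSq z)) with hD
    refine ⟨s * ‖(starRingEnd ℂ) D.a * z + D.b‖ ^ 2, ?_, ?_⟩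
    · refine mul_pos hspos (pow_pos (norm_pos_iff.2 ?_) 2)
      intro h
      have h6 := congrArg Complex.re h
      rw [Complex.add_re, Complex.ofReal_re, Complex.zero_re] at h6
      linarith
    · rw [htr]
      show D.A true true * P true true + D.A true false * P false true +
        (D.A false true * P true false + D.A false false * P false false) = _
      have e1 : ((‖(starRingEnd ℂ) D.a * z + D.b‖ : ℝ) : ℂ) ^ 2 =
          ((starRingEnd ℂ) D.a * z + D.b) * (D.a * (starRingEnd ℂ) z + D.b) := by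
        rw [← Complex.mul_conj']
        simp
      push_cast
      rw [e1, hp, hr', hq, hs']
      show D.a * (starRingEnd ℂ) D.a * (z * (starRingEnd ℂ) z * s) + D.a * D.b *
        ((starRingEnd ℂ) z * s) + (D.b * (starRingEnd ℂ) D.a * (z * s) + D.b * D.b * s) = _
      ring

/-- the trace of `A P` -/
def bpT (P : Pr Bool 1) : ℝ := ((bpO (collP1 P)).A * P.1).trace.re

theorem bpT_eq (P : Pr Bool 1) : ((bpO (collP1 P)).A * P.1).trace = (bpT P : ℂ) := by
  obtain ⟨t, -, h⟩ := bp_trace_pos P
  unfold bpT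
  rw [h]
  simp

theorem bpT_pos (P : Pr Bool 1) : 0 < bpT P := by
  obtain ⟨t, h0, h⟩ := bp_trace_pos P
  unfold bpT
  rw [h]
  exact h0

/-- the unitary matrices -/
def bpU (P : Pr Bool 1) : Matrix Bool Bool ℂ :=
  (((Real.sqrt (bpT P))⁻¹ : ℝ) : ℂ) • ((bpO (collP1 P)).A * P.1 +
    (1 - (bpO (collP1 P)).A) * (1 - P.1))

theorem continuous_bpA : Continuous fun P : Pr Bool 1 => (bpO (collP1 P)).A :=
  bpO_A_cont.comp collP1.cont

theorem continuous_bpU : Continuous bpU := by
  have h1 := continuous_bpA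
  have h2 : Continuous fun P : Pr Bool 1 => P.1 := Pr.continuous_val69
  have h3 : Continuous bpT := Complex.continuous_re.comp (h1.matrix_mul h2).matrix_trace
  have e : bpU = fun P => (((Real.sqrt (bpT P))⁻¹ : ℝ) : ℂ) • ((bpO (collP1 P)).A * P.1 +
    (1 - (bpO (collP1 P)).A) * (1 - P.1)) := rfl
  rw [e]
  refine Continuous.fun_smul ?_ ?_
  · refine Complex.continuous_ofReal.comp (Continuous.inv₀ (Real.continuous_sqrt.comp h3) ?_)
    intro P
    exact (Real.sqrt_pos.2 (bpT_pos P)).ne'
  · exact (h1.matrix_mul h2).add ((continuous_const.sub h1).matrix_mul (continuous_const.sub h2))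

theorem bpU_mul (P : Pr Bool 1) : bpU P * P.1 = (bpO (collP1 P)).A * bpU P := by
  unfold bpU
  have h1 := P.2.2.1
  have h2 := (bpO (collP1 P)).A_mul
  have e1 : (1 - P.1) * P.1 = 0 := by
    rw [Matrix.sub_mul, h1, Matrix.one_mul, sub_self]
  have e2 : (bpO (collP1 P)).A * (1 - (bpO (collP1 P)).A) = 0 := by
    rw [Matrix.mul_sub, h2, Matrix.mul_one, sub_self]
  rw [Matrix.smul_mul, Matrix.mul_smul, Matrix.add_mul, Matrix.mul_add, Matrix.mul_assoc, h1,
    Matrix.mul_assoc (1 - _), e1, ← Matrix.mul_assoc _ (bpO (collP1 P)).A, h2,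
    ← Matrix.mul_assoc _ (1 - (bpO (collP1 P)).A), e2]
  simp

theorem bpU_star (P : Pr Bool 1) : (bpU P)ᴴ * bpU P = 1 := by
  set A := (bpO (collP1 P)).A with hA
  obtain ⟨t, ht⟩ : ∃ t, t = bpT P := ⟨_, rfl⟩
  have htr : (A * P.1).trace = (t : ℂ) := by
    rw [ht]
    exact bpT_eq P
  have ht0 : 0 < t := by
    rw [ht]
    exact bpT_pos P
  have hP1 := P.2.1
  have hP2 := P.2.2.1
  have hP3 : P.1.trace = 1 := by
    rw [P.2.2.2]
    simp
  have hA1 : Aᴴ = A := BDat.A_star _
  have hA2 : A * A = A := BDat.A_mul _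
  have hA3 : A.trace = 1 := BDat.A_trace _
  have hQ2 : (1 - P.1) * (1 - P.1) = 1 - P.1 := by
    rw [Matrix.mul_sub, Matrix.sub_mul, Matrix.sub_mul, hP2]
    simp
  have hQ3 : (1 - P.1).trace = 1 := by
    rw [Matrix.trace_sub, hP3]
    simp
    norm_num
  have hB2 : (1 - A) * (1 - A) = 1 - A := by
    rw [Matrix.mul_sub, Matrix.sub_mul, Matrix.sub_mul, hA2]
    simp
  have hAB : A * (1 - A) = 0 := by
    rw [Matrix.mul_sub, hA2, Matrix.mul_one, sub_self]
  have hBA : (1 - A) * A = 0 := by
    rw [Matrix.sub_mul, hA2, Matrix.one_mul, sub_self]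
  have hU : bpU P = (((Real.sqrt t)⁻¹ : ℝ) : ℂ) • (A * P.1 + (1 - A) * (1 - P.1)) := by
    rw [ht]
    rfl
  have e1 : P.1 * A * P.1 = (t : ℂ) • P.1 := by
    rw [bp_rank1 hP3 hP2, htr]
  have e2 : (1 - P.1) * (1 - A) * (1 - P.1) = (t : ℂ) • (1 - P.1) := by
    rw [bp_rank1 hQ3 hQ2]
    congr 1
    rw [Matrix.mul_sub, Matrix.sub_mul, Matrix.sub_mul, Matrix.mul_one, Matrix.mul_one,
      Matrix.one_mul, Matrix.trace_sub, Matrix.trace_sub, Matrix.trace_sub, htr, hA3, hP3]
    simp
    ring
  have e3 : (A * P.1 + (1 - A) * (1 - P.1))ᴴ * (A * P.1 + (1 - A) * (1 - P.1)) =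
      (t : ℂ) • (1 : Matrix Bool Bool ℂ) := by
    rw [Matrix.conjTranspose_add, Matrix.conjTranspose_mul, Matrix.conjTranspose_mul,
      Matrix.conjTranspose_sub, Matrix.conjTranspose_sub, Matrix.conjTranspose_one, hP1, hA1,
      Matrix.add_mul, Matrix.mul_add, Matrix.mul_add]
    have f1 : P.1 * A * (A * P.1) = (t : ℂ) • P.1 := by
      rw [Matrix.mul_assoc, ← Matrix.mul_assoc A, hA2, ← Matrix.mul_assoc, e1]
    have f2 : P.1 * A * ((1 - A) * (1 - P.1)) = 0 := by
      rw [Matrix.mul_assoc, ← Matrix.mul_assoc A, hAB]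
      simp
    have f3 : (1 - P.1) * (1 - A) * (A * P.1) = 0 := by
      rw [Matrix.mul_assoc, ← Matrix.mul_assoc (1 - A), hBA]
      simp
    have f4 : (1 - P.1) * (1 - A) * ((1 - A) * (1 - P.1)) = (t : ℂ) • (1 - P.1) := by
      rw [Matrix.mul_assoc, ← Matrix.mul_assoc (1 - A), hB2, ← Matrix.mul_assoc, e2]
    rw [f1, f2, f3, f4, add_zero, zero_add, ← smul_add]
    simp
  rw [hU, Matrix.conjTranspose_smul, Matrix.smul_mul, Matrix.mul_smul, e3, smul_smul, smul_smul]
  have e4 : star ((((Real.sqrt t)⁻¹ : ℝ) : ℂ)) * (((Real.sqrt t)⁻¹ : ℝ) : ℂ) * (t : ℂ) = 1 := by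
    rw [RCLike.star_def, Complex.conj_ofReal, ← Complex.ofReal_mul, ← Complex.ofReal_mul]
    have : (Real.sqrt t)⁻¹ * (Real.sqrt t)⁻¹ * t = 1 := by
      have h := Real.mul_self_sqrt ht0.le
      have h' := (Real.sqrt_pos.2 ht0).ne'
      field_simp
      nlinarith
    rw [this, Complex.ofReal_one]
  rw [e4, one_smul]

end Pool.Agent.Helper19.Stab
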