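import Pool.Agent.Helper68.Stab.LocStrict
import Pool.Agent.Helper68.Stab.Unstable

/-! Chains: iterated composites of `s × id`, permutations of coordinates and additional base
coordinates. A chain is determined up to homotopy by its type. -/

open Topology Filter Set

noncomputable section

namespace Pool.Agent.Helper1.Stab

/-- `ℂ^α × G κ` -/
abbrev LC.XX (α κ : Type) [Fintype α] [Fintype κ] : LC := (LC.cpow α).prod (LC.G κ)

section basic

variable {α β γ κ l m : Type} [Fintype α] [Fintype β] [Fintype γ] [Fintype κ] [Fintype l]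
  [Fintype m]

/-- renaming -/
def xre (p : α ≃ β) (q : κ ≃ l) : LC.XX α κ ≃ₜ LC.XX β l := (cperm p).prodCongr (GK.reindex q)

/-- renaming, as a map -/
def xr (p : α ≃ β) (q : κ ≃ l) : PMap (LC.XX α κ) (LC.XX β l).plus := PMap.ofHomeo (xre p q)

theorem xr_val (p : α ≃ β) (q : κ ≃ l) (v : α → ℂ) (P : GK κ) :
    xr p q (v, P) = OnePoint.some (X := LC.XX β l) (fun x => v (p.symm x), GK.reindex q P) := rfl

theorem xr_comp (p : α ≃ β) (q : κ ≃ l) (p' : β ≃ γ) (q' : l ≃ m) :
    (xr p' q').comp (xr p q) = xr (p.trans p') (q.trans q') := by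
  ext ⟨v, P⟩
  rfl

theorem xr_refl : xr (Equiv.refl α) (Equiv.refl κ) = PMap.id (LC.XX α κ) := by
  ext ⟨v, P⟩
  rfl

theorem xr_perm (p : Equiv.Perm α) (q : Equiv.Perm κ) : (xr p q).Homotopic (PMap.id (LC.XX α κ)) := by
  have h := (rotC p).box (rotG q)
  rw [PMap.box_id] at h
  exact h

/-- renamings are homotopic -/
theorem xr_homotopic (p p' : α ≃ β) (q q' : κ ≃ l) : (xr p q).Homotopic (xr p' q') := by
  have h := PMap.Homotopic.comp_right (xr p' q') (xr_perm (p.trans p'.symm) (q.trans q'.symm))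
  rw [xr_comp, PMap.comp_id] at h
  have e1 : (p.trans p'.symm).trans p' = p := by ext x; simp
  have e2 : (q.trans q'.symm).trans q' = q := by ext x; simp
  rw [e1, e2] at h
  exact h

/-- additional base coordinates -/
def aB (κ δ : Type) [Fintype κ] [Fintype δ] : PMap (LC.G κ) (LC.G (κ ⊕ δ)).plus :=
  PMap.ofProper (K := LC.G κ) (L := LC.G (κ ⊕ δ)) (fun P => GK.sum (P, GK.base δ))
    (GK.continuous_sum.comp (continuous_id.prodMk continuous_const))
    (by rw [cocompact_eq_bot]; exact tendsto_bot)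

/-- additional base coordinates -/
def addB (α κ δ : Type) [Fintype α] [Fintype κ] [Fintype δ] :
    PMap (LC.XX α κ) (LC.XX α (κ ⊕ δ)).plus := PMap.ltens (LC.cpow α) (aB κ δ)

theorem addB_val (δ : Type) [Fintype δ] (v : α → ℂ) (P : GK κ) :
    addB α κ δ (v, P) = OnePoint.some (X := LC.XX α (κ ⊕ δ)) (v, GK.sum (P, GK.base δ)) := rfl

/-- merging -/
def mergeFun (α β κ l : Type) [Fintype α] [Fintype β] [Fintype κ] [Fintype l]
    (x : (LC.XX α κ).prod (LC.XX β l)) : LC.XX (α ⊕ β) (κ ⊕ l) :=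
  (Sum.elim x.1.1 x.2.1, GK.sum (x.1.2, x.2.2))

/-- merging -/
def merge (α β κ l : Type) [Fintype α] [Fintype β] [Fintype κ] [Fintype l] :
    PMap ((LC.XX α κ).prod (LC.XX β l)) (LC.XX (α ⊕ β) (κ ⊕ l)).plus :=
  PMap.ofProper (K := (LC.XX α κ).prod (LC.XX β l)) (L := LC.XX (α ⊕ β) (κ ⊕ l))
    (mergeFun α β κ l)
    (by
      unfold mergeFun
      refine Continuous.prodMk (continuous_pi ?_) ?_
      · rintro (i | i)
        · exact (continuous_apply _).comp (continuous_fst.comp continuous_fst)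
        · exact (continuous_apply _).comp (continuous_fst.comp continuous_snd)
      · exact GK.continuous_sum.comp
          ((continuous_snd.comp continuous_fst).prodMk (continuous_snd.comp continuous_snd)))
    (by
      refine MV.proper_aux (Z := (α → ℂ) × (β → ℂ))
        (g := fun z : LC.XX (α ⊕ β) (κ ⊕ l) => ((fun y : α => (z.1 : α ⊕ β → ℂ) (Sum.inl y)),
          (fun y : β => (z.1 : α ⊕ β → ℂ) (Sum.inr y)))) ?_ ?_
      · exact (continuous_pi fun _ => (continuous_apply _).comp continuous_fst).prodMk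
          (continuous_pi fun _ => (continuous_apply _).comp continuous_fst)
      · exact Datum.mulB_proper (E := α → ℂ) (F := β → ℂ) (G := GK κ) (G' := GK l))

/-- `ℂ^(α ⊔ β) × G κ = ℂ^α × (ℂ^β × G κ)` -/
def splitX (α β κ : Type) [Fintype α] [Fintype β] [Fintype κ] :
    LC.XX (α ⊕ β) κ ≃ₜ (LC.cpow α).prod (LC.XX β κ) where
  toFun v := (fun x => v.1 (.inl x), (fun x => v.1 (.inr x), v.2))
  invFun v := (Sum.elim v.1 v.2.1, v.2.2)
  left_inv v := by
    refine Prod.ext ?_ rfl
    funext x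
    rcases x with x | x <;> rfl
  right_inv v := rfl
  continuous_toFun := by
    refine Continuous.prodMk ?_ (Continuous.prodMk ?_ continuous_snd)
    · exact continuous_pi fun _ => (continuous_apply _).comp continuous_fst
    · exact continuous_pi fun _ => (continuous_apply _).comp continuous_fst
  continuous_invFun := by
    refine Continuous.prodMk (continuous_pi ?_) (continuous_snd.comp continuous_snd)
    rintro (x | x)
    · exact (continuous_apply x).comp continuous_fst
    · exact (continuous_apply x).comp (continuous_fst.comp continuous_snd)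

end basic

/-! ### Identities between block sums -/

section gk

variable {κ l m n : Type} [Fintype κ] [Fintype l] [Fintype m] [Fintype n]

theorem GK.sum_re (p : κ ≃ m) (q : l ≃ n) (P : GK κ) (Q : GK l) :
    GK.sum (GK.reindex p P, GK.reindex q Q) = GK.reindex (p.sumCongr q) (GK.sum (P, Q)) := by
  refine Datum.GK.ext ?_
  rintro ⟨i | i, b⟩ ⟨i' | i', b'⟩ <;> rfl

theorem GK.sum_assoc (P : GK κ) (Q : GK l) (R : GK m) :
    GK.sum (P, GK.sum (Q, R)) =
      GK.reindex (Equiv.sumAssoc κ l m) (GK.sum (GK.sum (P, Q), R)) := by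
  refine Datum.GK.ext ?_
  rintro ⟨i | i | i, b⟩ ⟨i' | i' | i', b'⟩ <;> rfl

theorem GK.sum_assoc' (P : GK κ) (Q : GK l) (R : GK m) :
    GK.sum (GK.sum (P, Q), R) =
      GK.reindex (Equiv.sumAssoc κ l m).symm (GK.sum (P, GK.sum (Q, R))) := by
  refine Datum.GK.ext ?_
  rintro ⟨(i | i) | i, b⟩ ⟨(i' | i') | i', b'⟩ <;> rfl

theorem GK.sum_comm (P : GK κ) (Q : GK l) :
    GK.sum (Q, P) = GK.reindex (Equiv.sumComm κ l) (GK.sum (P, Q)) := by
  refine Datum.GK.ext ?_
  rintro ⟨i | i, b⟩ ⟨i' | i', b'⟩ <;> rfl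

theorem GK.reindex_reindex (p : κ ≃ l) (q : l ≃ m) (P : GK κ) :
    GK.reindex q (GK.reindex p P) = GK.reindex (p.trans q) P := rfl

theorem GK.reindex_refl (P : GK κ) : GK.reindex (Equiv.refl κ) P = P := rfl

end gk

/-! ### The identity on one more complex line -/

section ext

variable {α β γ κ l m δ δ' : Type} [Fintype α] [Fintype β] [Fintype γ] [Fintype κ] [Fintype l]
  [Fintype m] [Fintype δ] [Fintype δ']

/-- `ℂ × (ℂ^α × G κ) = ℂ^(1 ⊔ α) × G κ` -/
def consX (α κ : Type) [Fintype α] [Fintype κ] :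
    LC.C.prod (LC.XX α κ) ≃ₜ LC.XX (Option α) κ where
  toFun x := (fun o => Option.elim o x.1 x.2.1, x.2.2)
  invFun v := (v.1 none, (fun x => v.1 (some x), v.2))
  left_inv _ := rfl
  right_inv v := by
    refine Prod.ext ?_ rfl
    funext o
    rcases o with _ | o <;> rfl
  continuous_toFun := by
    refine Continuous.prodMk (continuous_pi ?_) (continuous_snd.comp continuous_snd)
    rintro (_ | x)
    · exact continuous_fst
    · exact (continuous_apply x).comp (continuous_fst.comp continuous_snd)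
  continuous_invFun := by
    refine Continuous.prodMk ((continuous_apply _).comp continuous_fst)
      (Continuous.prodMk (continuous_pi fun _ => (continuous_apply _).comp continuous_fst)
        continuous_snd)

/-- `id × F` -/
def extC (F : PMap (LC.XX α κ) (LC.XX β l).plus) :
    PMap (LC.XX (Option α) κ) (LC.XX (Option β) l).plus :=
  (PMap.ofHomeo (consX β l)).comp ((PMap.ltens LC.C F).comp (PMap.ofHomeo (consX α κ).symm))

theorem extC_val (F : PMap (LC.XX α κ) (LC.XX β l).plus) (v : Option α → ℂ) (P : GK κ) :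
    extC F (v, P) = bnd (F (fun x => v (some x), P)) (fun y =>
      OnePoint.some (X := LC.XX (Option β) l) (fun o => Option.elim o (v none) y.1, y.2)) := by
  change (PMap.ofHomeo (consX β l)).plus (smashPt LC.C (LC.XX β l)
    (((v none : LC.C) : OnePoint LC.C), F (fun x => v (some x), P))) = _
  rcases F (fun x => v (some x), P) with _ | y <;> rfl

theorem extC_comp (G : PMap (LC.XX β l) (LC.XX γ m).plus) (F : PMap (LC.XX α κ) (LC.XX β l).plus) :
    extC (G.comp F) = (extC G).comp (extC F) := by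
  ext ⟨v, P⟩
  rw [extC_val, comp_bnd, comp_bnd, extC_val]
  rcases F (fun x => v (some x), P) with _ | y
  · rfl
  · exact (extC_val G (fun o => Option.elim o (v none) y.1) y.2).symm

theorem extC_homotopic {F G : PMap (LC.XX α κ) (LC.XX β l).plus} (h : F.Homotopic G) :
    (extC F).Homotopic (extC G) :=
  PMap.Homotopic.comp_right _ ((PMap.Homotopic.box_right _ h).comp_left _)

theorem extC_id : extC (PMap.id (LC.XX α κ)) = PMap.id (LC.XX (Option α) κ) := by
  ext ⟨v, P⟩
  rw [extC_val]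
  change OnePoint.some (X := LC.XX (Option α) κ) _ = OnePoint.some (X := LC.XX (Option α) κ) _
  congr 1
  refine Prod.ext ?_ rfl
  funext o
  rcases o with _ | o <;> rfl

theorem extC_xr (p : α ≃ β) (q : κ ≃ l) : extC (xr p q) = xr (Equiv.optionCongr p) q := by
  ext ⟨v, P⟩
  rw [extC_val]
  change OnePoint.some (X := LC.XX (Option β) l) _ = OnePoint.some (X := LC.XX (Option β) l) _
  congr 1
  refine Prod.ext ?_ rfl
  funext o
  rcases o with _ | o <;> rfl

theorem extC_addB : extC (addB α κ δ) = addB (Option α) κ δ := by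
  ext ⟨v, P⟩
  rw [extC_val]
  change OnePoint.some (X := LC.XX (Option α) (κ ⊕ δ)) _ =
    OnePoint.some (X := LC.XX (Option α) (κ ⊕ δ)) _
  congr 1
  refine Prod.ext ?_ rfl
  funext o
  rcases o with _ | o <;> rfl

/-! ### Commutation rules -/

theorem addB_xr (p : α ≃ β) (q : κ ≃ l) : (addB β l δ).comp (xr p q) =
    (xr p (q.sumCongr (Equiv.refl δ))).comp (addB α κ δ) := by
  ext ⟨v, P⟩
  change OnePoint.some (X := LC.XX β (l ⊕ δ)) _ = OnePoint.some (X := LC.XX β (l ⊕ δ)) _
  congr 1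
  exact Prod.ext rfl (GK.sum_re q (Equiv.refl δ) P (GK.base δ))

theorem addB_addB : (addB α (κ ⊕ δ) δ').comp (addB α κ δ) =
    (xr (Equiv.refl α) (Equiv.sumAssoc κ δ δ').symm).comp (addB α κ (δ ⊕ δ')) := by
  ext ⟨v, P⟩
  change OnePoint.some (X := LC.XX α ((κ ⊕ δ) ⊕ δ')) _ =
    OnePoint.some (X := LC.XX α ((κ ⊕ δ) ⊕ δ')) _
  congr 1
  refine Prod.ext rfl ?_
  have h := GK.sum_assoc' P (GK.base δ) (GK.base δ')
  rw [Datum.GK.sum_base] at h
  exact h

theorem addB_re (e : δ ≃ δ') : addB α κ δ' =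
    (xr (Equiv.refl α) ((Equiv.refl κ).sumCongr e)).comp (addB α κ δ) := by
  ext ⟨v, P⟩
  change OnePoint.some (X := LC.XX α (κ ⊕ δ')) _ = OnePoint.some (X := LC.XX α (κ ⊕ δ')) _
  congr 1
  refine Prod.ext rfl ?_
  have h := GK.sum_re (Equiv.refl κ) e P (GK.base δ)
  rw [Datum.GK.reindex_base] at h
  exact h

/-- moving a coordinate -/
def optL (A γ : Type) : Option (A ⊕ γ) ≃ A ⊕ Option γ where
  toFun
    | none => .inr none
    | some (.inl a) => .inl a
    | some (.inr c) => .inr (some c)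
  invFun
    | .inl a => some (.inl a)
    | .inr none => none
    | .inr (some c) => some (.inr c)
  left_inv x := by rcases x with _ | a | c <;> rfl
  right_inv x := by rcases x with a | _ | c <;> rfl

end ext

namespace Datum

variable (D : Datum)

/-- the map `s × id` -/
def SX (γ μ : Type) [Fintype γ] [Fintype μ] :
    PMap (LC.XX (D.w ⊕ γ) μ) (LC.XX (D.u ⊕ γ) (D.a ⊕ μ)).plus :=
  (merge D.u γ D.a μ).comp ((D.s.tens (LC.XX γ μ)).comp (PMap.ofHomeo (splitX D.w γ μ)))

theorem S_val (γ μ : Type) [Fintype γ] [Fintype μ] (v : D.w ⊕ γ → ℂ) (P : GK μ) :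
    D.SX γ μ (v, P) = bnd (D.s (fun j => v (.inl j))) (fun y =>
      OnePoint.some (X := LC.XX (D.u ⊕ γ) (D.a ⊕ μ))
        (Sum.elim y.1 (fun c => v (.inr c)), GK.sum (y.2, P))) := by
  change (merge D.u γ D.a μ).plus (smashPt ((LC.cpow D.u).prod (LC.G D.a)) (LC.XX γ μ)
    (D.s (fun j => v (.inl j)), _)) = _
  rcases D.s (fun j => v (.inl j)) with _ | y <;> rfl

section

variable {γ γ' μ μ' δ : Type} [Fintype γ] [Fintype γ'] [Fintype μ] [Fintype μ'] [Fintype δ]

theorem addB_S : (addB (D.u ⊕ γ) (D.a ⊕ μ) δ).comp (D.SX γ μ) =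
    (xr (Equiv.refl _) (Equiv.sumAssoc D.a μ δ).symm).comp
      ((D.SX γ (μ ⊕ δ)).comp (addB (D.w ⊕ γ) μ δ)) := by
  ext ⟨v, P⟩
  rw [comp_bnd, comp_bnd, comp_bnd, S_val, addB_val]
  change _ = bnd (D.SX γ (μ ⊕ δ) (v, GK.sum (P, GK.base δ))) _
  rw [S_val]
  rcases D.s (fun j => v (.inl j)) with _ | y
  · rfl
  · change OnePoint.some (X := LC.XX (D.u ⊕ γ) ((D.a ⊕ μ) ⊕ δ)) _ =
      OnePoint.some (X := LC.XX (D.u ⊕ γ) ((D.a ⊕ μ) ⊕ δ)) _
    congr 1
    exact Prod.ext rfl (GK.sum_assoc' y.2 P (GK.base δ))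

theorem S_xr (r : γ ≃ γ') (t : μ ≃ μ') :
    (D.SX γ' μ').comp (xr ((Equiv.refl D.w).sumCongr r) t) =
      (xr ((Equiv.refl D.u).sumCongr r) ((Equiv.refl D.a).sumCongr t)).comp (D.SX γ μ) := by
  ext ⟨v, P⟩
  rw [comp_bnd, comp_bnd, xr_val]
  change D.SX γ' μ' (_, GK.reindex t P) = _
  rw [S_val, S_val]
  change bnd (D.s (fun j => v (.inl j))) _ = _
  rcases D.s (fun j => v (.inl j)) with _ | y
  · rfl
  · change OnePoint.some (X := LC.XX (D.u ⊕ γ') (D.a ⊕ μ')) _ =
      OnePoint.some (X := LC.XX (D.u ⊕ γ') (D.a ⊕ μ')) _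
    congr 1
    refine Prod.ext ?_ (GK.sum_re (Equiv.refl D.a) t y.2 P)
    funext x
    rcases x with x | x <;> rfl

theorem extC_S : extC (D.SX γ μ) = (xr (optL D.u γ).symm (Equiv.refl _)).comp
    ((D.SX (Option γ) μ).comp (xr (optL D.w γ) (Equiv.refl μ))) := by
  ext ⟨v, P⟩
  rw [extC_val, comp_bnd, comp_bnd, xr_val]
  change _ = bnd (D.SX (Option γ) μ (_, GK.reindex (Equiv.refl μ) P)) _
  rw [S_val, S_val]
  change _ = bnd (bnd (D.s (fun j => v (some (.inl j)))) _) _
  rcases D.s (fun j => v (some (.inl j))) with _ | y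
  · rfl
  · change OnePoint.some (X := LC.XX (Option (D.u ⊕ γ)) (D.a ⊕ μ)) _ =
      OnePoint.some (X := LC.XX (Option (D.u ⊕ γ)) (D.a ⊕ μ)) _
    congr 1
    refine Prod.ext ?_ rfl
    funext x
    rcases x with _ | x | x <;> rfl

end

/-- `F` is homotopic to an `n`-fold composite of maps `s × id`, permutations of coordinates and
additional base coordinates. -/
def Chain : ∀ (_ : ℕ) {α κ β l : Type} [Fintype α] [Fintype κ] [Fintype β] [Fintype l],
    PMap (LC.XX α κ) (LC.XX β l).plus → Prop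
  | 0, α, κ, β, l, _, _, _, _, F => ∃ (δ : Type) (_ : Fintype δ) (p : α ≃ β) (q : κ ⊕ δ ≃ l),
      F.Homotopic ((xr p q).comp (addB α κ δ))
  | n + 1, α, κ, β, l, _, _, _, _, F => ∃ (γ μ : Type) (_ : Fintype γ) (_ : Fintype μ)
      (F1 : PMap (LC.XX α κ) (LC.XX (D.w ⊕ γ) μ).plus) (p : D.u ⊕ γ ≃ β) (q : D.a ⊕ μ ≃ l),
      Chain n F1 ∧ F.Homotopic ((xr p q).comp ((D.SX γ μ).comp F1))

namespace Chain

variable {D} {n : ℕ} {α κ β l γ μ γ' μ' δ ε : Type} [Fintype α] [Fintype κ] [Fintype β] [Fintype l]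
  [Fintype γ] [Fintype μ] [Fintype γ'] [Fintype μ'] [Fintype δ] [Fintype ε]

theorem congr {F G : PMap (LC.XX α κ) (LC.XX β l).plus} (h : D.Chain n F) (hFG : F.Homotopic G) :
    D.Chain n G := by
  cases n with
  | zero =>
    obtain ⟨δ, hδ, p, q, h⟩ := h
    exact ⟨δ, hδ, p, q, hFG.symm.trans h⟩
  | succ n =>
    obtain ⟨γ, μ, hγ, hμ, F1, p, q, h1, h⟩ := h
    exact ⟨γ, μ, hγ, hμ, F1, p, q, h1, hFG.symm.trans h⟩

theorem post_xr {F : PMap (LC.XX α κ) (LC.XX β l).plus} (h : D.Chain n F) (p : β ≃ γ) (q : l ≃ μ) :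
    D.Chain n ((xr p q).comp F) := by
  cases n with
  | zero =>
    obtain ⟨δ, hδ, p', q', h⟩ := h
    refine ⟨δ, hδ, p'.trans p, q'.trans q, ?_⟩
    rw [← xr_comp, PMap.comp_assoc]
    exact PMap.Homotopic.comp_right _ h
  | succ n =>
    obtain ⟨γ', μ', hγ, hμ, F1, p', q', h1, h⟩ := h
    refine ⟨γ', μ', hγ, hμ, F1, p'.trans p, q'.trans q, h1, ?_⟩
    rw [← xr_comp, PMap.comp_assoc]
    exact PMap.Homotopic.comp_right _ h

theorem pre_xr (p : γ ≃ α) (q : μ ≃ κ) : ∀ {n : ℕ} {β l : Type} [Fintype β] [Fintype l]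
    {F : PMap (LC.XX α κ) (LC.XX β l).plus}, D.Chain n F → D.Chain n (F.comp (xr p q)) := by
  intro n
  induction n with
  | zero =>
    rintro β l _ _ F ⟨δ, hδ, p', q', h⟩
    refine ⟨δ, hδ, p.trans p', (q.sumCongr (Equiv.refl δ)).trans q', ?_⟩
    rw [← xr_comp, PMap.comp_assoc, ← addB_xr, ← PMap.comp_assoc]
    exact h.comp_left _
  | succ n ih =>
    rintro β l _ _ F ⟨γ', μ', hγ, hμ, F1, p', q', h1, h⟩
    refine ⟨γ', μ', hγ, hμ, F1.comp (xr p q), p', q', ih h1, ?_⟩
    rw [← PMap.comp_assoc, ← PMap.comp_assoc, PMap.comp_assoc (xr p' q')]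
    exact h.comp_left _

theorem post_addB (δ : Type) [Fintype δ] : ∀ {n : ℕ} {β l : Type} [Fintype β] [Fintype l]
    {F : PMap (LC.XX α κ) (LC.XX β l).plus}, D.Chain n F →
    D.Chain n ((addB β l δ).comp F) := by
  intro n
  induction n with
  | zero =>
    rintro β l _ _ F ⟨δ', hδ, p', q', h⟩
    refine ⟨δ' ⊕ δ, inferInstance, p', (Equiv.sumAssoc κ δ' δ).symm.trans
      (q'.sumCongr (Equiv.refl δ)), ?_⟩
    have e := PMap.Homotopic.comp_right (addB β l δ) h
    rw [← PMap.comp_assoc, addB_xr, PMap.comp_assoc, addB_addB, ← PMap.comp_assoc, xr_comp,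
      Equiv.refl_trans] at e
    exact e
  | succ n ih =>
    rintro β l _ _ F ⟨γ', μ', hγ, hμ, F1, p', q', h1, h⟩
    refine ⟨γ', μ' ⊕ δ, hγ, inferInstance, (addB _ _ δ).comp F1, p',
      (Equiv.sumAssoc D.a μ' δ).symm.trans (q'.sumCongr (Equiv.refl δ)), ih h1, ?_⟩
    have e := PMap.Homotopic.comp_right (addB β l δ) h
    rw [← PMap.comp_assoc, addB_xr, PMap.comp_assoc, ← PMap.comp_assoc (addB _ _ _), addB_S,
      PMap.comp_assoc, ← PMap.comp_assoc, xr_comp, PMap.comp_assoc, Equiv.refl_trans] at e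
    exact e

theorem pre_addB (δ : Type) [Fintype δ] : ∀ {n : ℕ} {β l : Type} [Fintype β] [Fintype l]
    {F : PMap (LC.XX α (κ ⊕ δ)) (LC.XX β l).plus}, D.Chain n F →
    D.Chain n (F.comp (addB α κ δ)) := by
  intro n
  induction n with
  | zero =>
    rintro β l _ _ F ⟨δ', hδ, p', q', h⟩
    refine ⟨δ ⊕ δ', inferInstance, p', (Equiv.sumAssoc κ δ δ').symm.trans q', ?_⟩
    have e := h.comp_left (addB α κ δ)
    rw [PMap.comp_assoc, addB_addB, ← PMap.comp_assoc, xr_comp, Equiv.refl_trans] at e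
    exact e
  | succ n ih =>
    rintro β l _ _ F ⟨γ', μ', hγ, hμ, F1, p', q', h1, h⟩
    refine ⟨γ', μ', hγ, hμ, F1.comp (addB α κ δ), p', q', ih h1, ?_⟩
    rw [← PMap.comp_assoc, ← PMap.comp_assoc, PMap.comp_assoc (xr p' q')]
    exact h.comp_left _

theorem id (D : Datum) (α κ : Type) [Fintype α] [Fintype κ] :
    D.Chain 0 (PMap.id (LC.XX α κ)) := by
  refine ⟨PEmpty, inferInstance, Equiv.refl α, Equiv.sumEmpty κ PEmpty, ?_⟩
  have : (xr (Equiv.refl α) (Equiv.sumEmpty κ PEmpty)).comp (addB α κ PEmpty) =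
      PMap.id (LC.XX α κ) := by
    ext ⟨v, P⟩
    change OnePoint.some (X := LC.XX α κ) _ = OnePoint.some (X := LC.XX α κ) _
    congr 1
  rw [this]
  exact PMap.Homotopic.refl _

theorem post_S {F : PMap (LC.XX α κ) (LC.XX (D.w ⊕ γ) μ).plus} (h : D.Chain n F) :
    D.Chain (n + 1) ((D.SX γ μ).comp F) := by
  refine ⟨γ, μ, inferInstance, inferInstance, F, Equiv.refl _, Equiv.refl _, h, ?_⟩
  rw [xr_refl, PMap.id_comp]
  exact PMap.Homotopic.refl _

theorem extC {F : PMap (LC.XX α κ) (LC.XX β l).plus} (h : D.Chain n F) :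
    D.Chain n (extC F) := by
  induction n generalizing β l with
  | zero =>
    obtain ⟨δ, hδ, p, q, h⟩ := h
    refine ⟨δ, hδ, Equiv.optionCongr p, q, ?_⟩
    have e := extC_homotopic h
    rw [extC_comp, extC_xr, extC_addB] at e
    exact e
  | succ n ih =>
    obtain ⟨γ', μ', hγ, hμ, F1, p, q, h1, h⟩ := h
    have e := extC_homotopic h
    rw [extC_comp, extC_comp, extC_S, extC_xr] at e
    refine congr ?_ e.symm
    refine post_xr ?_ _ _
    rw [PMap.comp_assoc, PMap.comp_assoc]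
    refine post_xr ?_ _ _
    refine post_S ?_
    exact post_xr (ih h1) _ _

/-- a chain is determined up to homotopy by its type -/
theorem unique {F G : PMap (LC.XX α κ) (LC.XX β l).plus} (h : D.Chain n F) (h' : D.Chain n G) :
    F.Homotopic G := by
  induction n generalizing β l with
  | zero =>
    obtain ⟨δ, hδ, p, q, h⟩ := h
    obtain ⟨δ', hδ', p', q', h'⟩ := h'
    have hc : Fintype.card δ = Fintype.card δ' := by
      have h1 := Fintype.card_congr (q.trans q'.symm)
      rw [Fintype.card_sum, Fintype.card_sum] at h1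
      omega
    have e : δ ≃ δ' := Fintype.equivOfCardEq hc
    rw [addB_re e, ← PMap.comp_assoc, xr_comp] at h'
    exact h.trans (((xr_homotopic _ _ _ _).comp_left _).trans h'.symm)
  | succ n ih =>
    obtain ⟨γ, μ, hγ, hμ, F1, p, q, h1, h⟩ := h
    obtain ⟨γ', μ', hγ', hμ', F1', p', q', h1', h'⟩ := h'
    have hc : Fintype.card γ = Fintype.card γ' := by
      have h1 := Fintype.card_congr (p.trans p'.symm)
      rw [Fintype.card_sum, Fintype.card_sum] at h1
      omega
    have hc' : Fintype.card μ = Fintype.card μ' := by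
      have h1 := Fintype.card_congr (q.trans q'.symm)
      rw [Fintype.card_sum, Fintype.card_sum] at h1
      omega
    have r : γ ≃ γ' := Fintype.equivOfCardEq hc
    have t : μ ≃ μ' := Fintype.equivOfCardEq hc'
    have h2 := ih (post_xr h1 ((Equiv.refl D.w).sumCongr r) t) h1'
    have h3 := PMap.Homotopic.comp_right (xr p' q') (PMap.Homotopic.comp_right (D.SX γ' μ') h2)
    rw [← PMap.comp_assoc (D.SX γ' μ'), S_xr, PMap.comp_assoc, ← PMap.comp_assoc, xr_comp] at h3
    exact (h.trans ((xr_homotopic _ _ _ _).comp_left _)).trans (h3.trans h'.symm)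

theorem card {F : PMap (LC.XX α κ) (LC.XX β l).plus} (h : D.Chain n F) :
    Fintype.card β + n * Fintype.card D.w = Fintype.card α + n * Fintype.card D.u ∧
      Fintype.card κ + n * Fintype.card D.a ≤ Fintype.card l := by
  induction n generalizing β l with
  | zero =>
    obtain ⟨δ, hδ, p, q, h⟩ := h
    have h1 := Fintype.card_congr p
    have h2 := Fintype.card_congr q
    rw [Fintype.card_sum] at h2
    omega
  | succ n ih =>
    obtain ⟨γ, μ, hγ, hμ, F1, p, q, h1, h⟩ := h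
    have h2 := ih h1
    have h3 := Fintype.card_congr p
    have h4 := Fintype.card_congr q
    rw [Fintype.card_sum] at h3 h4
    rw [Fintype.card_sum] at h2
    rw [add_mul, add_mul, one_mul, one_mul, add_mul, one_mul]
    omega

theorem decomp {m : ℕ} {F : PMap (LC.XX α κ) (LC.XX β l).plus} (h : D.Chain (n + m) F) :
    ∃ (β1 l1 : Type) (_ : Fintype β1) (_ : Fintype l1) (F1 : PMap (LC.XX α κ) (LC.XX β1 l1).plus)
      (F2 : PMap (LC.XX β1 l1) (LC.XX β l).plus), D.Chain n F1 ∧ F.Homotopic (F2.comp F1) ∧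
      Fintype.card l = Fintype.card l1 + m * Fintype.card D.a := by
  induction m generalizing β l with
  | zero =>
    refine ⟨β, l, inferInstance, inferInstance, F, PMap.id _, h, ?_, by omega⟩
    rw [PMap.id_comp]
    exact PMap.Homotopic.refl _
  | succ m ih =>
    obtain ⟨γ, μ, hγ, hμ, F1, p, q, h1, h⟩ := h
    obtain ⟨β1, l1, hβ1, hl1, F2, F3, h2, h3, h4⟩ := ih h1
    refine ⟨β1, l1, hβ1, hl1, F2, (xr p q).comp ((D.SX γ μ).comp F3), h2, ?_, ?_⟩
    · rw [PMap.comp_assoc, PMap.comp_assoc]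
      exact h.trans (PMap.Homotopic.comp_right _ (PMap.Homotopic.comp_right _ h3))
    · have h5 := Fintype.card_congr q
      rw [Fintype.card_sum] at h5
      rw [add_mul, one_mul]
      omega

/-- a chain factors through a shorter chain -/
theorem factor {q : ℕ} {α' β' l' : Type} [Fintype α'] [Fintype β'] [Fintype l']
    {G : PMap (LC.XX α κ) (LC.XX β l).plus} {F : PMap (LC.XX α' κ) (LC.XX β' l').plus}
    (hG : D.Chain q G) (hF : D.Chain n F) (p : α ≃ α') (hn : n ≤ q)
    (hl : Fintype.card l' + (q - n) * Fintype.card D.a ≤ Fintype.card l) :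
    ∃ R : PMap (LC.XX β' l') (LC.XX β l).plus,
      G.Homotopic (R.comp (F.comp (xr p (Equiv.refl κ)))) := by
  obtain ⟨m, rfl⟩ := Nat.exists_eq_add_of_le hn
  rw [Nat.add_sub_cancel_left] at hl
  obtain ⟨β1, l1, hβ1, hl1, F1, F2, h1, h2, h3⟩ := hG.decomp
  have c1 := h1.card.1
  have c2 := hF.card.1
  have c3 := Fintype.card_congr p
  have hc : Fintype.card β' = Fintype.card β1 := by omega
  have hc' : Fintype.card (l' ⊕ Fin (Fintype.card l1 - Fintype.card l')) = Fintype.card l1 := by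
    rw [Fintype.card_sum, Fintype.card_fin]
    omega
  have r : β' ≃ β1 := Fintype.equivOfCardEq hc
  have t : l' ⊕ Fin (Fintype.card l1 - Fintype.card l') ≃ l1 := Fintype.equivOfCardEq hc'
  refine ⟨F2.comp ((xr r t).comp (addB β' l' (Fin (Fintype.card l1 - Fintype.card l')))), ?_⟩
  refine h2.trans ?_
  rw [PMap.comp_assoc]
  refine PMap.Homotopic.comp_right _ ?_
  refine unique h1 ?_
  rw [PMap.comp_assoc]
  exact ((hF.pre_xr _ _).post_addB _).post_xr _ _

end Chain

/-! ### Products of copies of `s` -/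

section om

variable {γ μ : Type} [Fintype γ] [Fintype μ]

/-- `F` is the product of `ι` copies of `s` with an identity -/
structure IsOm {ι : Type} [Fintype ι] (F : PMap (LC.XX (ι × D.w ⊕ γ) μ)
    (LC.XX (ι × D.u ⊕ γ) (ι × D.a ⊕ μ)).plus) : Prop where
  inf : ∀ (v : ι × D.w ⊕ γ → ℂ) (P : GK μ) (i : ι),
    D.s (fun j => v (.inl (i, j))) = OnePoint.infty → F (v, P) = OnePoint.infty
  fin : ∀ (v : ι × D.w ⊕ γ → ℂ) (P : GK μ) (y : ι → (D.u → ℂ) × GK D.a),
    (∀ i, D.s (fun j => v (.inl (i, j))) = ((y i : (D.u → ℂ) × GK D.a) : OnePoint _)) →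
    F (v, P) = OnePoint.some (X := LC.XX (ι × D.u ⊕ γ) (ι × D.a ⊕ μ))
      (Sum.elim (fun x => (y x.1).1 x.2) (fun c => v (.inr c)),
        GK.sum (blockDiag fun i => (y i).2, P))

omit [Fintype γ] in
/-- the case distinction -/
theorem om_cases {ι : Type} [Fintype ι] (v : ι × D.w ⊕ γ → ℂ) :
    (∃ i, D.s (fun j => v (.inl (i, j))) = OnePoint.infty) ∨
    ∃ y : ι → (D.u → ℂ) × GK D.a,
      ∀ i, D.s (fun j => v (.inl (i, j))) = ((y i : (D.u → ℂ) × GK D.a) : OnePoint _) := by
  by_cases h : ∃ i, D.s (fun j => v (.inl (i, j))) = OnePoint.infty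
  · exact Or.inl h
  · right
    have : ∀ i, ∃ y : (D.u → ℂ) × GK D.a, D.s (fun j => v (.inl (i, j))) =
      ((y : (D.u → ℂ) × GK D.a) : OnePoint ((D.u → ℂ) × GK D.a)) := by
      intro i
      rcases hs : D.s (fun j => v (.inl (i, j))) with _ | y
      · exact absurd ⟨i, hs⟩ h
      · exact ⟨y, rfl⟩
    exact ⟨fun i => (this i).choose, fun i => (this i).choose_spec⟩

/-- `(1 ⊔ ι) × A ⊔ γ = ι × A ⊔ (A ⊔ γ)` -/
def omE (ι A γ : Type) : Option ι × A ⊕ γ ≃ ι × A ⊕ (A ⊕ γ) where
  toFun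
    | .inl (none, a) => .inr (.inl a)
    | .inl (some i, a) => .inl (i, a)
    | .inr c => .inr (.inr c)
  invFun
    | .inl (i, a) => .inl (some i, a)
    | .inr (.inl a) => .inl (none, a)
    | .inr (.inr c) => .inr c
  left_inv x := by rcases x with ⟨_ | i, a⟩ | c <;> rfl
  right_inv x := by rcases x with ⟨i, a⟩ | a | c <;> rfl

/-- `ι ⊔ (A ⊔ γ) = A ⊔ (ι ⊔ γ)` -/
def omS (ι A γ : Type) : ι ⊕ (A ⊕ γ) ≃ A ⊕ (ι ⊕ γ) where
  toFun
    | .inl i => .inr (.inl i)
    | .inr (.inl a) => .inl a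
    | .inr (.inr c) => .inr (.inr c)
  invFun
    | .inl a => .inr (.inl a)
    | .inr (.inl i) => .inl i
    | .inr (.inr c) => .inr (.inr c)
  left_inv x := by rcases x with i | a | c <;> rfl
  right_inv x := by rcases x with a | i | c <;> rfl

theorem exists_om (ι : Type) [Fintype ι] : ∀ (γ μ : Type) [Fintype γ] [Fintype μ],
    ∃ F : PMap (LC.XX (ι × D.w ⊕ γ) μ) (LC.XX (ι × D.u ⊕ γ) (ι × D.a ⊕ μ)).plus,
      D.IsOm F ∧ D.Chain (Fintype.card ι) F := by
  refine Fintype.induction_empty_option (P := fun (ι : Type) (_ : Fintype ι) =>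
    ∀ (γ μ : Type) [Fintype γ] [Fintype μ],
    ∃ F : PMap (LC.XX (ι × D.w ⊕ γ) μ) (LC.XX (ι × D.u ⊕ γ) (ι × D.a ⊕ μ)).plus,
      D.IsOm F ∧ D.Chain (Fintype.card ι) F) ?_ ?_ ?_ ι
  · intro ι κ hκ e h γ μ _ _
    let : Fintype ι := Fintype.ofEquiv κ e.symm
    obtain ⟨F, hF, hF'⟩ := h γ μ
    refine ⟨(xr ((e.prodCongr (Equiv.refl D.u)).sumCongr (Equiv.refl γ))
      ((e.prodCongr (Equiv.refl D.a)).sumCongr (Equiv.refl μ))).comp (F.comp
      (xr ((e.symm.prodCongr (Equiv.refl D.w)).sumCongr (Equiv.refl γ)) (Equiv.refl μ))),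
      ⟨?_, ?_⟩, ?_⟩
    · intro v P i hi
      rw [comp_bnd, comp_bnd]
      change bnd (F (_, P)) _ = _
      rw [hF.inf _ P (e.symm i)]
      · rfl
      · change D.s (fun j => v (.inl (e (e.symm i), j))) = _
        rw [e.apply_symm_apply]
        exact hi
    · intro v P y hy
      rw [comp_bnd, comp_bnd]
      change bnd (F (_, P)) _ = _
      rw [hF.fin _ P (fun i => y (e i)) (fun i => hy (e i))]
      change OnePoint.some (X := LC.XX (κ × D.u ⊕ γ) (κ × D.a ⊕ μ)) _ = _
      congr 1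
      refine Prod.ext ?_ (GK.ext ?_)
      · funext x
        rcases x with ⟨i, j⟩ | c
        · change (y (e (e.symm i))).1 j = (y i).1 j
          rw [e.apply_symm_apply]
        · rfl
      · rintro ⟨⟨i, j⟩ | c, b⟩ ⟨⟨i', j'⟩ | c', b'⟩
        · by_cases hi : i = i'
          · subst hi
            refine (blockDiag_eq (fun i => (y (e i)).2) (e.symm i) (j, b) (j', b')).trans ?_
            rw [e.apply_symm_apply]
            exact (blockDiag_eq (fun i => (y i).2) i (j, b) (j', b')).symm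
          · exact (blockDiag_ne (fun i => (y (e i)).2) (fun h => hi (e.symm.injective h))
              (j, b) (j', b')).trans
              (blockDiag_ne (fun i => (y i).2) hi (j, b) (j', b')).symm
        · rfl
        · rfl
        · rfl
    · have hc : Fintype.card κ = Fintype.card ι := (Fintype.card_congr e).symm
      rw [hc]
      exact (hF'.pre_xr _ _).post_xr _ _
  · intro γ μ _ _
    refine ⟨xr ((Equiv.equivOfIsEmpty (PEmpty × D.w) (PEmpty × D.u)).sumCongr (Equiv.refl γ))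
      (Equiv.emptySum (PEmpty × D.a) μ).symm, ⟨?_, ?_⟩, ?_⟩
    · intro v P i
      exact i.elim
    · intro v P y _
      change OnePoint.some (X := LC.XX (PEmpty × D.u ⊕ γ) (PEmpty × D.a ⊕ μ)) _ = _
      congr 1
      refine Prod.ext ?_ (GK.ext ?_)
      · funext x
        rcases x with ⟨i, j⟩ | c
        · exact i.elim
        · rfl
      · rintro ⟨⟨i, j⟩ | c, b⟩ ⟨⟨i', j'⟩ | c', b'⟩
        · exact i.elim
        · exact i.elim
        · exact i'.elim
        · rfl
    · have h := (Chain.id D (PEmpty × D.w ⊕ γ) μ).post_xr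
        ((Equiv.equivOfIsEmpty (PEmpty × D.w) (PEmpty × D.u)).sumCongr (Equiv.refl γ))
        (Equiv.emptySum (PEmpty × D.a) μ).symm
      rw [PMap.comp_id] at h
      exact h
  · intro ι _ h γ μ _ _
    obtain ⟨F, hF, hF'⟩ := h (D.w ⊕ γ) μ
    refine ⟨(xr ((omS (ι × D.u) D.u γ).symm.trans (omE ι D.u γ).symm)
      ((omS (ι × D.a) D.a μ).symm.trans (omE ι D.a μ).symm)).comp ((D.SX (ι × D.u ⊕ γ)
        (ι × D.a ⊕ μ)).comp ((xr (omS (ι × D.u) D.w γ) (Equiv.refl _)).comp (F.comp
        (xr (omE ι D.w γ) (Equiv.refl μ))))), ⟨?_, ?_⟩, ?_⟩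
    · intro v P i hi
      rw [comp_bnd, comp_bnd, comp_bnd, comp_bnd]
      change bnd (bnd (bnd (F (_, P)) _) _) _ = _
      rcases D.om_cases (fun x => v ((omE ι D.w γ).symm x)) with ⟨i', hi'⟩ | ⟨y, hy⟩
      · rw [hF.inf _ P i' hi']
        rfl
      · rw [hF.fin _ P y hy]
        change bnd (D.SX (ι × D.u ⊕ γ) (ι × D.a ⊕ μ) _) _ = _
        have hn : D.s (fun j => v (.inl (none, j))) = OnePoint.infty := by
          rcases i with _ | i
          · exact hi
          · have h2 := hy i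
            change D.s (fun j => v (.inl (some i, j))) = _ at h2
            rw [hi] at h2
            exact absurd h2 (OnePoint.infty_ne_coe _)
        rw [S_val]
        change bnd (bnd (D.s (fun j => v (.inl (none, j)))) _) _ = _
        rw [hn]
        rfl
    · intro v P y hy
      rw [comp_bnd, comp_bnd, comp_bnd, comp_bnd]
      change bnd (bnd (bnd (F (_, P)) _) _) _ = _
      rw [hF.fin _ P (fun i => y (some i)) (fun i => hy (some i))]
      change bnd (D.SX (ι × D.u ⊕ γ) (ι × D.a ⊕ μ) _) _ = _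
      rw [S_val]
      change bnd (bnd (D.s (fun j => v (.inl (none, j)))) _) _ = _
      rw [hy none]
      change OnePoint.some (X := LC.XX (Option ι × D.u ⊕ γ) (Option ι × D.a ⊕ μ)) _ = _
      congr 1
      refine Prod.ext ?_ (GK.ext ?_)
      · funext x
        rcases x with ⟨_ | i, j⟩ | c <;> rfl
      · rintro ⟨⟨_ | i, j⟩ | c, b⟩ ⟨⟨_ | i', j'⟩ | c', b'⟩
        · exact (blockDiag_eq (fun i => (y i).2) none (j, b) (j', b')).symm
        · exact (blockDiag_ne (fun i => (y i).2) (fun h => by simp at h) (j, b) (j', b')).symm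
        · rfl
        · exact (blockDiag_ne (fun i => (y i).2) (fun h => by simp at h) (j, b) (j', b')).symm
        · by_cases hi : i = i'
          · subst hi
            exact (blockDiag_eq (fun i => (y (some i)).2) i (j, b) (j', b')).trans
              (blockDiag_eq (fun i => (y i).2) (some i) (j, b) (j', b')).symm
          · exact (blockDiag_ne (fun i => (y (some i)).2) hi (j, b) (j', b')).trans
              (blockDiag_ne (fun i => (y i).2) (fun h => hi (Option.some.inj h))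
                (j, b) (j', b')).symm
        · rfl
        · rfl
        · rfl
        · rfl
    · rw [Fintype.card_option]
      refine Chain.post_xr (Chain.post_S ?_) _ _
      exact (hF'.pre_xr _ _).post_xr _ _

/-- `ι × (1 ⊔ A) ⊔ γ = ι × A ⊔ (ι ⊔ γ)` -/
def xiE (ι A γ : Type) : ι × Option A ⊕ γ ≃ ι × A ⊕ (ι ⊕ γ) where
  toFun
    | .inl (i, none) => .inr (.inl i)
    | .inl (i, some a) => .inl (i, a)
    | .inr c => .inr (.inr c)
  invFun
    | .inl (i, a) => .inl (i, some a)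
    | .inr (.inl i) => .inl (i, none)
    | .inr (.inr c) => .inr c
  left_inv x := by rcases x with ⟨i, _ | a⟩ | c <;> rfl
  right_inv x := by rcases x with ⟨i, a⟩ | i | c <;> rfl

/-- `ι × A ⊔ ι = ι × (1 ⊔ A)` -/
def xiG (ι A : Type) : ι × A ⊕ ι ≃ ι × Option A where
  toFun
    | .inl (i, a) => (i, some a)
    | .inr i => (i, none)
  invFun
    | (i, none) => .inr i
    | (i, some a) => .inl (i, a)
  left_inv x := by rcases x with ⟨i, a⟩ | i <;> rfl
  right_inv x := by rcases x with ⟨i, _ | a⟩ <;> rfl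

/-- `shatG` times an identity is a chain -/
theorem exists_shatG (ι γ : Type) [Fintype ι] [Fintype γ] :
    ∃ F : PMap (LC.XX (ι × Option D.w ⊕ γ) ι) (LC.XX (ι × Option D.u ⊕ γ) (ι × Option D.a)).plus,
      (∀ (v : ι × Option D.w ⊕ γ → ℂ) (P : GK ι), F (v, P) =
        bnd (D.shatG ι (fun x => v (.inl x), P)) (fun b =>
          OnePoint.some (X := LC.XX (ι × Option D.u ⊕ γ) (ι × Option D.a))
            (Sum.elim b.1 (fun c => v (.inr c)), b.2))) ∧
      D.Chain (Fintype.card ι) F := by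
  obtain ⟨F, hF, hF'⟩ := D.exists_om ι (ι ⊕ γ) ι
  refine ⟨(xr (xiE ι D.u γ).symm (xiG ι D.a)).comp (F.comp
    (xr (xiE ι D.w γ) (Equiv.refl ι))), ?_, (hF'.pre_xr _ _).post_xr _ _⟩
  intro v P
  rw [comp_bnd, comp_bnd]
  change bnd (F (_, P)) _ = _
  rcases D.shatG_cases ι (fun x => v (.inl x)) with ⟨i, hi⟩ | ⟨y, hy⟩
  · rw [D.shatG_none ι _ P i hi, hF.inf _ P i hi]
    rfl
  · rw [D.shatG_some ι _ P y hy, hF.fin _ P y hy]
    change OnePoint.some (X := LC.XX (ι × Option D.u ⊕ γ) (ι × Option D.a)) _ =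
      OnePoint.some (X := LC.XX (ι × Option D.u ⊕ γ) (ι × Option D.a)) _
    congr 1
    refine Prod.ext ?_ (GK.ext ?_)
    · funext x
      rcases x with ⟨i, _ | j⟩ | c <;> rfl
    · rintro ⟨⟨i, _ | j⟩, b⟩ ⟨⟨i', _ | j'⟩, b'⟩ <;> rfl

/-- `shatG` with additional base coordinates, times an identity, is a chain -/
theorem exists_xi (ι γ κ δ : Type) [Fintype ι] [Fintype γ] [Fintype κ] [Fintype δ]
    (e : κ ⊕ δ ≃ ι) :
    ∃ F : PMap (LC.XX (ι × Option D.w ⊕ γ) κ) (LC.XX (ι × Option D.u ⊕ γ) (ι × Option D.a)).plus,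
      (∀ (v : ι × Option D.w ⊕ γ → ℂ) (P : GK κ), F (v, P) =
        bnd (D.shatG ι (fun x => v (.inl x), GK.reindex e (GK.sum (P, GK.base δ)))) (fun b =>
          OnePoint.some (X := LC.XX (ι × Option D.u ⊕ γ) (ι × Option D.a))
            (Sum.elim b.1 (fun c => v (.inr c)), b.2))) ∧
      D.Chain (Fintype.card ι) F := by
  obtain ⟨F, hF, hF'⟩ := D.exists_shatG ι γ
  refine ⟨(F.comp (xr (Equiv.refl _) e)).comp (addB _ κ δ), ?_, (hF'.pre_xr _ _).pre_addB δ⟩
  intro v P
  exact hF v (GK.reindex e (GK.sum (P, GK.base δ)))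

end om

end Datum

end Pool.Agent.Helper1.Stab
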