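import Pool.Agent.Helper1.Stab.Comp
import Pool.Agent.Helper68.Stab.LocStrict

/-! The projection of a sum of frames. -/

open Topology Filter Set

noncomputable section

namespace Pool.Agent.Helper1.Stab

/-- the offset of the row of `(j, b)` -/
theorem Frame.proj_apply {k : ℕ} (A : Frame k) (x y : Fin k × Bool) :
    A.proj.1 x y = ∑ c ∈ Finset.range k, A.1 (2 * x.1 + (if x.2 then 0 else 1)) c *
      star (A.1 (2 * y.1 + (if y.2 then 0 else 1)) c) := rfl

theorem bool_lt (b : Bool) : (if b then 0 else 1) < 2 := by cases b <;> decide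

/-- the projection of a block sum of frames -/
theorem Frame.proj_sum {k l : ℕ} (B : Frame k) (A : Frame l) :
    (B.sum A).proj = GK.reindex finSumFinEquiv (GK.sum (B.proj, A.proj)) := by
  refine Datum.GK.ext fun x y => ?_
  obtain ⟨x, b⟩ := x
  obtain ⟨y, b'⟩ := y
  obtain ⟨x, rfl⟩ := finSumFinEquiv.surjective x
  obtain ⟨y, rfl⟩ := finSumFinEquiv.surjective y
  rw [Frame.proj_apply]
  have hb := bool_lt b
  have hb' := bool_lt b'
  have e1 : (GK.reindex finSumFinEquiv (GK.sum (B.proj, A.proj))).1 (finSumFinEquiv x, b)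
      (finSumFinEquiv y, b') = (GK.sum (B.proj, A.proj)).1 (x, b) (y, b') := by
    show (GK.sum (B.proj, A.proj)).1 (finSumFinEquiv.symm (finSumFinEquiv x), b)
      (finSumFinEquiv.symm (finSumFinEquiv y), b') = _
    rw [Equiv.symm_apply_apply, Equiv.symm_apply_apply]
  rw [e1, Finset.sum_range_add]
  have hl : ∀ (i : Fin k) (b : Bool) (c : ℕ), c < k →
      (B.sum A).1 (2 * ((finSumFinEquiv (Sum.inl i : Fin k ⊕ Fin l) : Fin (k + l)) : ℕ) +
        (if b then 0 else 1)) c = B.1 (2 * i + (if b then 0 else 1)) c := by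
    intro i b c hc
    exact if_pos hc
  have hl' : ∀ (i : Fin k) (b : Bool) (c : ℕ),
      (B.sum A).1 (2 * ((finSumFinEquiv (Sum.inl i : Fin k ⊕ Fin l) : Fin (k + l)) : ℕ) +
        (if b then 0 else 1)) (k + c) = 0 := by
    intro i b c
    have h1 := bool_lt b
    have h2 : (2 * ((finSumFinEquiv (Sum.inl i : Fin k ⊕ Fin l) : Fin (k + l)) : ℕ) +
        (if b then 0 else 1)) < 2 * k := by
      rw [finSumFinEquiv_apply_left, Fin.val_castAdd]
      omega
    exact (if_neg (by omega)).trans (if_pos h2)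
  have hr : ∀ (i : Fin l) (b : Bool) (c : ℕ), c < k →
      (B.sum A).1 (2 * ((finSumFinEquiv (Sum.inr i : Fin k ⊕ Fin l) : Fin (k + l)) : ℕ) +
        (if b then 0 else 1)) c = 0 := by
    intro i b c hc
    have h1 := bool_lt b
    refine (if_pos hc).trans ?_
    rw [finSumFinEquiv_apply_right, Fin.val_natAdd]
    rw [B.2.1 _ _ (Or.inl (by omega)), if_neg (by omega)]
  have hr' : ∀ (i : Fin l) (b : Bool) (c : ℕ),
      (B.sum A).1 (2 * ((finSumFinEquiv (Sum.inr i : Fin k ⊕ Fin l) : Fin (k + l)) : ℕ) +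
        (if b then 0 else 1)) (k + c) = A.1 (2 * i + (if b then 0 else 1)) c := by
    intro i b c
    refine (if_neg (by omega)).trans ?_
    rw [finSumFinEquiv_apply_right, Fin.val_natAdd]
    rw [if_neg (by omega), show 2 * (k + (i : ℕ)) + (if b then 0 else 1) - 2 * k =
      2 * i + (if b then 0 else 1) by omega, Nat.add_sub_cancel_left]
  rcases x with i | i <;> rcases y with j | j
  · have e2 : (GK.sum (B.proj, A.proj)).1 (Sum.inl i, b) (Sum.inl j, b') =
      B.proj.1 (i, b) (j, b') := rfl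
    rw [e2, Frame.proj_apply]
    have e3 : ∑ c ∈ Finset.range l, (B.sum A).1 (2 * ((finSumFinEquiv (Sum.inl i : Fin k ⊕ Fin l) :
        Fin (k + l)) : ℕ) + (if b then 0 else 1)) (k + c) * star ((B.sum A).1 (2 *
        ((finSumFinEquiv (Sum.inl j : Fin k ⊕ Fin l) : Fin (k + l)) : ℕ) +
        (if b' then 0 else 1)) (k + c)) = 0 := Finset.sum_eq_zero fun c _ => by
      rw [hl', zero_mul]
    rw [e3, add_zero]
    refine Finset.sum_congr rfl fun c hc => ?_
    rw [Finset.mem_range] at hc
    rw [hl i b c hc, hl j b' c hc]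
  · have e2 : (GK.sum (B.proj, A.proj)).1 (Sum.inl i, b) (Sum.inr j, b') = 0 := rfl
    rw [e2, Finset.sum_eq_zero, Finset.sum_eq_zero, add_zero]
    · intro c _
      rw [hl', zero_mul]
    · intro c hc
      rw [Finset.mem_range] at hc
      rw [hr j b' c hc, star_zero, mul_zero]
  · have e2 : (GK.sum (B.proj, A.proj)).1 (Sum.inr i, b) (Sum.inl j, b') = 0 := rfl
    rw [e2, Finset.sum_eq_zero, Finset.sum_eq_zero, add_zero]
    · intro c _
      rw [hl', star_zero, mul_zero]
    · intro c hc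
      rw [Finset.mem_range] at hc
      rw [hr i b c hc, zero_mul]
  · have e2 : (GK.sum (B.proj, A.proj)).1 (Sum.inr i, b) (Sum.inr j, b') =
      A.proj.1 (i, b) (j, b') := rfl
    rw [e2, Frame.proj_apply]
    have e3 : ∑ c ∈ Finset.range k, (B.sum A).1 (2 * ((finSumFinEquiv (Sum.inr i : Fin k ⊕ Fin l) :
        Fin (k + l)) : ℕ) + (if b then 0 else 1)) c * star ((B.sum A).1 (2 *
        ((finSumFinEquiv (Sum.inr j : Fin k ⊕ Fin l) : Fin (k + l)) : ℕ) +
        (if b' then 0 else 1)) c) = 0 := Finset.sum_eq_zero fun c hc => by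
      rw [Finset.mem_range] at hc
      rw [hr i b c hc, zero_mul]
    rw [e3, zero_add]
    refine Finset.sum_congr rfl fun c _ => ?_
    rw [hr', hr']

/-- the projection of a stabilised frame -/
theorem Frame.proj_incl {l : ℕ} (A : Frame l) :
    A.incl.proj = GK.reindex finSumFinEquiv (GK.sum (A.proj, GK.base (Fin 1))) := by
  refine Datum.GK.ext fun x y => ?_
  obtain ⟨x, b⟩ := x
  obtain ⟨y, b'⟩ := y
  obtain ⟨x, rfl⟩ := finSumFinEquiv.surjective x
  obtain ⟨y, rfl⟩ := finSumFinEquiv.surjective y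
  rw [Frame.proj_apply]
  have e1 : (GK.reindex finSumFinEquiv (GK.sum (A.proj, GK.base (Fin 1)))).1 (finSumFinEquiv x, b)
      (finSumFinEquiv y, b') = (GK.sum (A.proj, GK.base (Fin 1))).1 (x, b) (y, b') := by
    show (GK.sum (A.proj, GK.base (Fin 1))).1 (finSumFinEquiv.symm (finSumFinEquiv x), b)
      (finSumFinEquiv.symm (finSumFinEquiv y), b') = _
    rw [Equiv.symm_apply_apply, Equiv.symm_apply_apply]
  rw [e1, Finset.sum_range_succ]
  have hA : A.incl.1 = A.1 := rfl
  rw [hA]
  have hlast : ∀ i, A.1 i l = if i = 2 * l then 1 else 0 := fun i => A.2.1 i l (Or.inr le_rfl)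
  have hr : ∀ (i : Fin 1) (b : Bool) (c : ℕ), c < l →
      A.1 (2 * ((finSumFinEquiv (Sum.inr i : Fin l ⊕ Fin 1) : Fin (l + 1)) : ℕ) +
        (if b then 0 else 1)) c = 0 := by
    intro i b c hc
    have h1 := bool_lt b
    rw [finSumFinEquiv_apply_right, Fin.val_natAdd]
    rw [A.2.1 _ _ (Or.inl (by omega)), if_neg (by omega)]
  have hl0 : ∀ (i : Fin l) (b : Bool),
      A.1 (2 * ((finSumFinEquiv (Sum.inl i : Fin l ⊕ Fin 1) : Fin (l + 1)) : ℕ) +
        (if b then 0 else 1)) l = 0 := by
    intro i b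
    have h1 := bool_lt b
    rw [finSumFinEquiv_apply_left, Fin.val_castAdd, hlast, if_neg (by omega)]
  have hr0 : ∀ (i : Fin 1) (b : Bool),
      A.1 (2 * ((finSumFinEquiv (Sum.inr i : Fin l ⊕ Fin 1) : Fin (l + 1)) : ℕ) +
        (if b then 0 else 1)) l = if b then 1 else 0 := by
    intro i b
    rw [finSumFinEquiv_apply_right, Fin.val_natAdd, hlast]
    cases b
    · rw [if_neg, if_neg]
      · simp
      · have := i.2
        simp only [Bool.false_eq_true, if_false]
        omega
    · rw [if_pos, if_pos rfl]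
      have := i.2
      simp only [if_true]
      omega
  rcases x with i | i <;> rcases y with j | j
  · have e2 : (GK.sum (A.proj, GK.base (Fin 1))).1 (Sum.inl i, b) (Sum.inl j, b') =
      A.proj.1 (i, b) (j, b') := rfl
    rw [e2, Frame.proj_apply, hl0, zero_mul, add_zero]
    rfl
  · have e2 : (GK.sum (A.proj, GK.base (Fin 1))).1 (Sum.inl i, b) (Sum.inr j, b') = 0 := rfl
    rw [e2, Finset.sum_eq_zero, hl0, zero_mul, add_zero]
    intro c hc
    rw [Finset.mem_range] at hc
    rw [hr j b' c hc, star_zero, mul_zero]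
  · have e2 : (GK.sum (A.proj, GK.base (Fin 1))).1 (Sum.inr i, b) (Sum.inl j, b') = 0 := rfl
    rw [e2, Finset.sum_eq_zero, hl0, star_zero, mul_zero, add_zero]
    intro c hc
    rw [Finset.mem_range] at hc
    rw [hr i b c hc, zero_mul]
  · have e2 : (GK.sum (A.proj, GK.base (Fin 1))).1 (Sum.inr i, b) (Sum.inr j, b') =
      (GK.base (Fin 1)).1 (i, b) (j, b') := rfl
    rw [e2, Finset.sum_eq_zero, hr0, hr0, zero_add]
    · obtain rfl := Subsingleton.elim i j
      by_cases hbb : b = b'
      · subst hbb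
        rw [Datum.GK.base_eq]
        cases b <;> simp
      · rw [Datum.GK.base_ne (fun h => hbb (congrArg Prod.snd h))]
        cases b <;> cases b' <;> simp at hbb ⊢
    · intro c hc
      rw [Finset.mem_range] at hc
      rw [hr i b c hc, zero_mul]

end Pool.Agent.Helper1.Stab
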