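import Pool.Agent.Helper19.Stab.Chain

/-! The exchange of the real and imaginary part in two coordinates is homotopic to the identity. -/

open Topology Filter Set

set_option linter.unusedSectionVars false

noncomputable section

namespace Pool.Agent.Helper1.Stab

/-- exchange of the real and imaginary part -/
def tauC (z : ℂ) : ℂ := ⟨z.im, z.re⟩

theorem continuous_mkC {X : Type} [TopologicalSpace X] {f g : X → ℝ} (hf : Continuous f)
    (hg : Continuous g) : Continuous fun x => (⟨f x, g x⟩ : ℂ) := by
  have h : (fun x => (⟨f x, g x⟩ : ℂ)) = fun x => (f x : ℂ) + (g x : ℂ) * Complex.I := by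
    funext x
    apply Complex.ext <;> simp
  rw [h]
  exact (Complex.continuous_ofReal.comp hf).add
    ((Complex.continuous_ofReal.comp hg).mul continuous_const)

theorem continuous_tauC : Continuous tauC :=
  continuous_mkC Complex.continuous_im Complex.continuous_re

section tau

variable {α : Type} [Fintype α]

open Classical in
/-- multiplication of two coordinates with a number -/
def mulV (i j : α) (c : ℂ) (v : α → ℂ) : α → ℂ := fun x =>
  if x = i ∨ x = j then c * v x else v x

theorem mulV_mulV (i j : α) (c d : ℂ) (v : α → ℂ) :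
    mulV i j c (mulV i j d v) = mulV i j (c * d) v := by
  funext x
  unfold mulV
  by_cases h : x = i ∨ x = j
  · rw [if_pos h, if_pos h, if_pos h, mul_assoc]
  · rw [if_neg h, if_neg h, if_neg h]

theorem mulV_one (i j : α) (v : α → ℂ) : mulV i j 1 v = v := by
  funext x
  unfold mulV
  split_ifs <;> simp

theorem mulV_continuous (i j : α) (c : LC.I → ℂ) (hc : Continuous c) :
    Continuous fun x : LC.I × (α → ℂ) => mulV i j (c x.1) x.2 := by
  refine continuous_pi fun y => ?_
  unfold mulV
  have h : Continuous fun x : LC.I × (α → ℂ) => x.2 y := (continuous_apply y).comp continuous_snd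
  by_cases hy : y = i ∨ y = j
  · simp only [if_pos hy]
    exact (hc.comp continuous_fst).mul h
  · simp only [if_neg hy]
    exact h

/-- multiplication by `i` of two coordinates -/
def mulIH (i j : α) : LC.cpow α ≃ₜ LC.cpow α where
  toFun := mulV i j Complex.I
  invFun := mulV i j (-Complex.I)
  left_inv v := by rw [mulV_mulV]; simp [mulV_one]
  right_inv v := by rw [mulV_mulV]; simp [mulV_one]
  continuous_toFun := (mulV_continuous i j (fun _ => Complex.I) continuous_const).comp
    ((continuous_const (y := (0 : unitInterval))).prodMk continuous_id)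
  continuous_invFun := (mulV_continuous i j (fun _ => -Complex.I) continuous_const).comp
    ((continuous_const (y := (0 : unitInterval))).prodMk continuous_id)

/-- the path from `1` to `i` on the unit circle -/
def ipath (t : LC.I) : ℂ := Complex.exp (((t : unitInterval) : ℝ) * (Real.pi / 2) * Complex.I)

theorem ipath_cont : Continuous ipath := by
  unfold ipath
  exact Complex.continuous_exp.comp (by fun_prop)

theorem ipath_ne (t : LC.I) : ipath t ≠ 0 := Complex.exp_ne_zero _

theorem ipath_zero : ipath (0 : unitInterval) = 1 := by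
  simp [ipath]

theorem ipath_one : ipath (1 : unitInterval) = Complex.I := by
  simp [ipath, Complex.exp_pi_div_two_mul_I]

theorem mulIH_homotopic (i j : α) : (PMap.ofHomeo (mulIH i j)).Homotopic (PMap.id (LC.cpow α)) := by
  refine homotopic_id_of_family (K := LC.cpow α) (mulIH i j)
    (fun x => mulV i j (ipath x.1) x.2) (fun x => mulV i j (ipath x.1)⁻¹ x.2)
    (mulV_continuous i j ipath ipath_cont)
    (mulV_continuous i j (fun t => (ipath t)⁻¹) (ipath_cont.inv₀ ipath_ne)) ?_ ?_ ?_ ?_
  · intro t k
    show mulV i j (ipath t)⁻¹ (mulV i j (ipath t) k) = k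
    rw [mulV_mulV, inv_mul_cancel₀ (ipath_ne t), mulV_one]
  · intro t k
    show mulV i j (ipath t) (mulV i j (ipath t)⁻¹ k) = k
    rw [mulV_mulV, mul_inv_cancel₀ (ipath_ne t), mulV_one]
  · intro k
    show mulV i j (ipath (0 : unitInterval)) k = k
    rw [ipath_zero, mulV_one]
  · intro k
    show mulV i j (ipath (1 : unitInterval)) k = mulV i j Complex.I k
    rw [ipath_one]

open Classical in
/-- rotation of the imaginary parts of two coordinates -/
def rotI (i j : α) (c s : ℝ) (v : α → ℂ) : α → ℂ := fun x =>
  if x = i then ⟨(v i).re, c * (v i).im - s * (v j).im⟩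
  else if x = j then ⟨(v j).re, s * (v i).im + c * (v j).im⟩ else v x

open Classical in
theorem rotI_rotI {i j : α} (hij : i ≠ j) (c s c' s' : ℝ) (v : α → ℂ) :
    rotI i j c s (rotI i j c' s' v) = rotI i j (c * c' - s * s') (s * c' + c * s') v := by
  have h1 : rotI i j c' s' v i = ⟨(v i).re, c' * (v i).im - s' * (v j).im⟩ := if_pos rfl
  have h2 : rotI i j c' s' v j = ⟨(v j).re, s' * (v i).im + c' * (v j).im⟩ :=
    (if_neg hij.symm).trans (if_pos rfl)
  funext x
  show (if x = i then _ else if x = j then _ else _) = if x = i then _ else if x = j then _ else _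
  by_cases hx : x = i
  · rw [if_pos hx, if_pos hx, h1, h2]
    apply Complex.ext
    · rfl
    · show c * (c' * (v i).im - s' * (v j).im) - s * (s' * (v i).im + c' * (v j).im) =
        (c * c' - s * s') * (v i).im - (s * c' + c * s') * (v j).im
      ring
  · rw [if_neg hx, if_neg hx]
    by_cases hx' : x = j
    · rw [if_pos hx', if_pos hx', h1, h2]
      apply Complex.ext
      · rfl
      · show s * (c' * (v i).im - s' * (v j).im) + c * (s' * (v i).im + c' * (v j).im) =
          (s * c' + c * s') * (v i).im + (c * c' - s * s') * (v j).im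
        ring
    · rw [if_neg hx', if_neg hx']
      exact (if_neg hx).trans (if_neg hx')

theorem rotI_one (i j : α) (v : α → ℂ) : rotI i j 1 0 v = v := by
  funext x
  unfold rotI
  split_ifs with h h'
  · subst h
    apply Complex.ext <;> simp
  · subst h'
    apply Complex.ext <;> simp
  · rfl

theorem rotI_continuous (i j : α) (c s : LC.I → ℝ) (hc : Continuous c) (hs : Continuous s) :
    Continuous fun x : LC.I × (α → ℂ) => rotI i j (c x.1) (s x.1) x.2 := by
  refine continuous_pi fun y => ?_
  unfold rotI
  have h : ∀ y : α, Continuous fun x : LC.I × (α → ℂ) => x.2 y := fun y =>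
    (continuous_apply y).comp continuous_snd
  have hc' : Continuous fun x : LC.I × (α → ℂ) => c x.1 := hc.comp continuous_fst
  have hs' : Continuous fun x : LC.I × (α → ℂ) => s x.1 := hs.comp continuous_fst
  have hi := Complex.continuous_im.comp (h i)
  have hj := Complex.continuous_im.comp (h j)
  by_cases hy : y = i
  · simp only [if_pos hy]
    exact continuous_mkC (Complex.continuous_re.comp (h i)) ((hc'.mul hi).sub (hs'.mul hj))
  · simp only [if_neg hy]
    by_cases hy' : y = j
    · simp only [if_pos hy']
      exact continuous_mkC (Complex.continuous_re.comp (h j)) ((hs'.mul hi).add (hc'.mul hj))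
    · simp only [if_neg hy']
      exact h y

/-- complex conjugation of two coordinates -/
def conjH {i j : α} (hij : i ≠ j) : LC.cpow α ≃ₜ LC.cpow α where
  toFun := rotI i j (-1) 0
  invFun := rotI i j (-1) 0
  left_inv v := by rw [rotI_rotI hij]; simp [rotI_one]
  right_inv v := by rw [rotI_rotI hij]; simp [rotI_one]
  continuous_toFun := (rotI_continuous i j (fun _ => -1) (fun _ => 0) continuous_const
    continuous_const).comp ((continuous_const (y := (0 : unitInterval))).prodMk continuous_id)
  continuous_invFun := (rotI_continuous i j (fun _ => -1) (fun _ => 0) continuous_const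
    continuous_const).comp ((continuous_const (y := (0 : unitInterval))).prodMk continuous_id)

theorem conjH_homotopic {i j : α} (hij : i ≠ j) :
    (PMap.ofHomeo (conjH hij)).Homotopic (PMap.id (LC.cpow α)) := by
  have hc : Continuous fun t : LC.I => Real.cos (Real.pi * ((t : unitInterval) : ℝ)) :=
    Real.continuous_cos.comp (continuous_const.mul continuous_subtype_val)
  have hs : Continuous fun t : LC.I => Real.sin (Real.pi * ((t : unitInterval) : ℝ)) :=
    Real.continuous_sin.comp (continuous_const.mul continuous_subtype_val)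
  refine homotopic_id_of_family (K := LC.cpow α) (conjH hij)
    (fun x => rotI i j (Real.cos (Real.pi * ((x.1 : unitInterval) : ℝ)))
      (Real.sin (Real.pi * ((x.1 : unitInterval) : ℝ))) x.2)
    (fun x => rotI i j (Real.cos (Real.pi * ((x.1 : unitInterval) : ℝ)))
      (-Real.sin (Real.pi * ((x.1 : unitInterval) : ℝ))) x.2)
    (rotI_continuous i j _ _ hc hs) (rotI_continuous i j _ _ hc hs.neg) ?_ ?_ ?_ ?_
  · intro t k
    refine (rotI_rotI hij _ _ _ _ k).trans ?_
    have h := Real.cos_sq_add_sin_sq (Real.pi * ((t : unitInterval) : ℝ))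
    rw [show Real.cos (Real.pi * ((t : unitInterval) : ℝ)) *
        Real.cos (Real.pi * ((t : unitInterval) : ℝ)) -
        -Real.sin (Real.pi * ((t : unitInterval) : ℝ)) *
        Real.sin (Real.pi * ((t : unitInterval) : ℝ)) = 1 by linarith,
      show -Real.sin (Real.pi * ((t : unitInterval) : ℝ)) *
        Real.cos (Real.pi * ((t : unitInterval) : ℝ)) +
        Real.cos (Real.pi * ((t : unitInterval) : ℝ)) *
        Real.sin (Real.pi * ((t : unitInterval) : ℝ)) = 0 by ring]
    exact rotI_one i j k
  · intro t k
    refine (rotI_rotI hij _ _ _ _ k).trans ?_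
    have h := Real.cos_sq_add_sin_sq (Real.pi * ((t : unitInterval) : ℝ))
    rw [show Real.cos (Real.pi * ((t : unitInterval) : ℝ)) *
        Real.cos (Real.pi * ((t : unitInterval) : ℝ)) -
        Real.sin (Real.pi * ((t : unitInterval) : ℝ)) *
        -Real.sin (Real.pi * ((t : unitInterval) : ℝ)) = 1 by linarith,
      show Real.sin (Real.pi * ((t : unitInterval) : ℝ)) *
        Real.cos (Real.pi * ((t : unitInterval) : ℝ)) +
        Real.cos (Real.pi * ((t : unitInterval) : ℝ)) *
        -Real.sin (Real.pi * ((t : unitInterval) : ℝ)) = 0 by ring]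
    exact rotI_one i j k
  · intro k
    show rotI i j (Real.cos (Real.pi * ((0 : unitInterval) : ℝ)))
      (Real.sin (Real.pi * ((0 : unitInterval) : ℝ))) k = k
    simp [rotI_one]
  · intro k
    show rotI i j (Real.cos (Real.pi * ((1 : unitInterval) : ℝ)))
      (Real.sin (Real.pi * ((1 : unitInterval) : ℝ))) k = rotI i j (-1) 0 k
    simp

open Classical in
/-- exchange of the real and imaginary part of two coordinates -/
def tauV (i j : α) (v : α → ℂ) : α → ℂ := fun x => if x = i ∨ x = j then tauC (v x) else v x

open Classical in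
theorem tauV_eq {i j : α} (hij : i ≠ j) (v : α → ℂ) :
    tauV i j v = mulIH i j (conjH hij v) := by
  funext x
  show (if x = i ∨ x = j then _ else _) = if x = i ∨ x = j then _ else _
  by_cases h : x = i ∨ x = j
  · rw [if_pos h, if_pos h]
    show tauC (v x) = Complex.I * rotI i j (-1) 0 v x
    rcases h with h | h
    · subst h
      rw [show rotI x j (-1) 0 v x = ⟨(v x).re, -1 * (v x).im - 0 * (v j).im⟩ from if_pos rfl]
      apply Complex.ext <;> simp [tauC]
    · subst h
      rw [show rotI i x (-1) 0 v x = ⟨(v x).re, 0 * (v i).im + -1 * (v x).im⟩ from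
        (if_neg hij.symm).trans (if_pos rfl)]
      apply Complex.ext <;> simp [tauC]
  · rw [if_neg h, if_neg h]
    rw [not_or] at h
    exact ((if_neg h.1).trans (if_neg h.2)).symm

/-- exchange of the real and imaginary part of two coordinates -/
def tau2 {κ : Type} [Fintype κ] {i j : α} (hij : i ≠ j) : LC.XX α κ ≃ₜ LC.XX α κ :=
  ((conjH hij).trans (mulIH i j)).prodCongr (Homeomorph.refl _)

theorem tau2_apply {κ : Type} [Fintype κ] {i j : α} (hij : i ≠ j) (v : α → ℂ) (P : GK κ) :
    tau2 (κ := κ) hij (v, P) = (tauV i j v, P) := by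
  rw [tauV_eq hij]
  rfl

theorem tau2_homotopic {κ : Type} [Fintype κ] {i j : α} (hij : i ≠ j) :
    (PMap.ofHomeo (tau2 (κ := κ) hij)).Homotopic (PMap.id (LC.XX α κ)) := by
  have h := PMap.Homotopic.comp (mulIH_homotopic i j) (conjH_homotopic hij)
  rw [PMap.comp_id] at h
  have h2 := h.box_left (PMap.id (LC.G κ))
  rw [PMap.box_id] at h2
  have e : PMap.ofHomeo (tau2 (κ := κ) hij) =
      ((PMap.ofHomeo (mulIH i j)).comp (PMap.ofHomeo (conjH hij))).box (PMap.id (LC.G κ)) := by
    ext ⟨v, P⟩
    rfl
  rw [e]
  exact h2

end tau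

end Pool.Agent.Helper1.Stab
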