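import Pool.Agent.Helper19.Stab.StepF
import Pool.Agent.Helper19.Stab.Proj
import Pool.Agent.Helper19.Stab.Tau

/-! The levels of the compact model of a telescope of `S[BU]` in complex coordinates. -/

open CategoryTheory Topology Filter Set Opposite

set_option linter.unusedVariables false

noncomputable section

namespace Pool.Agent.Helper1.Stab

/-! ### Complex coordinates -/

/-- the complex coordinates of a real vector -/
def toCf {v : ℕ} (x : Fin v → ℝ) (i : Fin (v / 2)) : ℂ :=
  ⟨x ⟨2 * i.1, by omega⟩, x ⟨2 * i.1 + 1, by omega⟩⟩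

/-- the real coordinates of a complex vector -/
def ofCf {v : ℕ} (hv : v % 2 = 0) (c : Fin (v / 2) → ℂ) (i : Fin v) : ℝ :=
  if i.1 % 2 = 0 then (c ⟨i.1 / 2, by omega⟩).re else (c ⟨i.1 / 2, by omega⟩).im

theorem ofCf_toCf {v : ℕ} (hv : v % 2 = 0) (x : Fin v → ℝ) : ofCf hv (toCf x) = x := by
  funext i
  unfold ofCf toCf
  split_ifs with h
  · show x _ = x _
    congr 1
    apply Fin.ext
    show 2 * (i.1 / 2) = i.1
    omega
  · show x _ = x _
    congr 1
    apply Fin.ext
    show 2 * (i.1 / 2) + 1 = i.1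
    omega

theorem toCf_ofCf {v : ℕ} (hv : v % 2 = 0) (c : Fin (v / 2) → ℂ) : toCf (ofCf hv c) = c := by
  funext i
  apply Complex.ext
  · show (if (2 * i.1) % 2 = 0 then _ else _) = _
    rw [if_pos (by omega)]
    congr 2
    apply Fin.ext
    show 2 * i.1 / 2 = i.1
    omega
  · show (if (2 * i.1 + 1) % 2 = 0 then _ else _) = _
    rw [if_neg (by omega)]
    congr 2
    apply Fin.ext
    show (2 * i.1 + 1) / 2 = i.1
    omega

/-- `ℝ^v = ℂ^(v/2)` -/
def toCH {v : ℕ} (hv : v % 2 = 0) : LC.rpow (Fin v) ≃ₜ LC.cpow (Fin (v / 2)) where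
  toFun := toCf
  invFun := ofCf hv
  left_inv := ofCf_toCf hv
  right_inv := toCf_ofCf hv
  continuous_toFun := continuous_pi fun _ => continuous_mkC (continuous_apply _)
    (continuous_apply _)
  continuous_invFun := by
    refine continuous_pi fun i => ?_
    unfold ofCf
    split_ifs
    · exact Complex.continuous_re.comp (continuous_apply _)
    · exact Complex.continuous_im.comp (continuous_apply _)

/-- `1 ⊔ a = b` -/
def pO {a b : ℕ} (h : b = a + 1) : Option (Fin a) ≃ Fin b :=
  (finSuccEquiv a).symm.trans (finCongr h.symm)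

theorem pO_symm_zero {a b : ℕ} (h : b = a + 1) (i : Fin b) (hi : i.1 = 0) :
    (pO h).symm i = none := by
  subst h
  have : i = 0 := Fin.ext hi
  subst this
  exact finSuccEquiv_zero

theorem pO_symm_succ {a b : ℕ} (h : b = a + 1) (i : Fin b) (j : Fin a) (hi : i.1 = j.1 + 1) :
    (pO h).symm i = some j := by
  subst h
  have : i = j.succ := Fin.ext hi
  subst this
  exact finSuccEquiv_succ j

theorem toCf_cons {v v' : ℕ} (h : v' = v + 2) (h2 : v' / 2 = v / 2 + 1) (a b : ℝ)
    (x : Fin v → ℝ) :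
    toCf (fun i : Fin v' => (Fin.cons a (Fin.cons b x : Fin (v + 1) → ℝ) : Fin (v + 2) → ℝ)
      (Fin.cast h i)) = fun i => Option.elim ((pO h2).symm i) ⟨a, b⟩ (toCf x) := by
  subst h
  funext i
  rcases hi : i.1 with _ | j
  · rw [pO_symm_zero h2 i hi]
    unfold toCf
    show (⟨(Fin.cons a (Fin.cons b x : Fin (v + 1) → ℝ) : Fin (v + 2) → ℝ) _,
      (Fin.cons a (Fin.cons b x : Fin (v + 1) → ℝ) : Fin (v + 2) → ℝ) _⟩ : ℂ) = ⟨a, b⟩
    have e1 : (Fin.cast rfl ⟨2 * i.1, by omega⟩ : Fin (v + 2)) = 0 := by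
      apply Fin.ext
      show 2 * i.1 = 0
      omega
    have e2 : (Fin.cast rfl ⟨2 * i.1 + 1, by omega⟩ : Fin (v + 2)) = (0 : Fin (v + 1)).succ := by
      apply Fin.ext
      show 2 * i.1 + 1 = 0 + 1
      omega
    rw [e1, e2]
    rfl
  · have hj : j < v / 2 := by omega
    rw [pO_symm_succ h2 i ⟨j, hj⟩ hi]
    unfold toCf
    show (⟨(Fin.cons a (Fin.cons b x : Fin (v + 1) → ℝ) : Fin (v + 2) → ℝ) _,
      (Fin.cons a (Fin.cons b x : Fin (v + 1) → ℝ) : Fin (v + 2) → ℝ) _⟩ : ℂ) =
      ⟨x ⟨2 * j, by omega⟩, x ⟨2 * j + 1, by omega⟩⟩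
    have e1 : (Fin.cast rfl ⟨2 * i.1, by omega⟩ : Fin (v + 2)) =
        (⟨2 * j, by omega⟩ : Fin v).succ.succ := by
      apply Fin.ext
      show 2 * i.1 = 2 * j + 1 + 1
      omega
    have e2 : (Fin.cast rfl ⟨2 * i.1 + 1, by omega⟩ : Fin (v + 2)) =
        (⟨2 * j + 1, by omega⟩ : Fin v).succ.succ := by
      apply Fin.ext
      show 2 * i.1 + 1 = 2 * j + 1 + 1 + 1
      omega
    rw [e1, e2]
    rfl

theorem toCf_two {v : ℕ} (h : v = 2) (a b : ℝ) (i : Fin (v / 2)) :
    toCf (fun i => (Fin.cons a (fun _ => b) : Fin 2 → ℝ) (Fin.cast h i)) i = ⟨a, b⟩ := by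
  subst h
  obtain rfl : i = ⟨0, by omega⟩ := Fin.ext (by have := i.2; omega)
  rfl

theorem lev_two {e : ℕ} (he : 0 < e) (n : ℕ) :
    lev (2 * e) (2 * n) % 2 = 0 ∧ lev (2 * e) (2 * n) ≤ 2 * e := by
  induction n with
  | zero => exact ⟨rfl, Nat.zero_le _⟩
  | succ n ih =>
    have h1 : lev (2 * e) (2 * (n + 1)) = if lev (2 * e) (2 * n + 1) = 2 * e then 1 else
      lev (2 * e) (2 * n + 1) + 1 := rfl
    have h2 : lev (2 * e) (2 * n + 1) = if lev (2 * e) (2 * n) = 2 * e then 1 else
      lev (2 * e) (2 * n) + 1 := rfl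
    split_ifs at h2 with h3
    · rw [if_neg (by omega)] at h1
      omega
    · rw [if_neg (by omega)] at h1
      omega

theorem lev_inside {e : ℕ} (he : 0 < e) (n : ℕ) (h : lev (2 * e) (2 * n) ≠ 2 * e) :
    lev (2 * e) (2 * n + 1) ≠ 2 * e ∧ lev (2 * e) (2 * (n + 1)) = lev (2 * e) (2 * n) + 2 ∧
      blk (2 * e) (2 * (n + 1)) = blk (2 * e) (2 * n) := by
  have h0 := lev_two he n
  have h2 : lev (2 * e) (2 * n + 1) = lev (2 * e) (2 * n) + 1 := if_neg h
  have h3 : lev (2 * e) (2 * n + 1) ≠ 2 * e := by omega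
  have h1 : lev (2 * e) (2 * (n + 1)) = lev (2 * e) (2 * n + 1) + 1 := if_neg h3
  have h4 : blk (2 * e) (2 * n + 1) = blk (2 * e) (2 * n) := if_neg h
  have h5 : blk (2 * e) (2 * (n + 1)) = blk (2 * e) (2 * n + 1) := if_neg h3
  omega

theorem lev_boundary {e : ℕ} (he : 0 < e) (n : ℕ) (h : lev (2 * e) (2 * n) = 2 * e) :
    lev (2 * e) (2 * (n + 1)) = 2 ∧ blk (2 * e) (2 * (n + 1)) = blk (2 * e) (2 * n) + 1 := by
  have h2 : lev (2 * e) (2 * n + 1) = 1 := if_pos h
  have h3 : lev (2 * e) (2 * n + 1) ≠ 2 * e := by omega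
  have h1 : lev (2 * e) (2 * (n + 1)) = lev (2 * e) (2 * n + 1) + 1 := if_neg h3
  have h4 : blk (2 * e) (2 * n + 1) = blk (2 * e) (2 * n) + 1 := if_pos h
  have h5 : blk (2 * e) (2 * (n + 1)) = blk (2 * e) (2 * n + 1) := if_neg h3
  omega

/-! ### The stages -/

section levels

variable {e k : ℕ} (he : 0 < e) (f : GenLoop (Fin (2 * e)) (Gr Set.univ k) (Gr.pt Set.univ k))
  (hD : GoodD Set.univ) (st : ∀ l, stageLC hD l ≃ₜ LC.G (Fin l))

include he in
theorem h2e : 0 < 2 * e := by omega

/-- the level in complex coordinates -/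
def kapX (n : ℕ) : modelK hD k (2 * e) n ≃ₜ
    LC.XX (Fin (lev (2 * e) (2 * n) / 2)) (Fin (blk (2 * e) (2 * n) * (k + 1))) :=
  (toCH (lev_two he n).1).prodCongr (st _)

/-- the step map in complex coordinates -/
def stepC (n : ℕ) : PMap
    (LC.XX (Option (Fin (lev (2 * e) (2 * n) / 2))) (Fin (blk (2 * e) (2 * n) * (k + 1))))
    (LC.XX (Fin (lev (2 * e) (2 * (n + 1)) / 2))
      (Fin (blk (2 * e) (2 * (n + 1)) * (k + 1)))).plus :=
  (PMap.ofHomeo (kapX he hD st (n + 1))).comp
    (((levelsModel hD (h2e he) f).step n).comp ((PMap.ltens LC.C (PMap.ofHomeo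
      (K := LC.XX (Fin (lev (2 * e) (2 * n) / 2)) (Fin (blk (2 * e) (2 * n) * (k + 1))))
      (L := modelK hD k (2 * e) n) (kapX he hD st n).symm)).comp
      (PMap.ofHomeo (consX _ _).symm)))

theorem stepC_val (n : ℕ) (v : Option (Fin (lev (2 * e) (2 * n) / 2)) → ℂ)
    (P : GK (Fin (blk (2 * e) (2 * n) * (k + 1)))) :
    stepC he f hD st n (v, P) = bnd ((levelsModel hD (h2e he) f).step n (v none,
      ((ofCf (lev_two he n).1 (fun i => v (some i)), (st _).symm P) : modelK hD k (2 * e) n)))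
      (fun y => OnePoint.some (X := LC.XX (Fin (lev (2 * e) (2 * (n + 1)) / 2))
        (Fin (blk (2 * e) (2 * (n + 1)) * (k + 1)))) (toCf y.1, st _ y.2)) := rfl

/-- a point of a stage in the next stages -/
theorem st_cast {l l' : ℕ} (h : l' = l) (y : stage Set.univ l) (hy : y.1 ∈ stage Set.univ l') :
    st l' (⟨y.1, hy⟩ : stage Set.univ l') = GK.reindex (finCongr h.symm) (st l y) := by
  subst h
  refine Datum.GK.ext fun x y => rfl

variable (hst : ∀ l (A : Frame l), st l (⟨toBG Set.univ l (Quot.mk _ A), ⟨_, rfl⟩⟩ :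
  stage Set.univ l) = A.proj)

include hst in
theorem st_act {l l' : ℕ} (h : k + l + 1 = l') (W : Gr Set.univ k) (y : stage Set.univ l)
    (hy : act Set.univ k (W, y.1) ∈ stage Set.univ l') :
    st l' (⟨act Set.univ k (W, y.1), hy⟩ : stage Set.univ l') =
      GK.reindex ((finSumFinEquiv.sumCongr (Equiv.refl (Fin 1))).trans
        (finSumFinEquiv.trans (finCongr h))) (GK.sum (GK.sum (Gr.toGK W, st l y),
          GK.base (Fin 1))) := by
  subst h
  obtain ⟨_, ⟨w, rfl⟩⟩ := y
  induction w using Quot.ind with | mk A => ?_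
  induction W using Quot.ind with | mk B => ?_
  have e1 : act Set.univ k (Quot.mk _ B, toBG Set.univ l (Quot.mk _ A)) =
      toBG Set.univ (k + l + 1) (Quot.mk _ (B.sum A).incl) := Quot.sound (.stab (B.sum A))
  have e2 : (⟨act Set.univ k (Quot.mk _ B, toBG Set.univ l (Quot.mk _ A)), hy⟩ :
      stage Set.univ (k + l + 1)) =
      ⟨toBG Set.univ (k + l + 1) (Quot.mk _ (B.sum A).incl), ⟨_, rfl⟩⟩ := Subtype.ext e1
  rw [e2, hst, hst, Frame.proj_incl, Frame.proj_sum]
  have e3 := GK.sum_re finSumFinEquiv (Equiv.refl (Fin 1)) (GK.sum (B.proj, A.proj))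
    (GK.base (Fin 1))
  rw [GK.reindex_refl] at e3
  rw [e3]
  rfl

/-- the step map inside a block is a renaming -/
theorem stepC_inside (n : ℕ) (h : lev (2 * e) (2 * n) ≠ 2 * e) :
    ∃ (p : Option (Fin (lev (2 * e) (2 * n) / 2)) ≃ Fin (lev (2 * e) (2 * (n + 1)) / 2))
      (q : Fin (blk (2 * e) (2 * n) * (k + 1)) ≃ Fin (blk (2 * e) (2 * (n + 1)) * (k + 1))),
      stepC he f hD st n = xr p q := by
  obtain ⟨h1, h2, h3⟩ := lev_inside he n h
  have h4 : lev (2 * e) (2 * (n + 1)) / 2 = lev (2 * e) (2 * n) / 2 + 1 := by omega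
  have h5 : blk (2 * e) (2 * (n + 1)) * (k + 1) = blk (2 * e) (2 * n) * (k + 1) := by rw [h3]
  refine ⟨pO h4, finCongr h5.symm, ?_⟩
  ext ⟨v, P⟩
  rw [stepC_val, xr_val, lev_step_inside hD (h2e he) f n h h1 h2 h3]
  change OnePoint.some (X := LC.XX (Fin (lev (2 * e) (2 * (n + 1)) / 2))
        (Fin (blk (2 * e) (2 * (n + 1)) * (k + 1)))) _ = _
  congr 1
  refine Prod.ext ?_ ?_
  · refine (toCf_cons h2 h4 _ _ _).trans ?_
    rw [toCf_ofCf]
    funext i
    change _ = v ((pO h4).symm i)
    rcases (pO h4).symm i with _ | j <;> rfl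
  · refine (st_cast hD st h5 _ _).trans ?_
    rw [Homeomorph.apply_symm_apply]

theorem loopSelf_loopGK (c : Fin (2 * e + 1) → unitInterval) :
    sphToPlus (GK (Fin k)) (loopSelf (loopGK f) c) =
      bnd (sphToPlus (Gr Set.univ k) (loopSelf f c)) (fun p =>
        (((p.1, Gr.toGK p.2) : ℝ × GK (Fin k)) : OnePoint (ℝ × GK (Fin k)))) := by
  have e1 : loopSelf (loopGK f) c = Sph.mk (height c)
      (Gr.toGK (if (c 0 : ℝ) ≤ 1 / 2 then f (stretch c) else Gr.pt Set.univ k)) := by
    unfold loopSelf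
    congr 1
    split_ifs
    · rfl
    · exact Gr.toGK_pt.symm
  have e2 : loopSelf f c = Sph.mk (height c)
      (if (c 0 : ℝ) ≤ 1 / 2 then f (stretch c) else Gr.pt Set.univ k) := rfl
  rw [e1, e2, sphToPlus_mk, sphToPlus_mk]
  split_ifs <;> rfl

theorem loopDatum_s (c : Fin (e + 1) → ℂ) :
    (loopDatum (loopGK f)).s c = bnd (sphToPlus (Gr Set.univ k) (loopSelf f
      (Fin.cons (squash (c 0).re) fun i => squash (realify e (fun j => c j.succ) i))))
      (fun y => ((((fun _ => ⟨y.1, (c 0).im⟩), Gr.toGK y.2) : (Fin 1 → ℂ) × GK (Fin k)) :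
        OnePoint ((Fin 1 → ℂ) × GK (Fin k)))) := by
  change OnePoint.elim (sphToPlus (GK (Fin k)) (loopSelf (loopGK f) _)) _ _ = _
  rw [loopSelf_loopGK]
  rcases sphToPlus (Gr Set.univ k) (loopSelf f (Fin.cons (squash (c 0).re) fun i =>
    squash (realify e (fun j => c j.succ) i))) with _ | y <;> rfl

/-- the source permutation at the end of a block -/
def pBd {a : ℕ} (h : e + 1 = a + 1) : Option (Option (Fin a)) ≃ Fin (e + 1) ⊕ PUnit.{1} :=
  (Equiv.optionEquivSumPUnit _).trans ((pO h).sumCongr (Equiv.refl _))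

/-- the target permutation at the end of a block -/
def pT {a : ℕ} (h : a = 1) : Fin 1 ⊕ PUnit.{1} ≃ Option (Fin a) :=
  ((finCongr h.symm).sumCongr (Equiv.refl _)).trans (Equiv.optionEquivSumPUnit _).symm

/-- the number of coordinates after the end of a block -/
def qB {b b' : ℕ} (h : k + b + 1 = b') : (Fin k ⊕ Fin b) ⊕ Fin 1 ≃ Fin b' :=
  (finSumFinEquiv.sumCongr (Equiv.refl (Fin 1))).trans (finSumFinEquiv.trans (finCongr h))

theorem S_four (D : Datum) {β α μ μ' : Type} [Fintype β] [Fintype α] [Fintype μ] [Fintype μ']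
    (p : β ≃ D.w ⊕ PUnit.{1}) (p' : D.u ⊕ PUnit.{1} ≃ α) (q' : (D.a ⊕ μ) ⊕ Fin 1 ≃ μ')
    (w : β → ℂ) (P : GK μ) :
    ((xr p' q').comp ((addB (D.u ⊕ PUnit.{1}) (D.a ⊕ μ) (Fin 1)).comp
      ((D.SX PUnit.{1} μ).comp (xr p (Equiv.refl _))))) (w, P) =
    bnd (D.s (fun j => w (p.symm (.inl j)))) (fun y => OnePoint.some (X := LC.XX α μ')
      (fun x => (Sum.elim y.1 (fun c => w (p.symm (.inr c))) : D.u ⊕ PUnit.{1} → ℂ) (p'.symm x),
        GK.reindex q' (GK.sum (GK.sum (y.2, P), GK.base (Fin 1))))) := by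
  rw [comp_bnd, comp_bnd, comp_bnd, xr_val]
  change bnd (bnd (D.SX PUnit.{1} μ (_, GK.reindex (Equiv.refl _) P)) _) _ = _
  rw [Datum.S_val]
  rcases D.s (fun j => w (p.symm (.inl j))) with _ | y <;> rfl

include hst in
/-- the step map at the end of a block -/
theorem stepC_boundary (n : ℕ) (h : lev (2 * e) (2 * n) = 2 * e) :
    ∃ (p : Option (Option (Fin (lev (2 * e) (2 * n) / 2))) ≃ Fin (e + 1) ⊕ PUnit.{1})
      (p' : Fin 1 ⊕ PUnit.{1} ≃ Option (Fin (lev (2 * e) (2 * (n + 1)) / 2)))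
      (q' : (Fin k ⊕ Fin (blk (2 * e) (2 * n) * (k + 1))) ⊕ Fin 1 ≃
        Fin (blk (2 * e) (2 * (n + 1)) * (k + 1))),
      (extC (stepC he f hD st n)).Homotopic ((xr p' q').comp ((addB (Fin 1 ⊕ PUnit.{1}) (Fin k ⊕
        Fin (blk (2 * e) (2 * n) * (k + 1))) (Fin 1)).comp
        (((loopDatum (loopGK f)).SX PUnit.{1} (Fin (blk (2 * e) (2 * n) * (k + 1)))).comp
          (xr p (Equiv.refl _))))) := by
  obtain ⟨h2, h3⟩ := lev_boundary he n h
  have h4 : e + 1 = lev (2 * e) (2 * n) / 2 + 1 := by omega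
  have h5 : lev (2 * e) (2 * (n + 1)) / 2 = 1 := by omega
  have h6 : k + blk (2 * e) (2 * n) * (k + 1) + 1 = blk (2 * e) (2 * (n + 1)) * (k + 1) := by
    rw [h3]
    ring
  refine ⟨pBd h4, pT h5, qB h6, ?_⟩
  have hne : (none : Option (Option (Fin (lev (2 * e) (2 * n) / 2)))) ≠ some none := by simp
  have hne' : (none : Option (Fin (lev (2 * e) (2 * (n + 1)) / 2))) ≠ some ⟨0, by omega⟩ := by
    simp
  have key : extC (stepC he f hD st n) = (PMap.ofHomeo (tau2 hne')).comp (((xr (pT h5)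
      (qB h6)).comp ((addB (Fin 1 ⊕ PUnit.{1}) (Fin k ⊕
        Fin (blk (2 * e) (2 * n) * (k + 1))) (Fin 1)).comp
        (((loopDatum (loopGK f)).SX PUnit.{1} (Fin (blk (2 * e) (2 * n) * (k + 1)))).comp
          (xr (pBd h4) (Equiv.refl _))))).comp (PMap.ofHomeo (tau2 hne))) := by
    ext ⟨v, P⟩
    have hL : extC (stepC he f hD st n) (v, P) = bnd (sphToPlus (Gr Set.univ k)
        (loopSelf f (Fin.cons (squash (v (some none)).im) (fun i =>
          squash (ofCf (lev_two he n).1 (fun i => v (some (some i))) (Fin.cast h.symm i))))))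
        (fun p => OnePoint.some (X := LC.XX (Option (Fin (lev (2 * e) (2 * (n + 1)) / 2)))
          (Fin (blk (2 * e) (2 * (n + 1)) * (k + 1))))
          (fun o => Option.elim o (v none) (fun _ => ⟨(v (some none)).re, p.1⟩),
            GK.reindex (qB h6) (GK.sum (GK.sum (Gr.toGK p.2, P), GK.base (Fin 1))))) := by
      rw [extC_val, stepC_val, lev_step_boundary hD (h2e he) f n h (by omega) h2 h3]
      generalize sphToPlus (Gr Set.univ k) (loopSelf f (Fin.cons (squash (v (some none)).im)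
        (fun i => squash (ofCf (lev_two he n).1 (fun i => v (some (some i)))
          (Fin.cast h.symm i))))) = X
      rcases X with _ | ⟨r, W⟩
      · rfl
      · change OnePoint.some (X := LC.XX (Option (Fin (lev (2 * e) (2 * (n + 1)) / 2)))
          (Fin (blk (2 * e) (2 * (n + 1)) * (k + 1)))) _ = OnePoint.some (X := LC.XX (Option (Fin
          (lev (2 * e) (2 * (n + 1)) / 2))) (Fin (blk (2 * e) (2 * (n + 1)) * (k + 1)))) _
        congr 1
        refine Prod.ext ?_ ?_
        · funext o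
          rcases o with _ | i
          · rfl
          · change toCf (fun i => (Fin.cons (v (some none)).re (fun _ => r) : Fin 2 → ℝ)
              (Fin.cast h2 i)) i = ⟨(v (some none)).re, r⟩
            exact toCf_two h2 _ _ i
        · refine (st_act hD st hst h6 W _ _).trans ?_
          rw [Homeomorph.apply_symm_apply]
          rfl
    have hR : (PMap.ofHomeo (tau2 hne')).comp (((xr (pT h5)
      (qB h6)).comp ((addB (Fin 1 ⊕ PUnit.{1}) (Fin k ⊕
        Fin (blk (2 * e) (2 * n) * (k + 1))) (Fin 1)).comp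
        (((loopDatum (loopGK f)).SX PUnit.{1} (Fin (blk (2 * e) (2 * n) * (k + 1)))).comp
          (xr (pBd h4) (Equiv.refl _))))).comp (PMap.ofHomeo (tau2 hne))) (v, P) =
        bnd (sphToPlus (Gr Set.univ k)
        (loopSelf f (Fin.cons (squash (v (some none)).im) (fun i =>
          squash (ofCf (lev_two he n).1 (fun i => v (some (some i))) (Fin.cast h.symm i))))))
        (fun p => OnePoint.some (X := LC.XX (Option (Fin (lev (2 * e) (2 * (n + 1)) / 2)))
          (Fin (blk (2 * e) (2 * (n + 1)) * (k + 1))))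
          (fun o => Option.elim o (v none) (fun _ => ⟨(v (some none)).re, p.1⟩),
            GK.reindex (qB h6) (GK.sum (GK.sum (Gr.toGK p.2, P), GK.base (Fin 1))))) := by
      have h7 := S_four (loopDatum (loopGK f)) (pBd h4) (pT h5) (qB h6) (tauV none (some none) v) P
      have hc0 : tauV none (some none) v ((pBd h4).symm (Sum.inl 0)) =
          ⟨(v (some none)).im, (v (some none)).re⟩ := by
        change tauV none (some none) v (some ((pO h4).symm 0)) = _
        rw [pO_symm_zero h4 0 rfl]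
        exact if_pos (Or.inr rfl)
      have hc1 : ∀ j : Fin e, tauV none (some none) v ((pBd h4).symm (Sum.inl j.succ)) =
          v (some (some (Fin.cast (by omega) j))) := by
        intro j
        change tauV none (some none) v (some ((pO h4).symm j.succ)) = _
        rw [pO_symm_succ h4 j.succ (Fin.cast (by omega) j) rfl]
        refine if_neg ?_
        simp
      have h8 : (loopDatum (loopGK f)).s (fun j => tauV none (some none) v
          ((pBd h4).symm (Sum.inl j))) = bnd (sphToPlus (Gr Set.univ k)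
        (loopSelf f (Fin.cons (squash (v (some none)).im) (fun i =>
          squash (ofCf (lev_two he n).1 (fun i => v (some (some i))) (Fin.cast h.symm i))))))
          (fun y => ((((fun _ => ⟨y.1, (v (some none)).re⟩), Gr.toGK y.2) :
            (Fin 1 → ℂ) × GK (Fin k)) : OnePoint ((Fin 1 → ℂ) × GK (Fin k)))) := by
        refine (loopDatum_s f _).trans ?_
        rw [hc0]
        have h10 : (fun i => squash (realify e (fun j => tauV none (some none) v
            ((pBd h4).symm (Sum.inl j.succ))) i)) = fun i : Fin (2 * e) =>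
              squash (ofCf (lev_two he n).1 (fun i => v (some (some i))) (Fin.cast h.symm i)) := by
          funext i
          congr 1
          unfold realify ofCf
          split_ifs with h11 h12 h12
          · exact congrArg Complex.re (hc1 ⟨i.1 / 2, by omega⟩)
          · exact absurd h11 h12
          · exact absurd h12 h11
          · exact congrArg Complex.im (hc1 ⟨i.1 / 2, by omega⟩)
        rw [h10]
      have h9 : tau2 (κ := Fin (blk (2 * e) (2 * n) * (k + 1))) hne (v, P) =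
        (tauV none (some none) v, P) := tau2_apply hne v P
      refine (congrArg (fun x => bnd (((xr (pT h5)
      (qB h6)).comp ((addB (Fin 1 ⊕ PUnit.{1}) (Fin k ⊕
        Fin (blk (2 * e) (2 * n) * (k + 1))) (Fin 1)).comp
        (((loopDatum (loopGK f)).SX PUnit.{1} (Fin (blk (2 * e) (2 * n) * (k + 1)))).comp
          (xr (pBd h4) (Equiv.refl _))))) x) (PMap.ofHomeo (tau2 hne'))) h9).trans ?_
      refine (congrArg (fun x => bnd x (PMap.ofHomeo (tau2 hne'))) (h7.trans
        (congrArg (fun x => bnd x _) h8))).trans ?_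
      generalize sphToPlus (Gr Set.univ k) (loopSelf f (Fin.cons (squash (v (some none)).im)
        (fun i => squash (ofCf (lev_two he n).1 (fun i => v (some (some i)))
          (Fin.cast h.symm i))))) = X
      rcases X with _ | ⟨r, W⟩
      · rfl
      · change OnePoint.some (X := LC.XX (Option (Fin (lev (2 * e) (2 * (n + 1)) / 2)))
          (Fin (blk (2 * e) (2 * (n + 1)) * (k + 1)))) (tau2 hne' (_, _)) =
          OnePoint.some (X := LC.XX (Option (Fin
          (lev (2 * e) (2 * (n + 1)) / 2))) (Fin (blk (2 * e) (2 * (n + 1)) * (k + 1)))) _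
        rw [tau2_apply]
        congr 1
        refine Prod.ext ?_ rfl
        funext o
        rcases o with _ | i
        · refine (if_pos (Or.inl rfl)).trans ?_
          change tauC (tauV none (some none) v none) = v none
          rw [show tauV none (some none) v none = tauC (v none) from if_pos (Or.inl rfl)]
          rfl
        · refine (if_pos (Or.inr ?_)).trans ?_
          · congr 1
            exact Fin.ext (by have := i.2; omega)
          · rfl
    exact hL.trans hR.symm
  rw [key]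
  have e1 := (tau2_homotopic (κ := Fin (blk (2 * e) (2 * (n + 1)) * (k + 1))) hne').comp
    (PMap.Homotopic.comp_right (((xr (pT h5)
      (qB h6)).comp ((addB (Fin 1 ⊕ PUnit.{1}) (Fin k ⊕
        Fin (blk (2 * e) (2 * n) * (k + 1))) (Fin 1)).comp
        (((loopDatum (loopGK f)).SX PUnit.{1} (Fin (blk (2 * e) (2 * n) * (k + 1)))).comp
          (xr (pBd h4) (Equiv.refl _)))))) (tau2_homotopic
            (κ := Fin (blk (2 * e) (2 * n) * (k + 1))) hne))
  rw [PMap.comp_id, PMap.id_comp] at e1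
  exact e1

end levels

end Pool.Agent.Helper1.Stab
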