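import Pool.Agent.Helper1.Stab.Comp
import Pool.Agent.Helper68.Stab.LocStrict

/-! The structure maps of the compact model, on points. -/

open CategoryTheory Topology Filter Set Opposite

noncomputable section

namespace Pool.Agent.Helper1.Stab

/-! ## The structure maps of a telescope -/

theorem Sph.cast_mk {a b : ℕ} {X : Type} [TopologicalSpace X] (h : a = b)
    (u : Fin a → unitInterval) (x : X) :
    Sph.cast h (Sph.mk u x) = (Sph.mk (fun i => u (Fin.cast h.symm i)) x : Sph b X) := by
  subst h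
  rfl

theorem teleStr_of_ne {d : ℕ} {X : Type} [TopologicalSpace X] (m : SelfMap d X) {v : ℕ} (hv : v ≠ d)
    (t : unitInterval) (u : Fin v → unitInterval) (x : X) :
    teleStr m v t (Sph.mk u x) = Sph.mk (fun i => (Fin.cons t u : Fin (v + 1) → unitInterval)
      (Fin.cast (if_neg hv) i)) x := by
  unfold teleStr
  rw [dif_neg hv]
  exact Sph.cast_mk _ _ _

theorem teleStr_self {d : ℕ} {X : Type} [TopologicalSpace X] (m : SelfMap d X) {v : ℕ} (hv : v = d)
    (t : unitInterval) (u : Fin v → unitInterval) (x : X) :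
    teleStr m v t (Sph.mk u x) = Sph.cast (if_pos hv).symm (m.toFun ((Fin.cons t
      (fun i => u (Fin.cast hv.symm i)) : Fin (d + 1) → unitInterval), x)) := by
  subst hv
  unfold teleStr
  rw [dif_pos rfl]
  rfl

/-! ## The step maps of the levels -/

section step

variable {D : Set ℂ} (hD : GoodD D) {k d : ℕ} (hd : 0 < d)
  (f : GenLoop (Fin d) (Gr D k) (Gr.pt D k))

theorem levels_e_apply (n : ℕ) (w : ((model f).upp n).sp 0) (y : modelK hD k d n)
    (h : (model f).uppCast n 0 w = modelPt hD f n y) :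
    (levelsModel hD hd f).e n w = (y : OnePoint (modelK hD k d n)) := by
  have h1 := (exists_levels_aux hD hd f n).choose_spec.2 y
  rw [← h] at h1
  have h2 := (((model f).uppCast n 0).injective h1)
  have h3 : (levelsModel hD hd f).e n ((levelsModel hD hd f).e n |>.symm
    (y : OnePoint (modelK hD k d n))) = (y : OnePoint (modelK hD k d n)) :=
      Homeomorph.apply_symm_apply _ _
  rw [← h3]
  exact congrArg _ h2.symm

theorem levels_e_infty (n : ℕ) (w : ((model f).upp n).sp 0)
    (h : (model f).uppCast n 0 w = ((model f).sp (2 * n)).pt) :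
    (levelsModel hD hd f).e n w = (OnePoint.infty : OnePoint (modelK hD k d n)) := by
  have h1 : w = (((model f).upp n).sp 0).pt := by
    apply ((model f).uppCast n 0).injective
    rw [h]
    exact ((model f).uppCast_pt n 0).symm
  rw [h1]
  exact (levelsModel hD hd f).e_pt n

/-- the value of two structure maps -/
theorem uppCast_step (n : ℕ) (z : ℂ) (x : modelK hD k d n) :
    (model f).uppCast (n + 1) 0 (((model f).upp n).sigC ((levelsModel hD hd f).inc n) (z, x)) =
      (model f).str (2 * n + 1) (squash z.re,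
        (model f).str (2 * n) (squash z.im, modelPt hD f n x)) := by
  have h0 : (model f).uppCast n 0 ((levelsModel hD hd f).inc n x) = modelPt hD f n x :=
    (exists_levels_aux hD hd f n).choose_spec.2 x
  have h1 := (model f).uppCast_str n 0 (squash z.im) ((levelsModel hD hd f).inc n x)
  have h2 := (model f).uppCast_str n 1 (squash z.re)
    (((model f).upp n).str 0 (squash z.im, (levelsModel hD hd f).inc n x))
  rw [h0] at h1
  rw [h1] at h2
  exact h2

theorem step_coe (n : ℕ) (z : ℂ) (x : modelK hD k d n) (y : modelK hD k d (n + 1))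
    (h : (tele (mulMap f)).str (2 * n + 1) (squash z.re, (tele (mulMap f)).str (2 * n)
      (squash z.im, Sph.mk (fun i => squash (x.1 i)) x.2.1)) =
      (Sph.mk (fun i => squash (y.1 i)) y.2.1 : Sph (lev d (2 * (n + 1))) (BG D))) :
    (levelsModel hD hd f).step n (z, x) = (y : OnePoint (modelK hD k d (n + 1))) := by
  refine levels_e_apply hD hd f (n + 1) _ y ?_
  rw [uppCast_step]
  exact Subtype.ext h

theorem step_infty (n : ℕ) (z : ℂ) (x : modelK hD k d n)
    (h : (tele (mulMap f)).str (2 * n + 1) (squash z.re, (tele (mulMap f)).str (2 * n)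
      (squash z.im, Sph.mk (fun i => squash (x.1 i)) x.2.1)) =
      ((tele (mulMap f)).sp (2 * (n + 1))).pt) :
    (levelsModel hD hd f).step n (z, x) = (OnePoint.infty : OnePoint (modelK hD k d (n + 1))) := by
  refine levels_e_infty hD hd f (n + 1) _ ?_
  rw [uppCast_step]
  exact Subtype.ext h

theorem fin_cons_cons_cast {T : Type} {v v1 v2 : ℕ} (e1 : v1 = v + 1) (e2 : v2 = v1 + 1)
    (e : v2 = v + 2) (a b : T) (u : Fin v → T) (i : Fin v2) :
    (Fin.cons a (fun j => (Fin.cons b u : Fin (v + 1) → T) (Fin.cast e1 j)) : Fin (v1 + 1) → T)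
      (Fin.cast e2 i) =
    (Fin.cons a (Fin.cons b u : Fin (v + 1) → T) : Fin (v + 2) → T) (Fin.cast e i) := by
  subst e1
  subst e2
  rfl

theorem map_cons {S T : Type} {v : ℕ} (g : S → T) (a : S) (u : Fin v → S) (i : Fin (v + 1)) :
    g ((Fin.cons a u : Fin (v + 1) → S) i) =
      (Fin.cons (g a) (fun j => g (u j)) : Fin (v + 1) → T) i := by
  refine Fin.cases rfl (fun j => rfl) i

theorem map_cons_cons {S T : Type} {v : ℕ} (g : S → T) (a b : S) (u : Fin v → S)
    (i : Fin (v + 2)) :
    g ((Fin.cons a (Fin.cons b u : Fin (v + 1) → S) : Fin (v + 2) → S) i) =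
      (Fin.cons (g a) (Fin.cons (g b) (fun j => g (u j)) : Fin (v + 1) → T) : Fin (v + 2) → T)
        i := by
  refine Fin.cases rfl (fun j => ?_) i
  exact map_cons g b u j

/-- the step map inside a block: the new coordinate is added -/
theorem lev_step_inside (n : ℕ) (h1 : lev d (2 * n) ≠ d) (h2 : lev d (2 * n + 1) ≠ d)
    (h : lev d (2 * (n + 1)) = lev d (2 * n) + 2) (hb : blk d (2 * (n + 1)) = blk d (2 * n))
    (z : ℂ) (x : Fin (lev d (2 * n)) → ℝ) (y : stage D (blk d (2 * n) * (k + 1))) :
    (levelsModel hD hd f).step n (z, ((x, y) : modelK hD k d n)) =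
      OnePoint.some (X := modelK hD k d (n + 1))
        (fun i => (Fin.cons z.re (Fin.cons z.im x : Fin (lev d (2 * n) + 1) → ℝ) :
          Fin (lev d (2 * n) + 2) → ℝ) (Fin.cast h i),
        (⟨y.1, by rw [hb]; exact y.2⟩ : stage D (blk d (2 * (n + 1)) * (k + 1)))) := by
  refine step_coe hD hd f n z _ _ ?_
  have e1 := teleStr_of_ne (mulMap f) h1 (squash z.im) (fun i => squash (x i)) y.1
  have e2 := teleStr_of_ne (mulMap f) h2 (squash z.re) (fun i => (Fin.cons (squash z.im)
    (fun i => squash (x i)) : Fin (lev d (2 * n) + 1) → unitInterval) (Fin.cast (if_neg h1) i)) y.1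
  refine ((congrArg (teleStr (mulMap f) (lev d (2 * n + 1)) (squash z.re)) e1).trans e2).trans ?_
  refine congrArg (fun u => (Sph.mk u y.1 : Sph (lev d (2 * (n + 1))) (BG D))) ?_
  funext i
  refine (fin_cons_cons_cast (v1 := lev d (2 * n + 1)) (v2 := lev d (2 * (n + 1))) (if_neg h1)
    (if_neg h2) h (squash z.re) (squash z.im) (fun i => squash (x i)) i).trans ?_
  exact (map_cons_cons squash z.re z.im x (Fin.cast h i)).symm

theorem squash_unsquash_of_ne (t : unitInterval) (h0 : t ≠ 0) (h1 : t ≠ 1) :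
    squash (unsquash t) = t := by
  have ht0 : 0 < (t : ℝ) := lt_of_le_of_ne t.2.1 fun h => h0 (Subtype.ext h.symm)
  have ht1 : (t : ℝ) < 1 := lt_of_le_of_ne t.2.2 fun h => h1 (Subtype.ext h)
  refine Subtype.ext ?_
  show (1 + unsquash t / (1 + |unsquash t|)) / 2 = (t : ℝ)
  unfold unsquash
  split_ifs with h
  · have h2 : (2 * (t : ℝ) - 1) / (2 * t) ≤ 0 :=
      div_nonpos_of_nonpos_of_nonneg (by linarith) (by linarith)
    rw [abs_of_nonpos h2]
    field_simp
    ring
  · rw [not_le] at h
    have h3 : 0 < 2 - 2 * (t : ℝ) := by linarith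
    have h2 : 0 ≤ (2 * (t : ℝ) - 1) / (2 - 2 * t) := div_nonneg (by linarith) (by linarith)
    rw [abs_of_nonneg h2]
    have h4 : (2 - 2 * (t : ℝ)) ≠ 0 := h3.ne'
    have h5 : 1 + (2 * (t : ℝ) - 1) / (2 - 2 * t) = 1 / (2 - 2 * t) := by
      rw [eq_div_iff h4, add_mul, div_mul_cancel₀ _ h4]
      ring
    rw [h5, div_div_eq_mul_div, div_mul_cancel₀ _ h4]
    ring

theorem height_mem {d : ℕ} (c : Fin (d + 1) → unitInterval) :
    height c ∈ Cube.boundary (Fin 1) ↔ height c 0 = 0 ∨ height c 0 = 1 := by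
  constructor
  · rintro ⟨i, hi⟩
    obtain rfl := Subsingleton.elim i 0
    exact hi
  · intro h
    exact ⟨0, h⟩

theorem cons_cast {T : Type} {v1 v2 : ℕ} (e1 : v1 = 1) (e2 : v2 = v1 + 1) (e : v2 = 2) (a : T)
    (u : Fin 1 → T) (i : Fin v2) :
    (Fin.cons a (fun j => u (Fin.cast e1 j)) : Fin (v1 + 1) → T) (Fin.cast e2 i) =
    (Fin.cons a u : Fin 2 → T) (Fin.cast e i) := by
  subst e1
  subst e2
  rfl

theorem sphToPlus_mk {X : Type} [TopologicalSpace X] (u : Fin 1 → unitInterval) (x : X) :
    sphToPlus X (Sph.mk u x) = open Classical in if u ∈ Cube.boundary (Fin 1) then OnePoint.infty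
      else (((unsquash (u 0), x) : ℝ × X) : OnePoint (ℝ × X)) := rfl

theorem act_mem_stage' {n : ℕ} (hb : blk d (2 * (n + 1)) = blk d (2 * n) + 1)
    (y : stage D (blk d (2 * n) * (k + 1))) (W : Gr D k) :
    act D k (W, y.1) ∈ stage D (blk d (2 * (n + 1)) * (k + 1)) := by
  have h1 := stage_succ D _ (act_mem_stage D k _ W y.2)
  rw [hb, show (blk d (2 * n) + 1) * (k + 1) = k + blk d (2 * n) * (k + 1) + 1 by ring]
  exact h1

/-- the step map at the end of a block -/
theorem lev_step_boundary (n : ℕ) (h1 : lev d (2 * n) = d) (hd1 : 1 ≠ d)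
    (h : lev d (2 * (n + 1)) = 2) (hb : blk d (2 * (n + 1)) = blk d (2 * n) + 1)
    (z : ℂ) (x : Fin (lev d (2 * n)) → ℝ) (y : stage D (blk d (2 * n) * (k + 1))) :
    (levelsModel hD hd f).step n (z, ((x, y) : modelK hD k d n)) =
      bnd (sphToPlus (Gr D k) (loopSelf f (Fin.cons (squash z.im)
        (fun i => squash (x (Fin.cast h1.symm i))))))
        (fun p => OnePoint.some (X := modelK hD k d (n + 1))
          (fun i => (Fin.cons z.re (fun _ => p.1) : Fin 2 → ℝ) (Fin.cast h i),
          (⟨act D k (p.2, y.1), act_mem_stage' hb y p.2⟩ :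
            stage D (blk d (2 * (n + 1)) * (k + 1))))) := by
  set c : Fin (d + 1) → unitInterval := Fin.cons (squash z.im)
    (fun i => squash (x (Fin.cast h1.symm i))) with hc
  set P : Gr D k := if (c 0 : ℝ) ≤ 1 / 2 then f (stretch c) else Gr.pt D k with hP
  have e0 : loopSelf f c = Sph.mk (height c) P := rfl
  have hl1 : lev d (2 * n + 1) = 1 := if_pos h1
  have hl2 : lev d (2 * n + 1) ≠ d := by rw [hl1]; exact hd1
  have e1 : teleStr (mulMap f) (lev d (2 * n)) (squash z.im) (Sph.mk (fun i => squash (x i)) y.1) =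
      (Sph.mk (fun i => height c (Fin.cast hl1 i)) (act D k (P, y.1)) :
        Sph (lev d (2 * n + 1)) (BG D)) := by
    refine (teleStr_self (mulMap f) h1 (squash z.im) (fun i => squash (x i)) y.1).trans ?_
    exact Sph.cast_mk (if_pos h1).symm (height c) (act D k (P, y.1))
  rw [e0, sphToPlus_mk]
  by_cases hbd : height c ∈ Cube.boundary (Fin 1)
  · rw [if_pos hbd]
    refine step_infty hD hd f n z _ ?_
    have e2 : (Sph.mk (fun i => height c (Fin.cast hl1 i)) (act D k (P, y.1)) :
        Sph (lev d (2 * n + 1)) (BG D)) = (Sph (lev d (2 * n + 1)) (BG D)).pt := by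
      refine mk_eq_pt_of_boundary _ _ ?_
      obtain ⟨i, hi⟩ := hbd
      exact ⟨Fin.cast hl1.symm i, hi⟩
    refine (congrArg (teleStr (mulMap f) (lev d (2 * n + 1)) (squash z.re))
      (e1.trans e2)).trans ?_
    exact teleStr_pt _ _ _
  · rw [if_neg hbd, bnd_coe]
    refine step_coe hD hd f n z _ _ ?_
    refine (congrArg (teleStr (mulMap f) (lev d (2 * n + 1)) (squash z.re)) e1).trans ?_
    refine (teleStr_of_ne (mulMap f) hl2 (squash z.re) _ _).trans ?_
    refine congrArg (fun u => (Sph.mk u (act D k (P, y.1)) : Sph (lev d (2 * (n + 1))) (BG D))) ?_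
    funext i
    refine (cons_cast (v1 := lev d (2 * n + 1)) (v2 := lev d (2 * (n + 1))) hl1
      (if_neg hl2) h (squash z.re) (height c) i).trans ?_
    have e3 : height c = fun _ => squash (unsquash (height c 0)) := by
      funext j
      obtain rfl := Subsingleton.elim j 0
      rw [height_mem, not_or] at hbd
      exact (squash_unsquash_of_ne _ hbd.1 hbd.2).symm
    have e4 : (Fin.cons (squash z.re) (height c) : Fin 2 → unitInterval) =
        Fin.cons (squash z.re) (fun _ => squash (unsquash (height c 0))) := congrArg _ e3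
    rw [e4]
    exact (map_cons squash z.re (fun _ => unsquash (height c 0)) (Fin.cast h i)).symm

end step

end Pool.Agent.Helper1.Stab
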